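import Pool.Agent.Work.MP_1ddc88_an.TL.Stmts

/-!
# MP_1ddc88_an, block TL, item TFL (helper12): `Lp` and `Lm` have propagation at most one
-/

set_option autoImplicit false

open Filter Topology
open scoped ENNReal Classical

namespace Pool.Agent.Work.MP_1ddc88_an.TL

noncomputable section

theorem ITFL.adj (T : Tower) (i : ℕ) (v : Fin (T.X.N (i + 1))) :
    (tele T).Adj (⟨i + 1, v⟩ : Pt T.X) ⟨i, T.π i v⟩ := by
  rw [tele, SimpleGraph.fromRel_adj]
  refine ⟨?_, Or.inl (Or.inr ⟨i, v, rfl, rfl⟩)⟩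
  intro h1
  have h2 := (Sigma.mk.inj_iff.1 h1).1
  omega

theorem pr_TFL (h1 : St_TLF) : St_TFL := by
  intro T
  refine ⟨?_, ?_⟩
  · intro ξ p hp
    obtain ⟨⟨⟨j, v⟩, m⟩, k⟩ := p
    obtain ⟨-, hs, hz, -⟩ := h1 T ξ
    cases j with
    | zero => exact absurd (hz v m k) hp
    | succ i =>
      rw [hs i v m k] at hp
      refine ⟨((⟨i, T.π i v⟩, m), k), right_ne_zero_of_mul hp, ?_⟩
      rw [dT, SimpleGraph.dist_eq_one_iff_adj.2 (ITFL.adj T i v)]
      simp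
  · intro ξ p hp
    obtain ⟨⟨⟨i, w⟩, m⟩, k⟩ := p
    obtain ⟨-, -, -, hm⟩ := h1 T ξ
    rw [hm i w m k] at hp
    obtain ⟨w', -, hw⟩ := Finset.exists_ne_zero_of_sum_ne_zero (right_ne_zero_of_mul hp)
    have h3 : T.π i w' = w := by
      by_contra h4
      exact hw (if_neg h4)
    rw [if_pos h3] at hw
    refine ⟨((⟨i + 1, w'⟩, m), k), hw, ?_⟩
    have h4 := (ITFL.adj T i w').symm
    rw [h3] at h4
    rw [dT, SimpleGraph.dist_eq_one_iff_adj.2 h4]
    simp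

end

end Pool.Agent.Work.MP_1ddc88_an.TL
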