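import Pool.Agent.Work.MP_1ddc88_an.TL.Stmts

/-!
# MP_1ddc88_an, block TL, item TGeo: bounded geometry of the telescope
-/

set_option autoImplicit false

open Filter Topology
open scoped ENNReal Classical

namespace Pool.Agent.Work.MP_1ddc88_an.TL

noncomputable section

namespace ITGeo

/-- balls in a connected graph of bounded degree -/
theorem ball {V : Type*} (G : SimpleGraph V) (hG : G.Connected) (M : ℕ) (F : V → Finset V)
    (hF : ∀ v, (F v).card ≤ M) (hA : ∀ v w, G.Adj v w → w ∈ F v) (v : V) (r : ℕ) :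
    ∃ B : Finset V, B.card ≤ (M + 1) ^ r ∧ ∀ w, G.dist v w ≤ r → w ∈ B := by
  induction r with
  | zero =>
    refine ⟨{v}, ?_, ?_⟩
    · rw [Finset.card_singleton, pow_zero]
    · intro w hw
      rw [Nat.le_zero, hG.dist_eq_zero_iff] at hw
      rw [Finset.mem_singleton, hw]
  | succ r ih =>
    obtain ⟨B, hB, hw⟩ := ih
    refine ⟨B.biUnion (fun u => insert u (F u)), ?_, ?_⟩
    · refine (Finset.card_biUnion_le_card_mul _ _ (M + 1) fun u _ => ?_).trans ?_
      · refine (Finset.card_insert_le _ _).trans ?_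
        have h1 := hF u
        omega
      · rw [pow_succ]
        exact Nat.mul_le_mul_right _ hB
    · intro w hwr
      obtain ⟨p, hp⟩ := hG.exists_walk_length_eq_dist w v
      rw [Finset.mem_biUnion]
      cases p with
      | nil =>
        refine ⟨v, hw v ?_, Finset.mem_insert_self _ _⟩
        rw [SimpleGraph.dist_self]
        exact Nat.zero_le _
      | cons h p' =>
        rename_i u
        refine ⟨u, hw u ?_, ?_⟩
        · rw [SimpleGraph.dist_comm]
          have h1 := SimpleGraph.dist_le p'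
          rw [SimpleGraph.Walk.length_cons, SimpleGraph.dist_comm] at hp
          omega
        · rw [Finset.mem_insert]
          exact Or.inr (hA u w h.symm)

/-- the neighbour in the level before -/
def pre (T : Tower) : Pt T.X → Finset (Pt T.X)
  | ⟨0, _⟩ => ∅
  | ⟨i + 1, v⟩ => {⟨i, T.π i v⟩}

theorem card_pre (T : Tower) (p : Pt T.X) : (pre T p).card ≤ 1 := by
  rcases p with ⟨i, v⟩
  cases i with
  | zero => exact Nat.zero_le _
  | succ i => exact le_of_eq (Finset.card_singleton _)

/-- the neighbours of a vertex of the telescope -/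
def nb (T : Tower) (p : Pt T.X) : Finset (Pt T.X) :=
  ((Finset.univ.filter fun w => (T.X.G p.1).Adj p.2 w).image (fun w => (⟨p.1, w⟩ : Pt T.X))) ∪
    ((Finset.univ.filter fun w => T.π p.1 w = p.2).image (fun w => (⟨p.1 + 1, w⟩ : Pt T.X))) ∪
    pre T p

theorem card_nb (T : Tower) (p : Pt T.X) : (nb T p).card ≤ T.X.D + T.K + 1 := by
  refine (Finset.card_union_le _ _).trans (add_le_add ?_ (card_pre T p))
  refine (Finset.card_union_le _ _).trans (add_le_add ?_ ?_)
  · refine Finset.card_image_le.trans ?_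
    have h1 := T.X.deg p.1 p.2
    have h2 : {w | (T.X.G p.1).Adj p.2 w}.ncard =
        (Finset.univ.filter fun w => (T.X.G p.1).Adj p.2 w).card := by
      rw [← Set.ncard_coe_finset]
      congr 1
      ext w
      simp
    omega
  · refine Finset.card_image_le.trans ?_
    have h1 := T.fibre p.1 p.2
    have h3 := T.d_le p.1
    have h2 : {w | T.π p.1 w = p.2}.ncard = (Finset.univ.filter fun w => T.π p.1 w = p.2).card := by
      rw [← Set.ncard_coe_finset]
      congr 1
      ext w
      simp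
    omega

theorem mem_nb (T : Tower) (p q : Pt T.X) (h : (tele T).Adj p q) : q ∈ nb T p := by
  unfold tele at h
  rw [SimpleGraph.fromRel_adj] at h
  unfold nb
  rw [Finset.mem_union, Finset.mem_union, Finset.mem_image, Finset.mem_image]
  rcases h with ⟨_, (⟨i, v, w, hvw, rfl, rfl⟩ | ⟨i, v, rfl, rfl⟩) | (⟨i, v, w, hvw, rfl, rfl⟩ | ⟨i, v, rfl, rfl⟩)⟩
  · exact Or.inl (Or.inl ⟨w, Finset.mem_filter.2 ⟨Finset.mem_univ _, hvw⟩, rfl⟩)
  · exact Or.inr (Finset.mem_singleton_self _)
  · exact Or.inl (Or.inl ⟨v, Finset.mem_filter.2 ⟨Finset.mem_univ _, hvw.symm⟩, rfl⟩)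
  · exact Or.inl (Or.inr ⟨v, Finset.mem_filter.2 ⟨Finset.mem_univ _, rfl⟩, rfl⟩)

end ITGeo

open ITGeo in
/-- item TGeo -/
theorem pr_TGeo (h1 : St_TMet) : St_TGeo := by
  intro T R
  refine ⟨(T.X.D + T.K + 1 + 1) ^ R * (2 * R + 1), ?_⟩
  rintro ⟨p, m⟩
  obtain ⟨F, hFc, hF⟩ := ball (tele T) (h1 T).1 (T.X.D + T.K + 1) (nb T) (card_nb T) (mem_nb T) p R
  have hsub : {w : Z T.X | dT T (p, m) w ≤ R} ⊆
      ((F ×ˢ Finset.Icc (m - R) (m + R) : Finset (Z T.X)) : Set (Z T.X)) := by
    rintro ⟨q, m'⟩ hw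
    have hw' : (tele T).dist p q + ((m - m') + (m' - m)) ≤ R := hw
    rw [Finset.mem_coe, Finset.mem_product, Finset.mem_Icc]
    exact ⟨hF q (by omega), by show m - R ≤ m'; omega, by show m' ≤ m + R; omega⟩
  refine ⟨(Finset.finite_toSet _).subset hsub, ?_⟩
  refine (Set.ncard_le_ncard hsub (Finset.finite_toSet _)).trans ?_
  rw [Set.ncard_coe_finset, Finset.card_product]
  refine Nat.mul_le_mul hFc ?_
  rw [Nat.card_Icc]
  omega

end

end Pool.Agent.Work.MP_1ddc88_an.TL
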