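import Pool.Agent.Work.MP_1ddc88_an.TL.Stmts
import Pool.Agent.Work.MP_1ddc88_an.I_AlgK

/-!
# MP_1ddc88_an, block TL, item TAK: compact operators are ghosts
-/

set_option autoImplicit false

open Filter Topology
open scoped ENNReal Classical

namespace Pool.Agent.Work.MP_1ddc88_an.TL

noncomputable section

open Pool.Agent.Work.MP_1ddc88_an.IAlgK in
/-- Item [TAK] -/
theorem pr_TAK : St_TAK := by
  intro T S hS
  have hS' : IsCompactOperator S := hS
  refine ⟨?_, ?_⟩
  · refine Metric.mem_closure_iff.2 fun ε hε => ?_
    obtain ⟨F, F', hF⟩ := corner S hS' (ε / 2) (by positivity)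
    refine ⟨proj (F : Set (Ix T.X)) * S * proj (F' : Set (Ix T.X)), ⟨?_, ?_⟩, ?_⟩
    · -- finite propagation
      refine ⟨(F ×ˢ F').sup fun x => dT T x.1.1 x.2.1, ?_⟩
      intro ξ p hp
      have hpF : p ∈ F := by
        by_contra h
        apply hp
        show proj (F : Set (Ix T.X)) (S (proj (F' : Set (Ix T.X)) ξ)) p = 0
        rw [proj_apply, if_neg (fun h' => h (Finset.mem_coe.1 h'))]
      have hq : ∃ q ∈ F', ξ q ≠ 0 := by
        by_contra h
        apply hp
        have h0 : proj (F' : Set (Ix T.X)) ξ = 0 := by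
          ext q
          rw [proj_apply]
          split_ifs with h1
          · by_contra h2
            exact h ⟨q, Finset.mem_coe.1 h1, h2⟩
          · rfl
        show proj (F : Set (Ix T.X)) (S (proj (F' : Set (Ix T.X)) ξ)) p = 0
        rw [h0, map_zero, map_zero]
        rfl
      obtain ⟨q, hqF, hq0⟩ := hq
      refine ⟨q, hq0, ?_⟩
      exact Finset.le_sup (f := fun x : Ix T.X × Ix T.X => dT T x.1.1 x.2.1)
        (Finset.mk_mem_product hpF hqF)
    · -- local compactness
      have hc : IsCompactOperator
          (proj (F : Set (Ix T.X)) * S * proj (F' : Set (Ix T.X)) : Op T.X) :=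
        (hS'.comp_clm (proj (F' : Set (Ix T.X)))).clm_comp (proj (F : Set (Ix T.X)))
      intro z
      exact ⟨hc.comp_clm (proj (cell T.X z)), hc.clm_comp (proj (cell T.X z))⟩
    · rw [dist_eq_norm]
      linarith
  · intro ε hε
    obtain ⟨F, F', hF⟩ := corner S hS' ε hε
    refine ⟨F.image Prod.fst ∪ F'.image Prod.fst, ?_⟩
    intro z w hzw
    have h0 : proj (cell T.X z) * (proj (F : Set (Ix T.X)) * S * proj (F' : Set (Ix T.X))) *
        proj (cell T.X w) = 0 := by
      rcases hzw with hz | hw
      · have e1 : cell T.X z ∩ (F : Set (Ix T.X)) = ∅ := by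
          ext p
          simp only [Set.mem_inter_iff, Set.mem_empty_iff_false, iff_false, not_and]
          intro h1 h2
          apply hz
          rw [Finset.mem_union]
          left
          rw [Finset.mem_image]
          exact ⟨p, Finset.mem_coe.1 h2, h1⟩
        have e2 : proj (cell T.X z) * proj (F : Set (Ix T.X)) = 0 := by
          rw [proj_mul, e1, proj_empty]
        rw [← mul_assoc, ← mul_assoc, e2, zero_mul, zero_mul, zero_mul]
      · have e1 : (F' : Set (Ix T.X)) ∩ cell T.X w = ∅ := by
          ext p
          simp only [Set.mem_inter_iff, Set.mem_empty_iff_false, iff_false, not_and]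
          intro h1 h2
          apply hw
          rw [Finset.mem_union]
          right
          rw [Finset.mem_image]
          exact ⟨p, Finset.mem_coe.1 h1, h2⟩
        have e2 : proj (F' : Set (Ix T.X)) * proj (cell T.X w) = 0 := by
          rw [proj_mul, e1, proj_empty]
        rw [mul_assoc, mul_assoc, e2, mul_zero, mul_zero]
    have h1 : proj (cell T.X z) ∘L S ∘L proj (cell T.X w) =
        proj (cell T.X z) * (S - proj (F : Set (Ix T.X)) * S * proj (F' : Set (Ix T.X))) *
          proj (cell T.X w) := by
      rw [mul_sub, sub_mul, h0, sub_zero]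
      rfl
    rw [h1]
    refine (norm_mul_le _ _).trans ?_
    have h2 := norm_mul_le (proj (cell T.X z))
      (S - proj (F : Set (Ix T.X)) * S * proj (F' : Set (Ix T.X)))
    have h3 := proj_norm_le (cell T.X z)
    have h4 := proj_norm_le (cell T.X w)
    have h5 := norm_nonneg (proj (cell T.X z))
    have h6 := norm_nonneg (proj (cell T.X w))
    have h7 := norm_nonneg (S - proj (F : Set (Ix T.X)) * S * proj (F' : Set (Ix T.X)))
    have h8 := norm_nonneg (proj (cell T.X z) * (S - proj (F : Set (Ix T.X)) * S *
      proj (F' : Set (Ix T.X))))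
    calc _ ≤ ‖proj (cell T.X z) *
            (S - proj (F : Set (Ix T.X)) * S * proj (F' : Set (Ix T.X)))‖ * 1 :=
          mul_le_mul_of_nonneg_left h4 h8
      _ ≤ 1 * ‖S - proj (F : Set (Ix T.X)) * S * proj (F' : Set (Ix T.X))‖ := by
          rw [mul_one]
          exact h2.trans (mul_le_mul_of_nonneg_right h3 h7)
      _ ≤ ε := by rw [one_mul]; exact hF

end

end Pool.Agent.Work.MP_1ddc88_an.TL
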