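import Pool.Agent.Work.MP_1ddc88_an.TL.Stmts

/-!
# MP_1ddc88_an, block TL, item TAR (helper96): the Roe algebra of the telescope is an algebra
-/

set_option autoImplicit false

open Filter Topology
open scoped ENNReal Classical

namespace Pool.Agent.Work.MP_1ddc88_an.TL

noncomputable section

namespace ITAR

theorem add_locComp (X : Expander) (S T : Op X) (hS : LocComp X S) (hT : LocComp X T) :
    LocComp X (S + T) := by
  intro z
  obtain ⟨h1, h2⟩ := hS z
  obtain ⟨h3, h4⟩ := hT z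
  constructor
  · rw [ContinuousLinearMap.add_comp]
    exact h1.add h3
  · rw [ContinuousLinearMap.comp_add]
    exact h2.add h4

theorem smul_locComp (X : Expander) (c : ℂ) (S : Op X) (hS : LocComp X S) :
    LocComp X (c • S) := by
  intro z
  obtain ⟨h1, h2⟩ := hS z
  constructor
  · rw [ContinuousLinearMap.smul_comp]
    exact h1.smul c
  · rw [ContinuousLinearMap.comp_smul]
    exact h2.smul c

end ITAR

open ITAR

theorem pr_TAR (h1 : St_TFPC) (h2 : St_TLC) : St_TAR := by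
  intro T S S' hS hS'
  refine ⟨?_, ?_, ?_⟩
  · refine map_mem_closure₂ continuous_add hS hS' ?_
    rintro A ⟨⟨R, hA⟩, hA'⟩ B ⟨⟨R', hB⟩, hB'⟩
    exact ⟨⟨_, (h1 T R R' A B hA hB).2.1⟩, add_locComp T.X A B hA' hB'⟩
  · refine map_mem_closure₂ continuous_mul hS hS' ?_
    rintro A ⟨⟨R, hA⟩, hA'⟩ B ⟨⟨R', hB⟩, hB'⟩
    exact ⟨⟨_, (h1 T R R' A B hA hB).1⟩, h2 T R A B hA hB'⟩
  · intro c
    refine map_mem_closure (continuous_const_smul c) hS ?_
    rintro A ⟨⟨R, hA⟩, hA'⟩
    exact ⟨⟨R, (h1 T R R A A hA hA).2.2.2 c⟩, smul_locComp T.X c A hA'⟩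

end

end Pool.Agent.Work.MP_1ddc88_an.TL
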