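import Pool.Agent.Work.MP_1ddc88_an.TL.Stmts

/-!
# MP_1ddc88_an, block TL, item TComm: the commutator of two matrices is homotopic to one
-/

set_option autoImplicit false

open Filter Topology
open scoped ENNReal Classical

namespace Pool.Agent.Work.MP_1ddc88_an.TL

namespace ITComm

/-- the entries of a block matrix -/
lemma blk_mem {T : Tower} (P : Op T.X → Prop) (x y : Mat T.X 2) (hx : ∀ a b, P (x a b))
    (hy : ∀ a b, P (y a b)) (h0 : P 0) : ∀ a b, P (blk x y a b) := by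
  intro a b
  unfold blk
  rw [Matrix.reindex_apply, Matrix.submatrix_apply]
  generalize (finSumFinEquiv (m := 2) (n := 2)).symm a = i
  generalize (finSumFinEquiv (m := 2) (n := 2)).symm b = j
  rcases i with i | i <;> rcases j with j | j
  · exact hx i j
  · exact h0
  · exact h0
  · exact hy i j

lemma blk_sub {T : Tower} (A B C D : Mat T.X 2) :
    blk A B - blk C D = blk (A - C) (B - D) := by
  ext1 a b
  rw [Matrix.sub_apply]
  unfold blk
  rw [Matrix.reindex_apply, Matrix.reindex_apply, Matrix.reindex_apply, Matrix.submatrix_apply,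
    Matrix.submatrix_apply, Matrix.submatrix_apply]
  generalize (finSumFinEquiv (m := 2) (n := 2)).symm a = i
  generalize (finSumFinEquiv (m := 2) (n := 2)).symm b = j
  rcases i with i | i <;> rcases j with j | j
  · rfl
  · exact sub_zero _
  · exact sub_zero _
  · rfl

/-- the entries of the rotations -/
lemma rot_mem (T : Tower) (P : Op T.X → Prop) (h1 : ∀ c : ℂ, P (c • (1 : Op T.X)))
    (h0 : P 0) (t : ℝ) : ∀ a b, P (rot T t a b) := by
  have hone : ∀ (c : ℂ) (i j : Fin 2), P ((c • (1 : Mat T.X 2)) i j) := by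
    intro c i j
    rw [Matrix.smul_apply, Matrix.one_apply]
    split_ifs
    · exact h1 c
    · rw [smul_zero]; exact h0
  intro a b
  unfold rot
  rw [Matrix.reindex_apply, Matrix.submatrix_apply]
  generalize (finSumFinEquiv (m := 2) (n := 2)).symm a = i
  generalize (finSumFinEquiv (m := 2) (n := 2)).symm b = j
  rcases i with i | i <;> rcases j with j | j
  · exact hone _ i j
  · rw [Matrix.fromBlocks_apply₁₂, ← neg_smul]
    exact hone _ i j
  · exact hone _ i j
  · exact hone _ i j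

end ITComm

open ITComm in
/-- item TComm -/
theorem pr_TComm (h1 : St_TAG) (h2 : St_THom) (h3 : St_TPert) (h4 : St_TInvM)
    (h5 : St_TRot) : St_TComm := by
  intro T g g' h h' hg hg' hh hh' hgg hgg' hhh hhh'
  have hA := h1 T _ _ _ _ (hg 0 0) (hg 0 0) (hgg 0 0) (hgg 0 0)
  have hR1 : (1 : Op T.X) ∈ RoePlus T := hA.1.2.2.2.1
  have hR0 : (0 : Op T.X) ∈ RoePlus T := hA.1.2.2.2.2.1
  have hG0 : (0 : Op T.X) ∈ Ghost T := hA.2.2.2.2.2
  have hRc : ∀ c : ℂ, c • (1 : Op T.X) ∈ RoePlus T :=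
    (h1 T _ _ _ _ hR1 hR1 (hgg 0 0) (hgg 0 0)).1.2.2.1
  have hM1 : ∀ (n : ℕ) (a b : Fin n), (1 : Mat T.X n) a b ∈ RoePlus T := by
    intro n a b
    rw [Matrix.one_apply]
    split_ifs
    · exact hR1
    · exact hR0
  have hM0 : ∀ (n : ℕ) (x y : Mat T.X n), x = y → ∀ a b, (x - y) a b ∈ Ghost T := by
    intro n x y hxy a b
    rw [hxy, sub_self]
    exact hG0
  obtain ⟨r1, r2, r3, r4, r5, r6, _⟩ := h5 T
  have hblk : ∀ x x' : Mat T.X 2, (∀ a b, x a b ∈ RoePlus T) → (∀ a b, x' a b ∈ RoePlus T) →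
      (∀ a b, (x * x' - 1) a b ∈ Ghost T) → (∀ a b, (x' * x - 1) a b ∈ Ghost T) →
      InvMod T (Ghost T) (blk x 1) := by
    intro x x' hx hx' hxx hxx'
    refine ⟨blk_mem (fun S => S ∈ RoePlus T) x 1 hx (hM1 2) hR0, blk x' 1,
      blk_mem (fun S => S ∈ RoePlus T) x' 1 hx' (hM1 2) hR0, ?_, ?_⟩
    · rw [r1, ← r2, blk_sub, mul_one]
      exact blk_mem (fun S => S ∈ Ghost T) _ _ hxx (hM0 2 _ _ rfl) hG0
    · rw [r1, ← r2, blk_sub, mul_one]
      exact blk_mem (fun S => S ∈ Ghost T) _ _ hxx' (hM0 2 _ _ rfl) hG0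
  have hrot : ∀ t : ℝ, InvMod T (Ghost T) (rot T t) := by
    intro t
    refine ⟨rot_mem T (fun S => S ∈ RoePlus T) hRc hR0 t, rot T (-t),
      rot_mem T (fun S => S ∈ RoePlus T) hRc hR0 (-t), hM0 4 _ _ (r3 t), hM0 4 _ _ ?_⟩
    have h6 := r3 (-t)
    rwa [neg_neg] at h6
  have hg1 := hblk g g' hg hg' hgg hgg'
  have hg1' := hblk g' g hg' hg hgg' hgg
  have hh1 := hblk h h' hh hh' hhh hhh'
  have hh1' := hblk h' h hh' hh hhh' hhh
  let F : ℝ → Mat T.X 4 := fun t => blk g 1 * rot T t * blk h 1 * rot T (-t) * blk g' 1 *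
    rot T t * blk h' 1 * rot T (-t)
  have hFinv : ∀ t, InvMod T (Ghost T) (F t) := fun t =>
    h4 T 4 _ _ (h4 T 4 _ _ (h4 T 4 _ _ (h4 T 4 _ _ (h4 T 4 _ _ (h4 T 4 _ _ (h4 T 4 _ _ hg1
      (hrot t)) hh1) (hrot (-t))) hg1') (hrot t)) hh1') (hrot (-t))
  have hFc : Continuous F := by
    have hr' : Continuous fun t : ℝ => rot T (-t) := r6.comp continuous_neg
    exact ((((((continuous_const.mul r6).mul continuous_const).mul hr').mul
      continuous_const).mul r6).mul continuous_const).mul hr'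
  have hF0 : F 0 = blk (g * h * g' * h') 1 := by
    change blk g 1 * rot T 0 * blk h 1 * rot T (-0) * blk g' 1 * rot T 0 * blk h' 1 *
      rot T (-0) = _
    rw [neg_zero, r4, mul_one, mul_one, mul_one, mul_one, r1, r1, r1, mul_one, mul_one, mul_one]
  have hF1 : F (Real.pi / 2) = blk (g * g') (h * h') := by
    have e1 : F (Real.pi / 2) = blk g 1 * (rot T (Real.pi / 2) * blk h 1 *
        rot T (-(Real.pi / 2))) * blk g' 1 * (rot T (Real.pi / 2) * blk h' 1 *
        rot T (-(Real.pi / 2))) := by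
      simp only [F, mul_assoc]
    rw [e1, r5, r5, r1, r1, r1, mul_one, mul_one, one_mul, mul_one]
  have hH1 : Homot T (Ghost T) (blk (g * h * g' * h') 1) (blk (g * g') (h * h')) := by
    refine ⟨fun s => F (Real.pi / 2 * s), (hFc.comp (continuous_const.mul
      continuous_id)).continuousOn, ?_, ?_, fun s _ => hFinv _⟩
    · simp only [mul_zero, hF0]
    · simp only [mul_one, hF1]
  have hone : InvMod T (Ghost T) (1 : Mat T.X 4) :=
    ⟨hM1 4, 1, hM1 4, hM0 4 _ _ (mul_one 1), hM0 4 _ _ (mul_one 1)⟩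
  have hH2 : Homot T (Ghost T) 1 (blk (g * g') (h * h')) := by
    refine h3 T 4 _ _ hone ?_
    rw [← r2, blk_sub]
    exact blk_mem (fun S => S ∈ Ghost T) _ _ hgg hhh hG0
  exact (h2 T (Ghost T) 4 _ _ _).2.2 hH1 ((h2 T (Ghost T) 4 _ _ 1).2.1 hH2)

end Pool.Agent.Work.MP_1ddc88_an.TL
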