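import Pool.Agent.Work.MP_1ddc88_an.TL.Stmts

/-!
# MP_1ddc88_an, block TL, item TFA: the Markov operator has propagation at most one
-/

set_option autoImplicit false

open Filter Topology
open scoped ENNReal Classical

namespace Pool.Agent.Work.MP_1ddc88_an.TL

noncomputable section

theorem ITFA.dist_le (T : Tower) (i : ℕ) (v w : Fin (T.X.N i)) (h : (T.X.G i).Adj v w) :
    (tele T).dist (⟨i, v⟩ : Pt T.X) ⟨i, w⟩ = 1 := by
  rw [SimpleGraph.dist_eq_one_iff_adj, tele, SimpleGraph.fromRel_adj]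
  refine ⟨?_, Or.inl (Or.inl ⟨i, v, w, h, rfl, rfl⟩)⟩
  intro h1
  apply h.ne
  exact eq_of_heq (Sigma.mk.inj_iff.1 h1).2

theorem pr_TFA (h1 : St_AF) : St_TFA := by
  intro T ξ p hp
  obtain ⟨⟨⟨i, v⟩, m⟩, k⟩ := p
  rw [(h1 T.X).2 ξ i v m k] at hp
  by_cases hk : k = 0
  · subst hk
    rw [if_pos rfl] at hp
    by_cases hξ : ξ ((⟨i, v⟩, m), 0) = 0
    · have h2 : (∑ w, if (T.X.G i).Adj v w then
          ξ ((⟨i, v⟩, m), 0) - ξ ((⟨i, w⟩, m), 0) else 0) ≠ 0 := by
        intro h3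
        apply hp
        rw [h3, hξ, mul_zero, sub_zero]
      obtain ⟨w, -, hw⟩ := Finset.exists_ne_zero_of_sum_ne_zero h2
      have h3 : (T.X.G i).Adj v w := by
        by_contra h4
        exact hw (if_neg h4)
      rw [if_pos h3, hξ, zero_sub] at hw
      refine ⟨((⟨i, w⟩, m), 0), fun h4 => hw (by rw [h4, neg_zero]), ?_⟩
      rw [dT, ITFA.dist_le T i v w h3]
      simp
    · exact ⟨((⟨i, v⟩, m), 0), hξ, by rw [dT, SimpleGraph.dist_self]; simp⟩
  · rw [if_neg hk] at hp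
    exact absurd rfl hp

end

end Pool.Agent.Work.MP_1ddc88_an.TL
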