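import Pool.Agent.Work.MP_1ddc88_an.TL.Stmts

/-!
# MP_1ddc88_an, block TL, item TFS: propagation of shifts and projections
-/

set_option autoImplicit false

open Filter Topology
open scoped ENNReal Classical

namespace Pool.Agent.Work.MP_1ddc88_an.TL

/-- item TFS -/
theorem pr_TFS (h1 : St_TMet) (h2 : St_ShF) : St_TFS := by
  intro T
  have h0 : ∀ x : Z T.X, dT T x x = 0 := fun x => ((h1 T).2 x x x).1
  refine ⟨?_, ?_, ?_⟩
  · rintro a C ha ξ ⟨⟨x, m⟩, k⟩ hne
    rw [(h2 T.X a).2] at hne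
    by_cases hm : 0 ≤ (m : ℤ) - a x.1
    · rw [if_pos hm] at hne
      refine ⟨_, hne, ?_⟩
      change (tele T).dist x x + ((m - ((m : ℤ) - a x.1).toNat) +
        (((m : ℤ) - a x.1).toNat - m)) ≤ C
      rw [SimpleGraph.dist_self]
      have h3 := abs_le.mp (ha x.1)
      omega
    · rw [if_neg hm] at hne
      exact absurd rfl hne
  · intro ξ p hne
    exact ⟨p, hne, (h0 p.1).le⟩
  · intro S ξ p hne
    rw [proj_apply] at hne
    refine ⟨p, fun h => hne ?_, (h0 p.1).le⟩
    rw [h]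
    exact ite_self _

end Pool.Agent.Work.MP_1ddc88_an.TL
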