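import Pool.Agent.Work.MP_1ddc88_an.TL.Stmts

/-!
# MP_1ddc88_an, block TL, item THom (helper96)
-/

set_option autoImplicit false

open Filter Topology
open scoped ENNReal Classical

namespace Pool.Agent.Work.MP_1ddc88_an.TL

noncomputable section

theorem pr_THom : St_THom := by
  intro T I n x y z
  refine ⟨?_, ?_, ?_⟩
  · intro h
    exact ⟨fun _ => x, continuousOn_const, rfl, rfl, fun _ _ => h⟩
  · rintro ⟨f, hf, h0, h1, hI⟩
    refine ⟨fun t => f (1 - t), ?_, ?_, ?_, ?_⟩
    · refine hf.comp (continuous_const.sub continuous_id).continuousOn ?_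
      intro t ht
      exact ⟨by linarith [ht.2], by linarith [ht.1]⟩
    · show f (1 - 0) = y
      rw [sub_zero, h1]
    · show f (1 - 1) = x
      rw [sub_self, h0]
    · intro t ht
      exact hI (1 - t) ⟨by linarith [ht.2], by linarith [ht.1]⟩
  · rintro ⟨f, hf, h0, h1, hI⟩ ⟨g, hg, k0, k1, kI⟩
    have m1 : Set.MapsTo (fun t : ℝ => min 1 (2 * t)) (Set.Icc 0 1) (Set.Icc 0 1) := by
      intro t ht
      exact ⟨le_min zero_le_one (by linarith [ht.1]), min_le_left _ _⟩
    have m2 : Set.MapsTo (fun t : ℝ => max 0 (2 * t - 1)) (Set.Icc 0 1) (Set.Icc 0 1) := by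
      intro t ht
      exact ⟨le_max_left _ _, max_le zero_le_one (by linarith [ht.2])⟩
    have c1 : Continuous (fun t : ℝ => min 1 (2 * t)) := by fun_prop
    have c2 : Continuous (fun t : ℝ => max 0 (2 * t - 1)) := by fun_prop
    have e1 : ∀ t : ℝ, t ≤ 1 / 2 → f (min 1 (2 * t)) + g (max 0 (2 * t - 1)) - y = f (2 * t) := by
      intro t ht
      rw [min_eq_right (by linarith), max_eq_left (by linarith), k0, add_sub_cancel_right]
    have e2 : ∀ t : ℝ, 1 / 2 ≤ t →
        f (min 1 (2 * t)) + g (max 0 (2 * t - 1)) - y = g (2 * t - 1) := by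
      intro t ht
      rw [min_eq_left (by linarith), max_eq_right (by linarith), h1, add_sub_cancel_left]
    refine ⟨fun t => f (min 1 (2 * t)) + g (max 0 (2 * t - 1)) - y, ?_, ?_, ?_, ?_⟩
    · exact ((hf.comp c1.continuousOn m1).add (hg.comp c2.continuousOn m2)).sub continuousOn_const
    · show f (min 1 (2 * 0)) + g (max 0 (2 * 0 - 1)) - y = x
      rw [e1 0 (by norm_num), mul_zero, h0]
    · show f (min 1 (2 * 1)) + g (max 0 (2 * 1 - 1)) - y = z
      rw [e2 1 (by norm_num), show (2 * 1 - 1 : ℝ) = 1 by norm_num, k1]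
    · intro t ht
      rcases le_total t (1 / 2) with h | h
      · show InvMod T I (f (min 1 (2 * t)) + g (max 0 (2 * t - 1)) - y)
        rw [e1 t h]
        exact hI _ ⟨by linarith [ht.1], by linarith⟩
      · show InvMod T I (f (min 1 (2 * t)) + g (max 0 (2 * t - 1)) - y)
        rw [e2 t h]
        exact kI _ ⟨by linarith, by linarith [ht.2]⟩

end

end Pool.Agent.Work.MP_1ddc88_an.TL
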