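import Pool.Agent.Work.MP_1ddc88_an.TL.Stmts

/-!
# MP_1ddc88_an, block TL, item TIndex (helper96)
-/

set_option autoImplicit false

open Filter Topology
open scoped ENNReal Classical

namespace Pool.Agent.Work.MP_1ddc88_an.TL

noncomputable section

namespace ITIndex

variable {X : Expander}

theorem stab_mul (n : ℕ) (x y : Op X) : stab X n x * stab X n y = stab X n (x * y) := by
  unfold stab
  rw [Matrix.diagonal_mul_diagonal]
  congr 1
  funext i
  by_cases hi : i = 0
  · simp only [hi, if_true]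
  · simp only [hi, if_false, mul_one]

theorem stab_one (n : ℕ) : stab X n (1 : Op X) = 1 := by
  unfold stab
  rw [← Matrix.diagonal_one]
  congr 1
  funext i
  by_cases hi : i = 0
  · simp only [hi, if_true]
  · simp only [hi, if_false]

theorem stab_00 (n : ℕ) (x : Op X) : stab X n x 0 0 = x := by
  unfold stab
  rw [Matrix.diagonal_apply_eq, if_pos rfl]

theorem stab_mem (n : ℕ) (x : Op X) (S : Set (Op X)) (hx : x ∈ S) (h1 : (1 : Op X) ∈ S)
    (h0 : (0 : Op X) ∈ S) : ∀ a b, stab X n x a b ∈ S := by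
  intro a b
  unfold stab
  rw [Matrix.diagonal_apply]
  by_cases hab : a = b
  · rw [if_pos hab]
    by_cases ha : a = 0
    · rw [if_pos ha]
      exact hx
    · rw [if_neg ha]
      exact h1
  · rw [if_neg hab]
    exact h0

theorem stab_sub (n : ℕ) (x : Op X) (hx : IsCompactOperator ((x - 1 : Op X))) :
    ∀ a b, IsCompactOperator ((stab X n x - 1) a b) := by
  intro a b
  rw [Matrix.sub_apply]
  unfold stab
  rw [Matrix.diagonal_apply, Matrix.one_apply]
  by_cases hab : a = b
  · rw [if_pos hab, if_pos hab]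
    by_cases ha : a = 0
    · rw [if_pos ha]
      exact hx
    · rw [if_neg ha, sub_self]
      exact isCompactOperator_zero
  · rw [if_neg hab, if_neg hab, sub_self]
    exact isCompactOperator_zero

/-- the relations of `v`, for both signs -/
theorem vrel (h5 : St_TV) (T : Tower) (k : ℤ) (hk : k ≠ 0) :
    IsCompactOperator ((v T k * v T (-k) - 1 : Op T.X)) ∧
      ((v T (-k) * v T k = 1 ∧ v T k * v T (-k) ≠ 1) ∨
        (v T k * v T (-k) = 1 ∧ v T (-k) * v T k ≠ 1)) := by
  rcases lt_or_gt_of_ne hk with h | h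
  · obtain ⟨h6, h7, h8⟩ := h5 T (-k) (by omega)
    rw [neg_neg] at h6 h7 h8
    refine ⟨?_, Or.inr ⟨h6, h7⟩⟩
    rw [h6, sub_self]
    exact isCompactOperator_zero
  · obtain ⟨h6, h7, h8⟩ := h5 T k h
    exact ⟨h8, Or.inl ⟨h6, h7⟩⟩

end ITIndex

open ITIndex

theorem pr_TIndex (h1 : St_TUG) (h2 : St_TAG) (h3 : St_THom) (h4 : St_TPath) (h5 : St_TV)
    (h6 : St_PUo) : St_TIndex := by
  intro T n k hk
  have hv : ∀ j : ℤ, v T j ∈ RoePlus T ∧
      ∃ G, G ∈ Ghost T := by
    intro j
    have hb : ∀ i : ℕ, |(fun i : ℕ => if i = 0 then j else 0) i| ≤ ((j.natAbs : ℕ) : ℤ) := by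
      intro i
      by_cases hi : i = 0
      · simp only [hi, if_true]
        exact (Int.abs_eq_natAbs j).le
      · simp only [hi, if_false, abs_zero]
        exact Int.natCast_nonneg _
    have h7 := h1 T (fun i : ℕ => if i = 0 then j else 0) (fun i : ℕ => if i = 0 then j else 0)
      j.natAbs hb hb
    exact ⟨h7.1, _, h7.2⟩
  obtain ⟨_, G, hG⟩ := hv k
  have h7 := h2 T (v T k) (v T k) G G (hv k).1 (hv k).1 hG hG
  have hone : (1 : Op T.X) ∈ RoePlus T := h7.1.2.2.2.1
  have hzero : (0 : Op T.X) ∈ RoePlus T := h7.1.2.2.2.2.1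
  obtain ⟨hc1, hrel⟩ := vrel h5 T k hk
  obtain ⟨hc2, _⟩ := vrel h5 T (-k) (neg_ne_zero.2 hk)
  rw [neg_neg] at hc2
  refine ⟨⟨stab_mem n _ _ (hv k).1 hone hzero, stab T.X n (v T (-k)),
    stab_mem n _ _ (hv (-k)).1 hone hzero, ?_, ?_⟩, ?_⟩
  · rw [stab_mul]
    exact stab_sub n _ hc1
  · rw [stab_mul]
    exact stab_sub n _ hc2
  · intro hH
    have h8 : Homot T (Cpt T.X) 1 (stab T.X n (v T k)) :=
      (h3 T (Cpt T.X) (n + 1) (stab T.X n (v T k)) 1 1).2.1 hH
    have h9 : PU T.X (1 : Mat T.X (n + 1)) := by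
      refine ⟨1, isUnit_one, fun a b => ?_⟩
      rw [sub_self]
      exact isCompactOperator_zero
    have h10 : PU T.X (stab T.X n (v T k)) := h4 T (n + 1) 1 _ h8 h9
    have h11 := h6 T.X (n + 1) (stab T.X n (v T k)) (stab T.X n (v T (-k))) h10
    rw [stab_mul, stab_mul] at h11
    rcases hrel with ⟨h12, h13⟩ | ⟨h12, h13⟩
    · have h14 := h11.1 (by rw [h12, stab_one])
      apply h13
      have h15 := congrFun (congrFun h14 0) 0
      rw [stab_00, Matrix.one_apply_eq] at h15
      exact h15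
    · have h14 := h11.2 (by rw [h12, stab_one])
      apply h13
      have h15 := congrFun (congrFun h14 0) 0
      rw [stab_00, Matrix.one_apply_eq] at h15
      exact h15

end

end Pool.Agent.Work.MP_1ddc88_an.TL
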