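import Pool.Agent.Work.MP_1ddc88_an.TL.Stmts

/-!
# MP_1ddc88_an, block TL, item TInvM: products of matrices invertible modulo ghosts
-/

set_option autoImplicit false

open Filter Topology
open scoped ENNReal Classical

namespace Pool.Agent.Work.MP_1ddc88_an.TL

namespace ITInvM

variable {T : Tower} {S₀ G₀ : Op T.X}

theorem mulR (h1 : St_TAG) (hS₀ : S₀ ∈ RoePlus T) (hG₀ : G₀ ∈ Ghost T) {n : ℕ}
    {x y : Mat T.X n} (hx : ∀ a b, x a b ∈ RoePlus T) (hy : ∀ a b, y a b ∈ RoePlus T) :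
    ∀ a b, (x * y) a b ∈ RoePlus T := by
  intro a b
  rw [Matrix.mul_apply]
  apply Finset.sum_induction _ (fun S => S ∈ RoePlus T)
  · intro S S' hS hS'
    exact (h1 T S S' G₀ G₀ hS hS' hG₀ hG₀).1.1
  · exact (h1 T S₀ S₀ G₀ G₀ hS₀ hS₀ hG₀ hG₀).1.2.2.2.2.1
  · intro j _
    exact (h1 T _ _ G₀ G₀ (hx a j) (hy j b) hG₀ hG₀).1.2.1

theorem mulGR (h1 : St_TAG) (hS₀ : S₀ ∈ RoePlus T) (hG₀ : G₀ ∈ Ghost T) {n : ℕ}
    {x y : Mat T.X n} (hx : ∀ a b, x a b ∈ Ghost T) (hy : ∀ a b, y a b ∈ RoePlus T) :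
    ∀ a b, (x * y) a b ∈ Ghost T := by
  intro a b
  rw [Matrix.mul_apply]
  apply Finset.sum_induction _ (fun S => S ∈ Ghost T)
  · intro G G' hG hG'
    exact (h1 T S₀ S₀ G G' hS₀ hS₀ hG hG').2.1
  · exact (h1 T S₀ S₀ G₀ G₀ hS₀ hS₀ hG₀ hG₀).2.2.2.2.2
  · intro j _
    exact (h1 T _ _ _ _ (hy j b) (hy j b) (hx a j) (hx a j)).2.2.2.2.1

theorem mulRG (h1 : St_TAG) (hS₀ : S₀ ∈ RoePlus T) (hG₀ : G₀ ∈ Ghost T) {n : ℕ}
    {x y : Mat T.X n} (hx : ∀ a b, x a b ∈ RoePlus T) (hy : ∀ a b, y a b ∈ Ghost T) :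
    ∀ a b, (x * y) a b ∈ Ghost T := by
  intro a b
  rw [Matrix.mul_apply]
  apply Finset.sum_induction _ (fun S => S ∈ Ghost T)
  · intro G G' hG hG'
    exact (h1 T S₀ S₀ G G' hS₀ hS₀ hG hG').2.1
  · exact (h1 T S₀ S₀ G₀ G₀ hS₀ hS₀ hG₀ hG₀).2.2.2.2.2
  · intro j _
    exact (h1 T _ _ _ _ (hx a j) (hx a j) (hy j b) (hy j b)).2.2.2.1

theorem addG (h1 : St_TAG) (hS₀ : S₀ ∈ RoePlus T) {n : ℕ}
    {x y : Mat T.X n} (hx : ∀ a b, x a b ∈ Ghost T) (hy : ∀ a b, y a b ∈ Ghost T) :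
    ∀ a b, (x + y) a b ∈ Ghost T := by
  intro a b
  rw [Matrix.add_apply]
  exact (h1 T S₀ S₀ _ _ hS₀ hS₀ (hx a b) (hy a b)).2.1

theorem key {R : Type*} [Ring R] (x y g h : R) :
    x * y * (h * g) - 1 = x * (y * h - 1) * g + (x * g - 1) := by
  noncomm_ring

end ITInvM

theorem pr_TInvM (h1 : St_TAG) : St_TInvM := by
  intro T n x y hx hy
  obtain ⟨hxR, g, hgR, hg1, hg2⟩ := hx
  obtain ⟨hyR, h, hhR, hh1, hh2⟩ := hy
  refine ⟨fun a b => ITInvM.mulR h1 (hxR a b) (hg1 a b) hxR hyR a b, h * g,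
    fun a b => ITInvM.mulR h1 (hxR a b) (hg1 a b) hhR hgR a b, fun a b => ?_, fun a b => ?_⟩
  · rw [ITInvM.key x y g h]
    exact ITInvM.addG h1 (hxR a b)
      (ITInvM.mulGR h1 (hxR a b) (hg1 a b) (ITInvM.mulRG h1 (hxR a b) (hg1 a b) hxR hh1) hgR)
      hg1 a b
  · rw [ITInvM.key h g y x]
    exact ITInvM.addG h1 (hxR a b)
      (ITInvM.mulGR h1 (hxR a b) (hg1 a b) (ITInvM.mulRG h1 (hxR a b) (hg1 a b) hhR hg2) hyR)
      hh2 a b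

end Pool.Agent.Work.MP_1ddc88_an.TL
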