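import Pool.Agent.Work.MP_1ddc88_an.TL.Stmts

/-!
# MP_1ddc88_an, block TL, item TKill: the class of `v k` is killed
-/

set_option autoImplicit false

open Filter Topology
open scoped ENNReal Classical

namespace Pool.Agent.Work.MP_1ddc88_an.TL

namespace ITKill

/-- the entries of a block matrix -/
lemma blk_mem {T : Tower} (P : Op T.X → Prop) (x y : Mat T.X 2) (hx : ∀ a b, P (x a b))
    (hy : ∀ a b, P (y a b)) (h0 : P 0) : ∀ a b, P (blk x y a b) := by
  intro a b
  unfold blk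
  rw [Matrix.reindex_apply, Matrix.submatrix_apply]
  generalize (finSumFinEquiv (m := 2) (n := 2)).symm a = i
  generalize (finSumFinEquiv (m := 2) (n := 2)).symm b = j
  rcases i with i | i <;> rcases j with j | j
  · exact hx i j
  · exact h0
  · exact h0
  · exact hy i j

lemma blk_sub {T : Tower} (A B C D : Mat T.X 2) :
    blk A B - blk C D = blk (A - C) (B - D) := by
  ext1 a b
  rw [Matrix.sub_apply]
  unfold blk
  rw [Matrix.reindex_apply, Matrix.reindex_apply, Matrix.reindex_apply, Matrix.submatrix_apply,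
    Matrix.submatrix_apply, Matrix.submatrix_apply]
  generalize (finSumFinEquiv (m := 2) (n := 2)).symm a = i
  generalize (finSumFinEquiv (m := 2) (n := 2)).symm b = j
  rcases i with i | i <;> rcases j with j | j
  · rfl
  · exact sub_zero _
  · exact sub_zero _
  · rfl

/-- products of stabilised operators -/
lemma stab_mul (X : Expander) (n : ℕ) (S S' : Op X) :
    stab X n S * stab X n S' = stab X n (S * S') := by
  unfold stab
  rw [Matrix.diagonal_mul_diagonal]
  congr 1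
  funext i
  split_ifs
  · rfl
  · exact mul_one _

lemma stab_one (X : Expander) (n : ℕ) : stab X n (1 : Op X) = 1 := by
  unfold stab
  rw [← Matrix.diagonal_one]
  congr 1
  funext i
  split_ifs <;> rfl

/-- entries of differences of stabilised operators -/
lemma stab_sub_mem (X : Expander) (n : ℕ) (P : Op X → Prop) (S S' : Op X) (h : P (S - S'))
    (h0 : P 0) : ∀ a b, P ((stab X n S - stab X n S') a b) := by
  intro a b
  rw [Matrix.sub_apply]
  unfold stab
  rw [Matrix.diagonal_apply, Matrix.diagonal_apply]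
  split_ifs
  · exact h
  · rw [sub_self]; exact h0
  · rw [sub_self]; exact h0

/-- entries of stabilised operators -/
lemma stab_mem (X : Expander) (n : ℕ) (P : Op X → Prop) (S : Op X) (h : P S)
    (h1 : P 1) (h0 : P 0) : ∀ a b, P (stab X n S a b) := by
  intro a b
  unfold stab
  rw [Matrix.diagonal_apply]
  split_ifs
  · exact h
  · exact h1
  · exact h0

end ITKill

open ITKill in
/-- item TKill -/
theorem pr_TKill (h1 : St_ShP) (h2 : St_TAG) (h3 : St_TUG) (h4 : St_TWR) (h5 : St_THM)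
    (h6 : St_THom) (h7 : St_TPert) (h8 : St_TRot) (h9 : St_TComm) : St_TKill := by
  intro T k
  obtain ⟨hpp, -, hSh0, -⟩ := h1 T.X
  -- `u 0 = 1`
  have hu0 : u T.X (fun _ => 0) = 1 := by
    unfold u
    rw [hSh0]
    have h : (1 : Op T.X) ∘L Pav T.X = Pav T.X := one_mul _
    rw [h, sub_add_cancel]
  -- bounds
  have hk : ∀ i : ℕ, |(fun _ : ℕ => k) i| ≤ ((k.natAbs : ℕ) : ℤ) := fun _ => by
    rw [Int.natCast_natAbs]
  have hk' : ∀ i : ℕ, |(fun _ : ℕ => -k) i| ≤ ((k.natAbs : ℕ) : ℤ) := fun _ => by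
    rw [Int.natCast_natAbs, abs_neg]
  have hv : ∀ i : ℕ, |(fun i : ℕ => if i = 0 then k else 0) i| ≤ ((k.natAbs : ℕ) : ℤ) := by
    intro i
    rw [Int.natCast_natAbs]
    simp only
    split_ifs
    · exact le_rfl
    · rw [abs_zero]; exact abs_nonneg _
  have hv' : ∀ i : ℕ, |(fun i : ℕ => if i = 0 then -k else 0) i| ≤ ((k.natAbs : ℕ) : ℤ) := by
    intro i
    rw [Int.natCast_natAbs]
    simp only
    split_ifs
    · rw [abs_neg]
    · rw [abs_zero]; exact abs_nonneg _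
  have h1' : ∀ i : ℕ, |(fun i : ℕ => if i = 0 then 0 else -k) i| ≤ ((k.natAbs : ℕ) : ℤ) := by
    intro i
    rw [Int.natCast_natAbs]
    simp only
    split_ifs
    · rw [abs_zero]; exact abs_nonneg _
    · rw [abs_neg]
  -- members of `RoePlus` and `Ghost`
  obtain ⟨huk, hg1⟩ := h3 T (fun _ => k) (fun _ => -k) k.natAbs hk hk'
  obtain ⟨huk', hg2⟩ := h3 T (fun _ => -k) (fun _ => k) k.natAbs hk' hk
  obtain ⟨-, hg3⟩ := h3 T (fun _ => k) (fun i => if i = 0 then 0 else -k) k.natAbs hk h1'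
  obtain ⟨hvk, hg4⟩ := h3 T (fun i => if i = 0 then k else 0) (fun i => if i = 0 then -k else 0)
    k.natAbs hv hv'
  obtain ⟨hvk', hg5⟩ := h3 T (fun i => if i = 0 then -k else 0) (fun i => if i = 0 then k else 0)
    k.natAbs hv' hv
  have e1 : (fun i : ℕ => (fun _ : ℕ => k) i + (fun _ : ℕ => -k) i) = fun _ => (0 : ℤ) := by
    funext i; exact add_neg_cancel k
  have e2 : (fun i : ℕ => (fun _ : ℕ => -k) i + (fun _ : ℕ => k) i) = fun _ => (0 : ℤ) := by
    funext i; exact neg_add_cancel k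
  have e3 : (fun i : ℕ => (fun _ : ℕ => k) i + (fun i : ℕ => if i = 0 then 0 else -k) i) =
      fun i => if i = 0 then k else 0 := by
    funext i
    simp only
    split_ifs
    · exact add_zero k
    · exact add_neg_cancel k
  have e4 : (fun i : ℕ => (fun i : ℕ => if i = 0 then k else 0) i +
      (fun i : ℕ => if i = 0 then -k else 0) i) = fun _ => (0 : ℤ) := by
    funext i
    simp only
    split_ifs
    · exact add_neg_cancel k
    · exact add_zero 0
  have e5 : (fun i : ℕ => (fun i : ℕ => if i = 0 then -k else 0) i +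
      (fun i : ℕ => if i = 0 then k else 0) i) = fun _ => (0 : ℤ) := by
    funext i
    simp only
    split_ifs
    · exact neg_add_cancel k
    · exact add_zero 0
  rw [e1, hu0] at hg1
  rw [e2, hu0] at hg2
  rw [e3] at hg3
  rw [e4, hu0] at hg4
  rw [e5, hu0] at hg5
  have hA := h2 T _ _ _ _ huk huk hg1 hg1
  have hR1 : (1 : Op T.X) ∈ RoePlus T := hA.1.2.2.2.1
  have hR0 : (0 : Op T.X) ∈ RoePlus T := hA.1.2.2.2.2.1
  have hG0 : (0 : Op T.X) ∈ Ghost T := hA.2.2.2.2.2
  have hRsub : ∀ S S' : Op T.X, S ∈ RoePlus T → S' ∈ RoePlus T → S - S' ∈ RoePlus T := by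
    intro S S' hS hS'
    have h10 : (-1 : ℂ) • S' ∈ RoePlus T := (h2 T _ _ _ _ hS' hS hg1 hg1).1.2.2.1 (-1)
    have h11 := (h2 T _ _ _ _ hS h10 hg1 hg1).1.1
    rw [neg_one_smul, ← sub_eq_add_neg] at h11
    exact h11
  have hRmul : ∀ S S' : Op T.X, S ∈ RoePlus T → S' ∈ RoePlus T → S * S' ∈ RoePlus T :=
    fun S S' hS hS' => (h2 T _ _ _ _ hS hS' hg1 hg1).1.2.1
  have hRR : ∀ S : Op T.X, S ∈ Roe T → S ∈ RoePlus T := by
    intro S hS
    refine ⟨0, ?_⟩
    rw [zero_smul, sub_zero]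
    exact hS
  obtain ⟨hW, hW', hPv⟩ := h4 T
  have hM1 : ∀ a b, hM T a b ∈ RoePlus T := by
    intro a b
    fin_cases a <;> fin_cases b
    · exact hRR _ hW
    · exact hRsub _ _ hR1 (hRmul _ _ (hRR _ hW) (hRR _ hW'))
    · exact hRsub _ _ hR1 (hRR _ hPv)
    · exact hRR _ hW'
  have hM2 : ∀ a b, hM' T a b ∈ RoePlus T := by
    intro a b
    fin_cases a <;> fin_cases b
    · exact hRR _ hW'
    · exact hRsub _ _ hR1 (hRR _ hPv)
    · exact hRsub _ _ hR1 (hRmul _ _ (hRR _ hW) (hRR _ hW'))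
    · exact hRR _ hW
  obtain ⟨hm1, hm2, hm3⟩ := h5 T (-k)
  obtain ⟨r1, r2, r3, r4, r5, r6, r7⟩ := h8 T
  have hz : ∀ (n : ℕ) (x y : Mat T.X n), x = y → ∀ a b, (x - y) a b ∈ Ghost T := by
    intro n x y hxy a b
    rw [hxy, sub_self]
    exact hG0
  have hC := h9 T (stab T.X 1 (uu T k)) (stab T.X 1 (uu T (-k))) (hM T) (hM' T)
    (stab_mem T.X 1 (fun S => S ∈ RoePlus T) _ huk hR1 hR0)
    (stab_mem T.X 1 (fun S => S ∈ RoePlus T) _ huk' hR1 hR0) hM1 hM2
    (by
      rw [stab_mul, ← stab_one]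
      exact stab_sub_mem T.X 1 (fun S => S ∈ Ghost T) _ _ hg1 hG0)
    (by
      rw [stab_mul, ← stab_one]
      exact stab_sub_mem T.X 1 (fun S => S ∈ Ghost T) _ _ hg2 hG0)
    (hz 2 _ _ hm1) (hz 2 _ _ hm2)
  have e6 : stab T.X 1 (uu T k) * hM T * stab T.X 1 (uu T (-k)) * hM' T =
      stab T.X 1 (uu T k * u1 T (-k)) := by
    rw [mul_assoc, mul_assoc, ← mul_assoc (hM T), hm3, stab_mul]
  rw [e6] at hC
  -- `v k`
  have hI : InvMod T (Ghost T) (stab T.X 3 (v T k)) := by
    refine ⟨stab_mem T.X 3 (fun S => S ∈ RoePlus T) _ hvk hR1 hR0, stab T.X 3 (v T (-k)),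
      stab_mem T.X 3 (fun S => S ∈ RoePlus T) _ hvk' hR1 hR0, ?_, ?_⟩
    · rw [stab_mul, ← stab_one]
      exact stab_sub_mem T.X 3 (fun S => S ∈ Ghost T) _ _ hg4 hG0
    · rw [stab_mul, ← stab_one]
      exact stab_sub_mem T.X 3 (fun S => S ∈ Ghost T) _ _ hg5 hG0
  have hD : Homot T (Ghost T) (stab T.X 3 (v T k)) (blk (stab T.X 1 (uu T k * u1 T (-k))) 1) := by
    refine h7 T 4 _ _ hI ?_
    rw [r7, blk_sub]
    exact blk_mem (fun S => S ∈ Ghost T) _ _
      (stab_sub_mem T.X 1 (fun S => S ∈ Ghost T) _ _ hg3 hG0) (hz 2 _ _ rfl) hG0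
  exact (h6 T (Ghost T) 4 _ _ _).2.2 hD hC

end Pool.Agent.Work.MP_1ddc88_an.TL
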