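import Pool.Agent.Work.MP_1ddc88_an.TL.Stmts

/-!
# MP_1ddc88_an, block TL, item TLA: the algebra of `W` and `W'`
-/

set_option autoImplicit false

open Filter Topology
open scoped ENNReal Classical

namespace Pool.Agent.Work.MP_1ddc88_an.TL

namespace ITLA

theorem N_ne (X : Expander) (i : ℕ) : (X.N i : ℂ) ≠ 0 := by
  have h : Nonempty (Fin (X.N i)) := (X.conn i).nonempty
  obtain ⟨v⟩ := h
  have h1 : X.N i ≠ 0 := by
    have := v.2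
    omega
  exact_mod_cast h1

/-- The sum of a constant over a fibre. -/
theorem fib_const (T : Tower) (i : ℕ) (v : Fin (T.X.N i)) (c : ℂ) :
    (∑ w : Fin (T.X.N (i + 1)), if T.π i w = v then c else 0) = (T.d i : ℂ) * c := by
  rw [← Finset.sum_filter, Finset.sum_const, nsmul_eq_mul]
  congr 2
  have h := T.fibre i v
  rw [← h, ← Set.ncard_coe_finset]
  congr 1
  ext w
  simp

/-- The sum of a pull back. -/
theorem fib_sum (T : Tower) (i : ℕ) (f : Fin (T.X.N i) → ℂ) :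
    ∑ w : Fin (T.X.N (i + 1)), f (T.π i w) = (T.d i : ℂ) * ∑ v, f v := by
  have h : ∀ w, f (T.π i w) = ∑ v, if T.π i w = v then f v else 0 := by
    intro w
    rw [Finset.sum_ite_eq]
    simp
  rw [Finset.sum_congr rfl fun w _ => h w, Finset.sum_comm, Finset.mul_sum]
  exact Finset.sum_congr rfl fun v _ => fib_const T i v (f v)

theorem N_succ (T : Tower) (i : ℕ) : (T.X.N (i + 1) : ℂ) = (T.d i : ℂ) * (T.X.N i : ℂ) := by
  have h := fib_sum T i (fun _ => 1)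
  simpa using h

/-- The average over a level. -/
noncomputable def avg (X : Expander) (ξ : Hs X) (i m : ℕ) : ℂ :=
  (X.N i : ℂ)⁻¹ * ∑ v : Fin (X.N i), ξ ((⟨i, v⟩, m), 0)

theorem avg_const (X : Expander) (ξ : Hs X) (i m : ℕ) (c : ℂ)
    (h : ∀ v : Fin (X.N i), ξ ((⟨i, v⟩, m), 0) = c) : avg X ξ i m = c := by
  unfold avg
  rw [Finset.sum_congr rfl fun v _ => h v, Finset.sum_const, Finset.card_univ,
    Fintype.card_fin, nsmul_eq_mul, ← mul_assoc, inv_mul_cancel₀ (N_ne X i), one_mul]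

theorem Pav_app (h1 : St_PavF) (X : Expander) (ξ : Hs X) (i : ℕ) (v : Fin (X.N i)) (m k : ℕ) :
    Pav X ξ ((⟨i, v⟩, m), k) = if k = 0 then avg X ξ i m else 0 :=
  (h1 X).2 ξ ((⟨i, v⟩, m), k)

theorem avg_Pav (h1 : St_PavF) (X : Expander) (ξ : Hs X) (i m : ℕ) :
    avg X (Pav X ξ) i m = avg X ξ i m := by
  apply avg_const
  intro v
  rw [Pav_app h1, if_pos rfl]

theorem Sh_app (h2 : St_ShF) (X : Expander) (a : ℤ) (ξ : Hs X) (x : Pt X) (m k : ℕ) :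
    Sh X (fun _ => a) ξ ((x, m), k) =
      if 0 ≤ (m : ℤ) - a then ξ ((x, ((m : ℤ) - a).toNat), k) else 0 :=
  (h2 X (fun _ => a)).2 ξ x m k

theorem avg_Sh (h2 : St_ShF) (X : Expander) (a : ℤ) (ξ : Hs X) (i m : ℕ) :
    avg X (Sh X (fun _ => a) ξ) i m =
      if 0 ≤ (m : ℤ) - a then avg X ξ i ((m : ℤ) - a).toNat else 0 := by
  unfold avg
  rw [Finset.sum_congr rfl fun v _ => Sh_app h2 X a ξ ⟨i, v⟩ m 0]
  by_cases h : 0 ≤ (m : ℤ) - a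
  · simp only [if_pos h]
  · simp only [if_neg h, Finset.sum_const_zero, mul_zero]

theorem Pav_idem (h1 : St_PavF) (X : Expander) : Pav X * Pav X = Pav X := by
  apply op_ext
  rintro ξ ⟨⟨⟨i, v⟩, m⟩, k⟩
  show Pav X (Pav X ξ) ((⟨i, v⟩, m), k) = Pav X ξ ((⟨i, v⟩, m), k)
  rw [Pav_app h1, Pav_app h1, avg_Pav h1]

theorem W_succ (h1 : St_PavF) (h3 : St_TLF) (T : Tower) (ξ : Hs T.X) (i : ℕ)
    (w : Fin (T.X.N (i + 1))) (m k : ℕ) : W T ξ ((⟨i + 1, w⟩, m), k) =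
      if k = 0 then ((Real.sqrt (T.d i) : ℝ) : ℂ)⁻¹ * avg T.X ξ i m else 0 := by
  show Lp T (Pav T.X ξ) ((⟨i + 1, w⟩, m), k) = _
  rw [(h3 T (Pav T.X ξ)).2.1, Pav_app h1]
  by_cases h : k = 0
  · rw [if_pos h, if_pos h]
  · rw [if_neg h, if_neg h, mul_zero]

theorem W_zero (h3 : St_TLF) (T : Tower) (ξ : Hs T.X)
    (w : Fin (T.X.N 0)) (m k : ℕ) : W T ξ ((⟨0, w⟩, m), k) = 0 :=
  (h3 T (Pav T.X ξ)).2.2.1 w m k

theorem W'_app (h1 : St_PavF) (h3 : St_TLF) (T : Tower) (ξ : Hs T.X) (i : ℕ)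
    (w : Fin (T.X.N i)) (m k : ℕ) : W' T ξ ((⟨i, w⟩, m), k) =
      if k = 0 then ((Real.sqrt (T.d i) : ℝ) : ℂ)⁻¹ * ((T.d i : ℂ) * avg T.X ξ (i + 1) m)
      else 0 := by
  show Lm T (Pav T.X ξ) ((⟨i, w⟩, m), k) = _
  rw [(h3 T (Pav T.X ξ)).2.2.2]
  have h4 : ∀ w' : Fin (T.X.N (i + 1)),
      (if T.π i w' = w then Pav T.X ξ ((⟨i + 1, w'⟩, m), k) else 0) =
        if T.π i w' = w then (if k = 0 then avg T.X ξ (i + 1) m else 0) else 0 := by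
    intro w'
    rw [Pav_app h1]
  rw [Finset.sum_congr rfl fun w' _ => h4 w', fib_const]
  by_cases h : k = 0
  · rw [if_pos h, if_pos h]
  · rw [if_neg h, if_neg h, mul_zero, mul_zero]

theorem sq_d (h3 : St_TLF) (T : Tower) (i : ℕ) (c : ℂ) :
    ((Real.sqrt (T.d i) : ℝ) : ℂ)⁻¹ * ((T.d i : ℂ) * (((Real.sqrt (T.d i) : ℝ) : ℂ)⁻¹ * c)) = c := by
  have hd := (h3 T 0).1 i
  have hd' : (0 : ℝ) < (T.d i : ℝ) := by exact_mod_cast hd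
  have hs : ((Real.sqrt (T.d i) : ℝ) : ℂ) ≠ 0 := by
    have := (Real.sqrt_pos.2 hd').ne'
    exact_mod_cast this
  have h2 : (T.d i : ℂ) = ((Real.sqrt (T.d i) : ℝ) : ℂ) * ((Real.sqrt (T.d i) : ℝ) : ℂ) := by
    rw [← Complex.ofReal_mul, Real.mul_self_sqrt hd'.le]
    simp
  rw [h2]
  field_simp

theorem avg_W_succ (h1 : St_PavF) (h3 : St_TLF) (T : Tower) (ξ : Hs T.X) (i m : ℕ) :
    avg T.X (W T ξ) (i + 1) m = ((Real.sqrt (T.d i) : ℝ) : ℂ)⁻¹ * avg T.X ξ i m := by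
  apply avg_const
  intro v
  rw [W_succ h1 h3, if_pos rfl]

theorem avg_W_zero (h3 : St_TLF) (T : Tower) (ξ : Hs T.X) (m : ℕ) :
    avg T.X (W T ξ) 0 m = 0 := by
  apply avg_const
  intro v
  rw [W_zero h3]

theorem avg_W' (h1 : St_PavF) (h3 : St_TLF) (T : Tower) (ξ : Hs T.X) (i m : ℕ) :
    avg T.X (W' T ξ) i m =
      ((Real.sqrt (T.d i) : ℝ) : ℂ)⁻¹ * ((T.d i : ℂ) * avg T.X ξ (i + 1) m) := by
  apply avg_const
  intro v
  rw [W'_app h1 h3, if_pos rfl]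

end ITLA

theorem pr_TLA (h1 : St_PavF) (h2 : St_ShF) (h3 : St_TLF) : St_TLA := by
  intro T
  refine ⟨?_, ?_, ?_, ?_, ?_, ?_, ?_⟩
  · apply op_ext
    rintro ξ ⟨⟨⟨i, w⟩, m⟩, k⟩
    show W' T (W T ξ) ((⟨i, w⟩, m), k) = Pav T.X ξ ((⟨i, w⟩, m), k)
    rw [ITLA.W'_app h1 h3, ITLA.avg_W_succ h1 h3, ITLA.sq_d h3, ITLA.Pav_app h1]
  · apply op_ext
    rintro ξ ⟨⟨⟨i, w⟩, m⟩, k⟩
    show W T (W' T ξ) ((⟨i, w⟩, m), k) =
      Pav T.X ξ ((⟨i, w⟩, m), k) - Q T.X 0 (Pav T.X ξ) ((⟨i, w⟩, m), k)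
    rw [Q_apply]
    rcases i with _ | i
    · rw [ITLA.W_zero h3]
      show (0 : ℂ) = _ - if (0 : ℕ) = 0 then _ else _
      rw [if_pos rfl, sub_self]
    · rw [ITLA.W_succ h1 h3, ITLA.avg_W' h1 h3]
      show _ = _ - if i + 1 = 0 then _ else _
      rw [if_neg (Nat.succ_ne_zero i), sub_zero, ITLA.Pav_app h1]
      have h5 := ITLA.sq_d h3 T i (ITLA.avg T.X ξ (i + 1) m)
      have h6 : ((Real.sqrt (T.d i) : ℝ) : ℂ)⁻¹ * (((Real.sqrt (T.d i) : ℝ) : ℂ)⁻¹ *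
          ((T.d i : ℂ) * ITLA.avg T.X ξ (i + 1) m)) = ITLA.avg T.X ξ (i + 1) m := by
        rw [mul_left_comm (((Real.sqrt (T.d i) : ℝ) : ℂ)⁻¹) (T.d i : ℂ)]
        exact h5
      rw [h6]
  · apply op_ext
    rintro ξ ⟨⟨⟨i, w⟩, m⟩, k⟩
    show Pav T.X (W T ξ) ((⟨i, w⟩, m), k) = W T ξ ((⟨i, w⟩, m), k)
    rw [ITLA.Pav_app h1]
    rcases i with _ | i
    · rw [ITLA.W_zero h3, ITLA.avg_W_zero h3, ite_self]
    · rw [ITLA.W_succ h1 h3, ITLA.avg_W_succ h1 h3]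
  · unfold W
    rw [mul_assoc, ITLA.Pav_idem h1]
  · apply op_ext
    rintro ξ ⟨⟨⟨i, w⟩, m⟩, k⟩
    show Pav T.X (W' T ξ) ((⟨i, w⟩, m), k) = W' T ξ ((⟨i, w⟩, m), k)
    rw [ITLA.Pav_app h1, ITLA.W'_app h1 h3, ITLA.avg_W' h1 h3]
  · unfold W'
    rw [mul_assoc, ITLA.Pav_idem h1]
  · intro a
    constructor
    · apply op_ext
      rintro ξ ⟨⟨⟨i, w⟩, m⟩, k⟩
      show Sh T.X (fun _ => a) (W T ξ) ((⟨i, w⟩, m), k) =
        W T (Sh T.X (fun _ => a) ξ) ((⟨i, w⟩, m), k)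
      rw [ITLA.Sh_app h2]
      rcases i with _ | i
      · rw [ITLA.W_zero h3, ITLA.W_zero h3, ite_self]
      · rw [ITLA.W_succ h1 h3, ITLA.W_succ h1 h3, ITLA.avg_Sh h2]
        by_cases h : 0 ≤ (m : ℤ) - a
        · simp only [if_pos h]
        · simp only [if_neg h, mul_zero, ite_self]
    · apply op_ext
      rintro ξ ⟨⟨⟨i, w⟩, m⟩, k⟩
      show Sh T.X (fun _ => a) (W' T ξ) ((⟨i, w⟩, m), k) =
        W' T (Sh T.X (fun _ => a) ξ) ((⟨i, w⟩, m), k)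
      rw [ITLA.Sh_app h2, ITLA.W'_app h1 h3, ITLA.W'_app h1 h3, ITLA.avg_Sh h2]
      by_cases h : 0 ≤ (m : ℤ) - a
      · simp only [if_pos h]
      · simp only [if_neg h, mul_zero, ite_self]

end Pool.Agent.Work.MP_1ddc88_an.TL
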