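import Pool.Agent.Work.MP_1ddc88_an.TL.Stmts

/-!
# MP_1ddc88_an, block TL, item TLF: the formulas for `Lp` and `Lm`
-/

set_option autoImplicit false

open Filter Topology
open scoped ENNReal Classical

namespace Pool.Agent.Work.MP_1ddc88_an.TL

noncomputable section

namespace ITLF

theorem d_pos (T : Tower) (i : ℕ) : 1 ≤ T.d i := by
  obtain ⟨w⟩ := (T.X.conn (i + 1)).nonempty
  rw [← T.fibre i (T.π i w)]
  exact Nat.one_le_iff_ne_zero.2
    (Set.ncard_ne_zero_of_mem (a := w) (show T.π i w = T.π i w from rfl) (Set.toFinite _))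

/-- the points of level `i` -/
def em (X : Expander) (i m k : ℕ) (w : Fin (X.N i)) : Ix X := ((⟨i, w⟩, m), k)

theorem em_eq (X : Expander) (i j m m' k k' : ℕ) (w : Fin (X.N i)) (w' : Fin (X.N j))
    (h : em X i m k w = em X j m' k' w') : i = j ∧ HEq w w' ∧ m = m' ∧ k = k' := by
  have h1 : (⟨i, w⟩ : Pt X) = ⟨j, w'⟩ := congrArg (fun q : Ix X => q.1.1) h
  have h2 : m = m' := congrArg (fun q : Ix X => q.1.2) h
  have h3 : k = k' := congrArg (fun q : Ix X => q.2) h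
  exact ⟨(Sigma.mk.inj_iff.1 h1).1, (Sigma.mk.inj_iff.1 h1).2, h2, h3⟩

theorem em_inj (X : Expander) (i m k : ℕ) : Function.Injective (em X i m k) := by
  intro v w h
  exact eq_of_heq (em_eq X i i m m k k v w h).2.1

/-- the kernel of `Lp` -/
def KP (T : Tower) (p q : Ix T.X) : ℂ :=
  if p.1.2 = q.1.2 ∧ p.2 = q.2 ∧
    ∃ (i : ℕ) (v : Fin (T.X.N (i + 1))), p.1.1 = ⟨i + 1, v⟩ ∧ q.1.1 = ⟨i, T.π i v⟩
  then ((T.K : ℂ) + 1)⁻¹ * ((Real.sqrt (T.d q.1.1.1) : ℝ) : ℂ)⁻¹ else 0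

/-- the kernel of `Lm` -/
def KM (T : Tower) (p q : Ix T.X) : ℂ :=
  if p.1.2 = q.1.2 ∧ p.2 = q.2 ∧
    ∃ (i : ℕ) (v : Fin (T.X.N (i + 1))), q.1.1 = ⟨i + 1, v⟩ ∧ p.1.1 = ⟨i, T.π i v⟩
  then ((T.K : ℂ) + 1)⁻¹ * ((Real.sqrt (T.d p.1.1.1) : ℝ) : ℂ)⁻¹ else 0

theorem Lp_eq (T : Tower) : Lp T = ((T.K : ℂ) + 1) • kerOp (KP T) := rfl

theorem Lm_eq (T : Tower) : Lm T = ((T.K : ℂ) + 1) • kerOp (KM T) := rfl

theorem KM_eq (T : Tower) (p q : Ix T.X) : KM T p q = KP T q p := by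
  unfold KM KP
  by_cases h : p.1.2 = q.1.2 ∧ p.2 = q.2 ∧
    ∃ (i : ℕ) (v : Fin (T.X.N (i + 1))), q.1.1 = ⟨i + 1, v⟩ ∧ p.1.1 = ⟨i, T.π i v⟩
  · rw [if_pos h, if_pos ⟨h.1.symm, h.2.1.symm, h.2.2⟩]
  · rw [if_neg h, if_neg (fun h' => h ⟨h'.1.symm, h'.2.1.symm, h'.2.2⟩)]

/-- the nonzero value -/
def cc (T : Tower) (i : ℕ) : ℂ := ((T.K : ℂ) + 1)⁻¹ * ((Real.sqrt (T.d i) : ℝ) : ℂ)⁻¹

theorem KP_succ (T : Tower) (i m k : ℕ) (w : Fin (T.X.N (i + 1))) (q : Ix T.X) :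
    KP T (em T.X (i + 1) m k w) q = if q = em T.X i m k (T.π i w) then cc T i else 0 := by
  unfold KP
  by_cases h : q = em T.X i m k (T.π i w)
  · subst h
    rw [if_pos rfl, if_pos]
    · rfl
    · exact ⟨rfl, rfl, i, w, rfl, rfl⟩
  · rw [if_neg h, if_neg]
    rintro ⟨h1, h2, i', v, h3, h4⟩
    apply h
    have h3' : (⟨i + 1, w⟩ : Pt T.X) = ⟨i' + 1, v⟩ := h3
    obtain ⟨h5, h6⟩ := Sigma.mk.inj_iff.1 h3'
    have h7 : i = i' := Nat.succ_injective h5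
    subst h7
    have h8 : w = v := eq_of_heq h6
    subst h8
    obtain ⟨⟨y, m'⟩, k'⟩ := q
    have h1' : m = m' := h1
    have h2' : k = k' := h2
    have h4' : y = ⟨i, T.π i w⟩ := h4
    subst h1' h2' h4'
    rfl

theorem KP_zero (T : Tower) (m k : ℕ) (w : Fin (T.X.N 0)) (q : Ix T.X) :
    KP T (em T.X 0 m k w) q = 0 := by
  unfold KP
  rw [if_neg]
  rintro ⟨-, -, i', v, h3, -⟩
  have h3' : (⟨0, w⟩ : Pt T.X) = ⟨i' + 1, v⟩ := h3
  exact absurd (Sigma.mk.inj_iff.1 h3').1 (by omega)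

theorem KP_col (T : Tower) (i m k : ℕ) (v : Fin (T.X.N i)) (w : Fin (T.X.N (i + 1))) :
    KP T (em T.X (i + 1) m k w) (em T.X i m k v) = if T.π i w = v then cc T i else 0 := by
  rw [KP_succ]
  by_cases h : T.π i w = v
  · rw [if_pos h, if_pos (by rw [h])]
  · rw [if_neg h, if_neg (fun h' => h (em_inj T.X i m k h').symm)]

theorem KP_out (T : Tower) (i m k : ℕ) (v : Fin (T.X.N i)) (p : Ix T.X)
    (h : p ∉ Set.range (em T.X (i + 1) m k)) : KP T p (em T.X i m k v) = 0 := by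
  obtain ⟨⟨⟨j, w⟩, m'⟩, k'⟩ := p
  rcases j with _ | j
  · exact KP_zero T m' k' w _
  · change KP T (em T.X (j + 1) m' k' w) (em T.X i m k v) = 0
    rw [KP_succ, if_neg]
    intro h1
    obtain ⟨h2, h3, h4, h5⟩ := em_eq _ _ _ _ _ _ _ _ _ h1
    subst h2 h4 h5
    exact h ⟨w, rfl⟩

theorem em_hasSum (X : Expander) (i m k : ℕ) {E : Type} [AddCommMonoid E] [TopologicalSpace E]
    (f : Ix X → E) (hf : ∀ q, q ∉ Set.range (em X i m k) → f q = 0) :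
    HasSum f (∑ w, f (em X i m k w)) := by
  have h := hasSum_fintype (fun w => f (em X i m k w))
  exact ((em_inj X i m k).hasSum_iff hf).1 h

theorem cc_norm (T : Tower) (i : ℕ) : ‖cc T i‖ = ((T.K : ℝ) + 1)⁻¹ * (Real.sqrt (T.d i))⁻¹ := by
  unfold cc
  rw [norm_mul, norm_inv, norm_inv, Complex.norm_real, Real.norm_eq_abs,
    abs_of_nonneg (Real.sqrt_nonneg _)]
  congr 2
  have h : ((T.K : ℂ) + 1) = (((T.K : ℝ) + 1 : ℝ) : ℂ) := by push_cast; rfl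
  rw [h, Complex.norm_real, Real.norm_eq_abs, abs_of_nonneg (by positivity)]

theorem sqrt_one_le (T : Tower) (i : ℕ) : 1 ≤ Real.sqrt (T.d i) := by
  rw [Real.one_le_sqrt]
  exact_mod_cast d_pos T i

theorem cc_le (T : Tower) (i : ℕ) : ‖cc T i‖ ≤ 1 := by
  rw [cc_norm]
  have h1 : ((T.K : ℝ) + 1)⁻¹ ≤ 1 := inv_le_one_of_one_le₀ (by linarith [Nat.cast_nonneg (α := ℝ) T.K])
  have h2 : (Real.sqrt (T.d i))⁻¹ ≤ 1 := inv_le_one_of_one_le₀ (sqrt_one_le T i)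
  exact mul_le_one₀ h1 (by positivity) h2

theorem fib_sum (T : Tower) (i : ℕ) (v : Fin (T.X.N i)) (c : ℝ) :
    (∑ w : Fin (T.X.N (i + 1)), if T.π i w = v then c else 0) = (T.d i : ℝ) * c := by
  rw [← Finset.sum_filter, Finset.sum_const, nsmul_eq_mul]
  congr 2
  have h := T.fibre i v
  rw [← h, ← Set.ncard_coe_finset]
  congr 1
  ext w
  simp

theorem col_le (T : Tower) (i m k : ℕ) (v : Fin (T.X.N i)) :
    ∑ w, ‖KP T (em T.X (i + 1) m k w) (em T.X i m k v)‖ ≤ 1 := by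
  have h1 : ∀ w, ‖KP T (em T.X (i + 1) m k w) (em T.X i m k v)‖ =
      if T.π i w = v then ‖cc T i‖ else 0 := by
    intro w
    rw [KP_col]
    split_ifs
    · rfl
    · exact norm_zero
  rw [Finset.sum_congr rfl fun w _ => h1 w, fib_sum, cc_norm]
  have hs := sqrt_one_le T i
  have hd : (0 : ℝ) ≤ T.d i := Nat.cast_nonneg _
  have h2 : Real.sqrt (T.d i) * Real.sqrt (T.d i) = T.d i := Real.mul_self_sqrt hd
  have hK : (T.d i : ℝ) ≤ T.K := by exact_mod_cast T.d_le i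
  have h3 : (T.d i : ℝ) * (((T.K : ℝ) + 1)⁻¹ * (Real.sqrt (T.d i))⁻¹) =
      ((T.K : ℝ) + 1)⁻¹ * Real.sqrt (T.d i) := by
    have hne : Real.sqrt (T.d i) ≠ 0 := by linarith
    calc (T.d i : ℝ) * (((T.K : ℝ) + 1)⁻¹ * (Real.sqrt (T.d i))⁻¹)
        = (Real.sqrt (T.d i) * Real.sqrt (T.d i)) *
            (((T.K : ℝ) + 1)⁻¹ * (Real.sqrt (T.d i))⁻¹) := by rw [h2]
      _ = ((T.K : ℝ) + 1)⁻¹ * Real.sqrt (T.d i) *
            (Real.sqrt (T.d i) * (Real.sqrt (T.d i))⁻¹) := by ring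
      _ = ((T.K : ℝ) + 1)⁻¹ * Real.sqrt (T.d i) := by rw [mul_inv_cancel₀ hne, mul_one]
  rw [h3, inv_mul_le_iff₀ (by positivity)]
  nlinarith

theorem rowP (T : Tower) (p : Ix T.X) :
    Summable (fun q => ‖KP T p q‖) ∧ ∑' q, ‖KP T p q‖ ≤ 1 := by
  obtain ⟨⟨⟨j, w⟩, m⟩, k⟩ := p
  rcases j with _ | j
  · have h0 : ∀ q, ‖KP T ((⟨0, w⟩, m), k) q‖ = 0 := fun q => by
      rw [show KP T ((⟨0, w⟩, m), k) q = 0 from KP_zero T m k w q, norm_zero]
    simp only [h0]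
    refine ⟨summable_zero, ?_⟩
    rw [tsum_zero]
    exact zero_le_one
  · have hf : ∀ q, q ≠ em T.X j m k (T.π j w) → ‖KP T (em T.X (j + 1) m k w) q‖ = 0 := by
      intro q hq
      rw [KP_succ, if_neg hq, norm_zero]
    have hs := hasSum_single (f := fun q => ‖KP T (em T.X (j + 1) m k w) q‖) _ hf
    refine ⟨hs.summable, ?_⟩
    have h2 : ∑' q, ‖KP T (em T.X (j + 1) m k w) q‖ ≤ 1 := by
      rw [hs.tsum_eq, KP_succ, if_pos rfl]
      exact cc_le T j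
    exact h2

theorem colP (T : Tower) (q : Ix T.X) :
    Summable (fun p => ‖KP T p q‖) ∧ ∑' p, ‖KP T p q‖ ≤ 1 := by
  obtain ⟨⟨⟨i, v⟩, m⟩, k⟩ := q
  have h := em_hasSum T.X (i + 1) m k (fun p => ‖KP T p (em T.X i m k v)‖)
    (fun p hp => by simp only [KP_out T i m k v p hp, norm_zero])
  refine ⟨h.summable, ?_⟩
  have h2 : ∑' p, ‖KP T p (em T.X i m k v)‖ ≤ 1 := by
    rw [h.tsum_eq]
    exact col_le T i m k v
  exact h2

theorem markovP (T : Tower) : IsMarkov (KP T) := ⟨rowP T, colP T⟩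

theorem markovM (T : Tower) : IsMarkov (KM T) := by
  constructor
  · intro p
    have h := colP T p
    simp only [KM_eq]
    exact h
  · intro q
    have h := rowP T q
    simp only [KM_eq]
    exact h

theorem K_ne (T : Tower) : ((T.K : ℂ) + 1) ≠ 0 := by
  have h : ((T.K : ℂ) + 1) = ((T.K + 1 : ℕ) : ℂ) := by push_cast; rfl
  rw [h]
  exact Nat.cast_ne_zero.2 (Nat.succ_ne_zero T.K)

theorem smul_app (T : Tower) (c : ℂ) (S : Op T.X) (ξ : Hs T.X) (p : Ix T.X) :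
    (c • S) ξ p = c * S ξ p := by
  simp

end ITLF

open ITLF in
/-- item TLF -/
theorem pr_TLF : St_TLF := by
  intro T ξ
  refine ⟨d_pos T, ?_, ?_, ?_⟩
  · intro i w m k
    rw [Lp_eq, smul_app, kerOp_apply (markovP T)]
    change _ * ∑' q, KP T (em T.X (i + 1) m k w) q * ξ q = _
    rw [tsum_eq_single (em T.X i m k (T.π i w))]
    · rw [KP_succ, if_pos rfl, cc, ← mul_assoc, ← mul_assoc, mul_inv_cancel₀ (K_ne T), one_mul]
      rfl
    · intro q hq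
      rw [KP_succ, if_neg hq, zero_mul]
  · intro w m k
    rw [Lp_eq, smul_app, kerOp_apply (markovP T)]
    change _ * ∑' q, KP T (em T.X 0 m k w) q * ξ q = _
    have h0 : ∀ q, KP T (em T.X 0 m k w) q * ξ q = 0 := fun q => by rw [KP_zero, zero_mul]
    simp only [h0, tsum_zero, mul_zero]
  · intro i w m k
    rw [Lm_eq, smul_app, kerOp_apply (markovM T)]
    change _ * ∑' q, KM T (em T.X i m k w) q * ξ q = _
    have h := em_hasSum T.X (i + 1) m k (fun q => KM T (em T.X i m k w) q * ξ q)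
      (fun p hp => by simp only [KM_eq, KP_out T i m k w p hp, zero_mul])
    rw [h.tsum_eq]
    simp only [KM_eq, KP_col, ite_mul, zero_mul]
    rw [Finset.mul_sum, Finset.mul_sum]
    refine Finset.sum_congr rfl fun w' _ => ?_
    by_cases h1 : T.π i w' = w
    · rw [if_pos h1, if_pos h1, cc, ← mul_assoc, ← mul_assoc, mul_inv_cancel₀ (K_ne T), one_mul]
      rfl
    · rw [if_neg h1, if_neg h1, mul_zero, mul_zero]

end

end Pool.Agent.Work.MP_1ddc88_an.TL
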