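import Pool.Agent.Work.MP_1ddc88_an.TL.Stmts

/-!
# MP_1ddc88_an, block TL, item TMet: the telescope is connected and `dT` is a metric
-/

set_option autoImplicit false

open Filter Topology
open scoped ENNReal Classical

namespace Pool.Agent.Work.MP_1ddc88_an.TL

noncomputable section

namespace ITMet

theorem adj_level (T : Tower) (i : ℕ) {v w : Fin (T.X.N i)} (h : (T.X.G i).Adj v w) :
    (tele T).Adj ⟨i, v⟩ ⟨i, w⟩ := by
  unfold tele
  rw [SimpleGraph.fromRel_adj]
  refine ⟨fun he => ?_, Or.inl (Or.inl ⟨i, v, w, h, rfl, rfl⟩)⟩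
  have h1 : v = w := by
    have := Sigma.mk.inj_iff.1 he
    exact eq_of_heq this.2
  exact h.ne h1

theorem adj_down (T : Tower) (i : ℕ) (v : Fin (T.X.N (i + 1))) :
    (tele T).Adj ⟨i + 1, v⟩ ⟨i, T.π i v⟩ := by
  unfold tele
  rw [SimpleGraph.fromRel_adj]
  refine ⟨fun he => ?_, Or.inl (Or.inr ⟨i, v, rfl, rfl⟩)⟩
  have := (Sigma.mk.inj_iff.1 he).1
  omega

theorem reach (T : Tower) (i : ℕ) :
    ∀ v : Fin (T.X.N i), (tele T).Reachable ⟨0, T.X.base 0⟩ ⟨i, v⟩ := by
  induction i with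
  | zero =>
      intro v
      let φ : T.X.G 0 →g tele T := ⟨fun v => (⟨0, v⟩ : Pt T.X), fun h => adj_level T 0 h⟩
      exact ((T.X.conn 0).preconnected (T.X.base 0) v).map φ
  | succ i ih =>
      intro v
      exact (ih (T.π i v)).trans (adj_down T i v).symm.reachable

theorem conn (T : Tower) : (tele T).Connected := by
  haveI : Nonempty (Pt T.X) := ⟨⟨0, T.X.base 0⟩⟩
  refine ⟨fun p q => ?_⟩
  obtain ⟨i, v⟩ := p
  obtain ⟨j, w⟩ := q
  exact (reach T i v).symm.trans (reach T j w)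

end ITMet

open ITMet in
theorem pr_TMet : St_TMet := by
  intro T
  have hc := conn T
  refine ⟨hc, fun x y z => ⟨?_, ?_, ?_, ?_⟩⟩
  · unfold dT
    rw [SimpleGraph.dist_self]
    omega
  · intro h
    unfold dT at h
    have h1 : (tele T).dist x.1 y.1 = 0 := by omega
    have h2 : x.2 = y.2 := by omega
    exact Prod.ext (hc.dist_eq_zero_iff.1 h1) h2
  · unfold dT
    rw [SimpleGraph.dist_comm]
    omega
  · unfold dT
    have h1 := hc.dist_triangle (u := x.1) (v := y.1) (w := z.1)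
    omega

end

end Pool.Agent.Work.MP_1ddc88_an.TL
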