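import Pool.Agent.Work.MP_1ddc88_an.TL.Stmts

/-!
# Block TL, item TPert: perturbation by ghosts
-/

set_option autoImplicit false

open Filter Topology
open scoped ENNReal Classical

namespace Pool.Agent.Work.MP_1ddc88_an.TL

namespace ITPert

/-- products of a matrix over `C*(Z) + ℂ` and a matrix of ghosts -/
theorem mul_ghost (h1 : St_TAG) (T : Tower) {n : ℕ} (A B : Mat T.X n)
    (hA : ∀ a b, A a b ∈ RoePlus T) (hB : ∀ a b, B a b ∈ Ghost T) (a b : Fin n) :
    (A * B) a b ∈ Ghost T ∧ (B * A) a b ∈ Ghost T := by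
  have hG : ∀ S G G', S ∈ RoePlus T → G ∈ Ghost T → G' ∈ Ghost T →
      G + G' ∈ Ghost T ∧ S * G ∈ Ghost T ∧ G * S ∈ Ghost T ∧ (0 : Op T.X) ∈ Ghost T := by
    intro S G G' hS hG hG'
    obtain ⟨-, g1, -, g3, g4, g5⟩ := h1 T S S G G' hS hS hG hG'
    exact ⟨g1, g3, g4, g5⟩
  have h0 : (0 : Op T.X) ∈ Ghost T := (hG _ _ _ (hA a a) (hB a a) (hB a a)).2.2.2
  have hadd : ∀ G G', G ∈ Ghost T → G' ∈ Ghost T → G + G' ∈ Ghost T :=
    fun G G' h h' => (hG _ _ _ (hA a a) h h').1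
  constructor
  · rw [Matrix.mul_apply]
    refine Finset.sum_induction _ (fun S => S ∈ Ghost T) hadd h0 fun c _ => ?_
    exact (hG _ _ _ (hA a c) (hB c b) (hB c b)).2.1
  · rw [Matrix.mul_apply]
    refine Finset.sum_induction _ (fun S => S ∈ Ghost T) hadd h0 fun c _ => ?_
    exact (hG _ _ _ (hA c b) (hB a c) (hB a c)).2.2.1

end ITPert

/-- Item TPert. -/
theorem pr_TPert (h1 : St_TAG) : St_TPert := by
  intro T n x y hx hxy
  obtain ⟨hxR, g, hgR, hg1, hg2⟩ := hx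
  refine ⟨fun t => x + ((t : ℝ) : ℂ) • (y - x), ?_, ?_, ?_, ?_⟩
  · exact (continuous_const.add (Complex.continuous_ofReal.smul continuous_const)).continuousOn
  · show x + (((0 : ℝ)) : ℂ) • (y - x) = x
    rw [Complex.ofReal_zero, zero_smul, add_zero]
  · show x + (((1 : ℝ)) : ℂ) • (y - x) = y
    rw [Complex.ofReal_one, one_smul, add_sub_cancel]
  · intro t _
    obtain ⟨D, hD⟩ : ∃ D : Mat T.X n, D = ((t : ℝ) : ℂ) • (y - x) := ⟨_, rfl⟩
    have hDG : ∀ a b, D a b ∈ Ghost T := by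
      intro a b
      rw [hD, Matrix.smul_apply]
      exact (h1 T _ _ _ _ (hxR a b) (hxR a b) (hxy a b) (hxy a b)).2.2.1 _
    show InvMod T (Ghost T) (x + ((t : ℝ) : ℂ) • (y - x))
    rw [← hD]
    refine ⟨?_, g, hgR, ?_, ?_⟩
    · intro a b
      rw [Matrix.add_apply]
      have h2 := (h1 T _ _ _ _ (hxR a b) (hxR a b) (hDG a b) (hDG a b)).1.2.2.2.2.2
      exact (h1 T _ _ _ _ (hxR a b) h2 (hDG a b) (hDG a b)).1.1
    · intro a b
      have e : (x + D) * g - 1 = (x * g - 1) + D * g := by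
        rw [add_mul, add_sub_right_comm]
      rw [e, Matrix.add_apply]
      exact (h1 T _ _ _ _ (hxR a b) (hxR a b) (hg1 a b)
        (ITPert.mul_ghost h1 T g D hgR hDG a b).2).2.1
    · intro a b
      have e : g * (x + D) - 1 = (g * x - 1) + g * D := by
        rw [mul_add, add_sub_right_comm]
      rw [e, Matrix.add_apply]
      exact (h1 T _ _ _ _ (hxR a b) (hxR a b) (hg2 a b)
        (ITPert.mul_ghost h1 T g D hgR hDG a b).1).2.1

end Pool.Agent.Work.MP_1ddc88_an.TL
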