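import Pool.Agent.Work.MP_1ddc88_an.TL.Stmts

/-!
# MP_1ddc88_an, block TL, item TRot: block matrices and rotations
-/

set_option autoImplicit false

open Filter Topology
open scoped ENNReal Classical

namespace Pool.Agent.Work.MP_1ddc88_an.TL

namespace ITRot

/-- reindexing is multiplicative -/
lemma reindex_mul {A : Type*} [Ring A] (M N : Matrix (Fin 2 ⊕ Fin 2) (Fin 2 ⊕ Fin 2) A) :
    Matrix.reindex finSumFinEquiv finSumFinEquiv M *
      Matrix.reindex finSumFinEquiv finSumFinEquiv N =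
    (Matrix.reindex finSumFinEquiv finSumFinEquiv (M * N) : Matrix (Fin 4) (Fin 4) A) := by
  rw [Matrix.reindex_apply, Matrix.reindex_apply, Matrix.reindex_apply]
  exact Matrix.submatrix_mul_equiv M N _ _ _

lemma reindex_one {A : Type*} [Ring A] :
    (Matrix.reindex finSumFinEquiv finSumFinEquiv
      (1 : Matrix (Fin 2 ⊕ Fin 2) (Fin 2 ⊕ Fin 2) A) : Matrix (Fin 4) (Fin 4) A) = 1 := by
  rw [Matrix.reindex_apply]
  exact Matrix.submatrix_one_equiv _

lemma diag_fun {A : Type*} [Ring A] (x : A) :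
    (Sum.elim (fun i : Fin 2 => if i = 0 then x else 1) (fun _ : Fin 2 => (1 : A))) ∘
      (finSumFinEquiv (m := 2) (n := 2)).symm = fun i : Fin 4 => if i = 0 then x else 1 := by
  funext i
  fin_cases i <;> rfl

end ITRot

open ITRot in
/-- item TRot -/
theorem pr_TRot : St_TRot := by
  intro T
  refine ⟨?_, ?_, ?_, ?_, ?_, ?_, ?_⟩
  · intro x y x' y'
    rw [blk, blk, blk, reindex_mul, Matrix.fromBlocks_multiply]
    simp
  · rw [blk, Matrix.fromBlocks_one, reindex_one]
  · intro t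
    have h : (((Real.cos t : ℝ) : ℂ)) * ((Real.cos t : ℝ) : ℂ) +
        ((Real.sin t : ℝ) : ℂ) * ((Real.sin t : ℝ) : ℂ) = 1 := by
      have h1 := Real.cos_sq_add_sin_sq t
      rw [sq, sq] at h1
      exact_mod_cast h1
    rw [rot, rot, reindex_mul, Matrix.fromBlocks_multiply, Real.cos_neg, Real.sin_neg]
    have e1 : (((Real.cos t : ℝ) : ℂ) • (1 : Mat T.X 2)) * (((Real.cos t : ℝ) : ℂ) • 1) +
        (-(((Real.sin t : ℝ) : ℂ) • (1 : Mat T.X 2))) * (((-Real.sin t : ℝ) : ℂ) • 1) = 1 := by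
      rw [Complex.ofReal_neg, neg_smul, neg_mul_neg, smul_mul_smul_comm, smul_mul_smul_comm,
        mul_one, ← add_smul, h, one_smul]
    have e2 : (((Real.cos t : ℝ) : ℂ) • (1 : Mat T.X 2)) *
          (-(((-Real.sin t : ℝ) : ℂ) • (1 : Mat T.X 2))) +
        (-(((Real.sin t : ℝ) : ℂ) • (1 : Mat T.X 2))) * (((Real.cos t : ℝ) : ℂ) • 1) = 0 := by
      rw [Complex.ofReal_neg, neg_smul, neg_neg, neg_mul, smul_mul_smul_comm, smul_mul_smul_comm,
        mul_one, mul_comm (((Real.cos t : ℝ) : ℂ)), add_neg_cancel]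
    have e3 : (((Real.sin t : ℝ) : ℂ) • (1 : Mat T.X 2)) * (((Real.cos t : ℝ) : ℂ) • 1) +
        (((Real.cos t : ℝ) : ℂ) • (1 : Mat T.X 2)) * (((-Real.sin t : ℝ) : ℂ) • 1) = 0 := by
      rw [Complex.ofReal_neg, neg_smul, mul_neg, smul_mul_smul_comm, smul_mul_smul_comm,
        mul_one, mul_comm (((Real.cos t : ℝ) : ℂ)), add_neg_cancel]
    have e4 : (((Real.sin t : ℝ) : ℂ) • (1 : Mat T.X 2)) *
          (-(((-Real.sin t : ℝ) : ℂ) • (1 : Mat T.X 2))) +
        (((Real.cos t : ℝ) : ℂ) • (1 : Mat T.X 2)) * (((Real.cos t : ℝ) : ℂ) • 1) = 1 := by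
      rw [Complex.ofReal_neg, neg_smul, neg_neg, smul_mul_smul_comm, smul_mul_smul_comm,
        mul_one, ← add_smul, add_comm, h, one_smul]
    rw [e1, e2, e3, e4, Matrix.fromBlocks_one, reindex_one]
  · rw [rot, Real.cos_zero, Real.sin_zero, Complex.ofReal_one, Complex.ofReal_zero, zero_smul,
      neg_zero, one_smul, Matrix.fromBlocks_one, reindex_one]
  · intro x
    rw [rot, rot, blk, blk, reindex_mul, reindex_mul, Matrix.fromBlocks_multiply,
      Matrix.fromBlocks_multiply, Real.cos_neg, Real.sin_neg, Real.cos_pi_div_two,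
      Real.sin_pi_div_two]
    simp
  · have hc : Continuous fun t : ℝ => (((Real.cos t : ℝ) : ℂ) • (1 : Mat T.X 2)) :=
      (Complex.continuous_ofReal.comp Real.continuous_cos).smul continuous_const
    have hs : Continuous fun t : ℝ => (((Real.sin t : ℝ) : ℂ) • (1 : Mat T.X 2)) :=
      (Complex.continuous_ofReal.comp Real.continuous_sin).smul continuous_const
    exact (Continuous.matrix_fromBlocks hc hs.neg hs hc).matrix_submatrix _ _
  · intro x
    rw [blk, stab, stab, ← Matrix.diagonal_one, Matrix.fromBlocks_diagonal, Matrix.reindex_apply,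
      Matrix.submatrix_diagonal_equiv, diag_fun]

end Pool.Agent.Work.MP_1ddc88_an.TL
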