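import Pool.Agent.Work.MP_1ddc88_an.TL.Stmts

/-!
# MP_1ddc88_an, block TL, item TU1: the shift of the levels above zero
-/

set_option autoImplicit false

open Filter Topology
open scoped ENNReal Classical

namespace Pool.Agent.Work.MP_1ddc88_an.TL

namespace ITU1

/-- the shift of the levels above zero, decomposed -/
lemma sh_eq (h2 : St_ShF) (T : Tower) (k : ℤ) :
    Sh T.X (fun i => if i = 0 then 0 else k) =
      Q T.X 0 + Sh T.X (fun _ => k) - Sh T.X (fun _ => k) * Q T.X 0 := by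
  apply op_ext
  rintro ξ ⟨⟨⟨i, v⟩, m⟩, j⟩
  have e0 : (Q T.X 0 + Sh T.X (fun _ => k) - Sh T.X (fun _ => k) * Q T.X 0) ξ
      ((⟨i, v⟩, m), j) = Q T.X 0 ξ ((⟨i, v⟩, m), j) + Sh T.X (fun _ => k) ξ ((⟨i, v⟩, m), j) -
        Sh T.X (fun _ => k) (Q T.X 0 ξ) ((⟨i, v⟩, m), j) := rfl
  rw [e0, (h2 T.X _).2, (h2 T.X _).2, (h2 T.X _).2, Q_apply, Q_apply]
  by_cases hi : i = 0
  · simp [hi]
  · simp [hi]

end ITU1

open ITU1 in
/-- item TU1 -/
theorem pr_TU1 (h2 : St_ShF) (h4 : St_TLA) : St_TU1 := by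
  intro T k
  have hW := (h4 T).2.1
  have hu : u1 T k = 1 - Pav T.X + Sh T.X (fun i => if i = 0 then 0 else k) * Pav T.X := rfl
  rw [hu, hW, sh_eq h2]
  noncomm_ring

end Pool.Agent.Work.MP_1ddc88_an.TL
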