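import Pool.Agent.Work.MP_1ddc88_an.TL.Stmts

/-! # MP_1ddc88_an, block TL, item TUG: the operators `u a` form a group modulo ghosts -/

set_option autoImplicit false

open Filter Topology
open scoped ENNReal Classical

namespace Pool.Agent.Work.MP_1ddc88_an.TL

noncomputable section

namespace ITUG

/-- algebra -/
theorem alg {A : Type} [Ring A] (P S T U : A) (h1 : P * P = P) (h2 : T * P = P * T) :
    (1 - P + S * P) * (1 - P + T * P) - (1 - P + U * P) = (S * T - U) * P := by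
  have h3 : P * T * P = T * P := by rw [← h2, mul_assoc, h1]
  have e1 : (1 - P + S * P) * (1 - P + T * P) =
      1 - P - P + P * P + (T * P - P * T * P) + (S * P - S * (P * P)) + S * (P * T * P) := by
    noncomm_ring
  rw [e1, h3, h1]
  noncomm_ring

/-- a vector with at most one coordinate -/
theorem norm_single {ι : Type} (η : L2 ι) (p₀ : ι) (h : ∀ p, p ≠ p₀ → η p = 0) :
    ‖η‖ ≤ ‖η p₀‖ := by
  have h1 : ‖η‖ ^ 2 = ‖η p₀‖ ^ 2 := by
    rw [l2_norm_sq, tsum_eq_single p₀]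
    intro p hp
    rw [h p hp, norm_zero]
    norm_num
  exact le_of_eq ((pow_left_inj₀ (norm_nonneg _) (norm_nonneg _) two_ne_zero).1 h1)

theorem apply_le {ι : Type} (ξ : L2 ι) (p : ι) : ‖ξ p‖ ≤ ‖ξ‖ :=
  lp.norm_apply_le_norm (by norm_num) ξ p

/-- the average of a vector in one cell -/
theorem pav_cell (hP : St_PavF) (X : Expander) (w : Z X) (ξ : Hs X) (x : Pt X) (m k : ℕ) :
    (Pav X (proj (cell X w) ξ) ((x, m), k) ≠ 0 → x.1 = w.1.1 ∧ m = w.2 ∧ k = 0) ∧
    ‖Pav X (proj (cell X w) ξ) ((x, m), k)‖ ≤ ((X.N x.1 : ℕ) : ℝ)⁻¹ * ‖ξ‖ := by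
  have hN : 0 ≤ ((X.N x.1 : ℕ) : ℝ)⁻¹ * ‖ξ‖ := by positivity
  rw [(hP X).2]
  by_cases hk : k = 0
  · rw [if_pos hk]
    by_cases h : ∃ v : Fin (X.N x.1), (((⟨x.1, v⟩ : Pt X), m) : Z X) = w
    · obtain ⟨v₀, hv₀⟩ := h
      have hS : ∑ v : Fin (X.N x.1), proj (cell X w) ξ (((⟨x.1, v⟩ : Pt X), m), 0) =
          ξ (((⟨x.1, v₀⟩ : Pt X), m), 0) := by
        rw [Finset.sum_eq_single v₀]
        · rw [proj_apply, if_pos (show (((⟨x.1, v₀⟩ : Pt X), m), 0) ∈ cell X w from hv₀)]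
        · intro v _ hv
          rw [proj_apply, if_neg]
          intro hc
          have hc' : (((⟨x.1, v⟩ : Pt X), m) : Z X) = w := hc
          rw [← hv₀] at hc'
          have h1 := congrArg Prod.fst hc'
          exact hv (eq_of_heq (Sigma.mk.inj h1).2)
        · intro h; exact absurd (Finset.mem_univ _) h
      refine ⟨fun _ => ⟨?_, ?_, hk⟩, ?_⟩
      · rw [← hv₀]
      · rw [← hv₀]
      · show ‖((X.N x.1 : ℂ))⁻¹ *
          ∑ v : Fin (X.N x.1), proj (cell X w) ξ (((⟨x.1, v⟩ : Pt X), m), 0)‖ ≤ _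
        rw [hS, norm_mul, norm_inv, Complex.norm_natCast]
        gcongr
        exact apply_le ξ _
    · have hS : ∑ v : Fin (X.N x.1), proj (cell X w) ξ (((⟨x.1, v⟩ : Pt X), m), 0) = 0 := by
        apply Finset.sum_eq_zero
        intro v _
        rw [proj_apply, if_neg]
        intro hc
        exact h ⟨v, hc⟩
      constructor
      · intro hne
        exact absurd (show ((X.N x.1 : ℂ))⁻¹ *
          ∑ v : Fin (X.N x.1), proj (cell X w) ξ (((⟨x.1, v⟩ : Pt X), m), 0) = 0 by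
          rw [hS, mul_zero]) hne
      · show ‖((X.N x.1 : ℂ))⁻¹ *
          ∑ v : Fin (X.N x.1), proj (cell X w) ξ (((⟨x.1, v⟩ : Pt X), m), 0)‖ ≤ _
        rw [hS, mul_zero, norm_zero]
        exact hN
  · rw [if_neg hk]
    refine ⟨fun h => absurd rfl h, ?_⟩
    rw [norm_zero]
    exact hN

/-- the values of the defect -/
theorem defect (hS : St_ShF) (X : Expander) (a b : ℕ → ℤ) (η : Hs X) (x : Pt X) (m k : ℕ) :
    (Sh X a * Sh X b - Sh X (fun i => a i + b i)) η ((x, m), k) =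
      if 0 ≤ (m : ℤ) - a x.1 then 0 else
        -(if 0 ≤ (m : ℤ) - (a x.1 + b x.1) then
          η ((x, ((m : ℤ) - (a x.1 + b x.1)).toNat), k) else 0) := by
  have h1 : (Sh X a * Sh X b - Sh X (fun i => a i + b i)) η ((x, m), k) =
      Sh X a (Sh X b η) ((x, m), k) - Sh X (fun i => a i + b i) η ((x, m), k) := rfl
  rw [h1, (hS X a).2, (hS X (fun i => a i + b i)).2, (hS X b).2]
  by_cases h : 0 ≤ (m : ℤ) - a x.1
  · rw [if_pos h, if_pos h]
    have e : ((((m : ℤ) - a x.1).toNat : ℕ) : ℤ) - b x.1 = (m : ℤ) - (a x.1 + b x.1) := by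
      rw [Int.toNat_of_nonneg h]; ring
    rw [e, sub_self]
  · rw [if_neg h, if_neg h, zero_sub]

end ITUG

open ITUG in
theorem pr_TUG (h1 : St_PavF) (h2 : St_ShF) (h3 : St_ShP) (h4 : St_TFPC) (h5 : St_TFS)
    (h6 : St_TPR) : St_TUG := by
  intro T a b C ha hb
  obtain ⟨hPP, hSP, -, -, -, -, -⟩ := h3 T.X
  obtain ⟨hFP, hF1, -⟩ := h5 T
  refine ⟨⟨1, ?_⟩, ?_⟩
  · have e : u T.X a - (1 : ℂ) • (1 : Op T.X) = (Sh T.X a - 1) * Pav T.X := by
      have e1 : u T.X a = 1 - Pav T.X + Sh T.X a * Pav T.X := rfl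
      rw [e1, one_smul]
      noncomm_ring
    rw [e]
    exact h6 T _ _ (h4 T C 0 _ _ (hFP a C ha) hF1).2.2.1
  have hEq : u T.X a * u T.X b - u T.X (fun i => a i + b i) =
      (Sh T.X a * Sh T.X b - Sh T.X (fun i => a i + b i)) * Pav T.X := by
    have := alg (Pav T.X) (Sh T.X a) (Sh T.X b) (Sh T.X (fun i => a i + b i)) hPP (hSP b)
    exact this
  rw [hEq]
  have hab : ∀ i, |a i + b i| ≤ ((C + C : ℕ) : ℤ) := by
    intro i
    have := abs_add_le (a i) (b i)
    have h1 := ha i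
    have h2 := hb i
    push_cast
    linarith
  refine ⟨?_, ?_⟩
  · have f1 := (h4 T C C _ _ (hFP a C ha) (hFP b C hb)).1
    have f2 := hFP _ (C + C) hab
    exact h6 T _ _ (h4 T _ _ _ _ f1 f2).2.2.1
  · set X := T.X
    intro ε hε
    have hN : ∀ᶠ i in atTop, ((X.N i : ℕ) : ℝ)⁻¹ ≤ ε := by
      have ht : Tendsto (fun i => ((X.N i : ℕ) : ℝ)⁻¹) atTop (𝓝 0) :=
        tendsto_inv_atTop_zero.comp (tendsto_natCast_atTop_atTop.comp X.big)
      exact (ht.eventually (gt_mem_nhds hε)).mono fun i hi => le_of_lt hi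
    obtain ⟨i₀, hi₀⟩ := eventually_atTop.1 hN
    refine ⟨((Finset.range i₀).sigma fun i => (Finset.univ : Finset (Fin (X.N i)))) ×ˢ
      Finset.range C, ?_⟩
    intro z w hzw
    apply ContinuousLinearMap.opNorm_le_bound _ hε.le
    intro ξ
    set B := (Sh X a * Sh X b - Sh X (fun i => a i + b i)) * Pav X with hB
    set W := B (proj (cell X w) ξ) with hW
    show ‖proj (cell X z) W‖ ≤ ε * ‖ξ‖
    -- the values of `W`
    have hval : ∀ (x : Pt X) (m k : ℕ), W ((x, m), k) =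
        if 0 ≤ (m : ℤ) - a x.1 then 0 else
        -(if 0 ≤ (m : ℤ) - (a x.1 + b x.1) then
          Pav X (proj (cell X w) ξ) ((x, ((m : ℤ) - (a x.1 + b x.1)).toNat), k) else 0) :=
      fun x m k => defect h2 X a b (Pav X (proj (cell X w) ξ)) x m k
    have hval1 : ∀ (x : Pt X) (m k : ℕ), W ((x, m), k) ≠ 0 →
        k = 0 ∧ x.1 = w.1.1 ∧ m < C ∧ w.2 < C := by
      intro x m k hne
      rw [hval] at hne
      split_ifs at hne with g1 g2
      · exact absurd rfl hne
      · obtain ⟨e1, e2, e3⟩ := (pav_cell h1 X w ξ x _ k).1 (neg_ne_zero.1 hne)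
        have ha' := abs_le.1 (ha x.1)
        have hb' := abs_le.1 (hb x.1)
        refine ⟨e3, e1, ?_, ?_⟩
        · omega
        · omega
      · exact absurd neg_zero hne
    have hval2 : ∀ (x : Pt X) (m k : ℕ), ‖W ((x, m), k)‖ ≤ ((X.N x.1 : ℕ) : ℝ)⁻¹ * ‖ξ‖ := by
      intro x m k
      have h0 : 0 ≤ ((X.N x.1 : ℕ) : ℝ)⁻¹ * ‖ξ‖ := by positivity
      rw [hval]
      split_ifs with g1 g2
      · rw [norm_zero]; exact h0
      · rw [norm_neg]; exact (pav_cell h1 X w ξ x _ k).2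
      · rw [neg_zero, norm_zero]; exact h0
    have hproj : ∀ p, proj (cell X z) W p = if p.1 = z then W p else 0 := by
      intro p
      rw [proj_apply]
      by_cases hc : p.1 = z
      · rw [if_pos hc, if_pos (show p ∈ cell X z from hc)]
      · rw [if_neg hc, if_neg (show ¬ p ∈ cell X z from hc)]
    have hn := norm_single (proj (cell X z) W) (z, 0) (by
      intro p hp
      rw [hproj]
      split_ifs with hc
      · by_contra hne
        obtain ⟨⟨x, m⟩, k⟩ := p
        have hk := (hval1 x m k hne).1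
        apply hp
        have hc' : (x, m) = z := hc
        rw [hk, hc']
      · rfl)
    refine hn.trans ?_
    rw [hproj, if_pos rfl]
    by_cases hne : W (z, 0) = 0
    · rw [hne, norm_zero]; positivity
    · obtain ⟨x, m⟩ := z
      obtain ⟨-, hxw, hm, hw2⟩ := hval1 x m 0 hne
      have hi : i₀ ≤ x.1 := by
        by_contra hlt
        have hlt' : x.1 < i₀ := not_le.1 hlt
        rcases hzw with hz | hz
        · apply hz
          rw [Finset.mem_product, Finset.mem_sigma]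
          exact ⟨⟨Finset.mem_range.2 hlt', Finset.mem_univ _⟩, Finset.mem_range.2 hm⟩
        · apply hz
          rw [Finset.mem_product, Finset.mem_sigma]
          exact ⟨⟨Finset.mem_range.2 (by rw [← hxw]; exact hlt'), Finset.mem_univ _⟩,
            Finset.mem_range.2 hw2⟩
      refine (hval2 x m 0).trans ?_
      gcongr
      exact hi₀ _ hi

end

end Pool.Agent.Work.MP_1ddc88_an.TL
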