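import Pool.Agent.Work.MP_1ddc88_an.TL.Stmts
import Pool.Agent.Work.MP_1ddc88_an.I_Conv

/-!
# MP_1ddc88_an, block TL, item TV
-/

set_option autoImplicit false

open Filter Topology
open scoped ENNReal Classical

namespace Pool.Agent.Work.MP_1ddc88_an.TL

noncomputable section

namespace ITV

/-- the exponents of `v k` -/
def e (k : ℤ) : ℕ → ℤ := fun i => if i = 0 then k else 0

theorem neg_e (k : ℤ) : (fun i => -(e k) i) = e (-k) := by
  funext i
  show -(if i = 0 then k else 0) = if i = 0 then -k else 0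
  split_ifs
  · rfl
  · exact neg_zero

theorem add_e (k : ℤ) : (fun i => e k i + e (-k) i) = fun _ => (0 : ℤ) := by
  funext i
  rw [← neg_e]
  ring

theorem add_e' (k : ℤ) : (fun i => e (-k) i + e k i) = fun _ => (0 : ℤ) := by
  funext i
  rw [← neg_e]
  ring

theorem u_zero (h3 : St_ShP) (X : Expander) : u X (fun _ => 0) = 1 := by
  obtain ⟨-, -, h0, -⟩ := h3 X
  have : u X (fun _ => 0) = 1 - Pav X + Sh X (fun _ => 0) * Pav X := rfl
  rw [this, h0, one_mul]
  abel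

theorem diff (h3 : St_ShP) (X : Expander) (a b : ℕ → ℤ) (hab : (fun i => a i + b i) = fun _ => 0) :
    u X a * u X b - 1 = (Sh X a * Sh X b - Sh X (fun i => a i + b i)) * Pav X := by
  obtain ⟨hPP, hSP, -⟩ := h3 X
  have := IUG.alg (Pav X) (Sh X a) (Sh X b) (Sh X (fun i => a i + b i)) hPP (hSP b)
  have h2 : u X a * u X b - u X (fun i => a i + b i) =
      (Sh X a * Sh X b - Sh X (fun i => a i + b i)) * Pav X := this
  rw [← h2, hab, u_zero h3]

end ITV

open ITV in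
theorem pr_TV (h1 : St_PavF) (h2 : St_ShF) (h3 : St_ShP) : St_TV := by
  intro T k hk
  have hv : ∀ j : ℤ, v T j = u T.X (e j) := fun j => rfl
  refine ⟨?_, ?_, ?_⟩
  · rw [hv, hv]
    have hd := diff h3 T.X (e (-k)) (e k) (add_e' k)
    have hz : (Sh T.X (e (-k)) * Sh T.X (e k) - Sh T.X (fun i => e (-k) i + e k i)) * Pav T.X
        = 0 := by
      apply op_ext
      rintro ξ ⟨⟨x, m⟩, k'⟩
      have hdef := IUG.defect h2 T.X (e (-k)) (e k) (Pav T.X ξ) x m k'
      have hc : 0 ≤ (m : ℤ) - e (-k) x.1 := by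
        unfold e
        split_ifs <;> omega
      rw [if_pos hc] at hdef
      exact hdef
    rw [hz] at hd
    exact sub_eq_zero.1 hd
  · rw [hv, hv]
    intro hcon
    have hd := diff h3 T.X (e k) (e (-k)) (add_e k)
    rw [hcon, sub_self] at hd
    let w : Fin (T.X.N 0) := T.X.base 0
    let p0 : Ix T.X := ((⟨0, w⟩, 0), 0)
    let δ : Hs T.X := lp.single 2 p0 (1 : ℂ)
    have hδ : ∀ p : Ix T.X, δ p = if p = p0 then 1 else 0 := by
      intro p
      show (lp.single 2 p0 (1 : ℂ) : Hs T.X) p = _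
      rw [lp.single_apply, Pi.single_apply]
    have hdef := IUG.defect h2 T.X (e k) (e (-k)) (Pav T.X δ) ⟨0, w⟩ 0 0
    have hval : (0 : Op T.X) δ ((⟨0, w⟩, 0), 0) =
        (Sh T.X (e k) * Sh T.X (e (-k)) - Sh T.X (fun i => e k i + e (-k) i)) (Pav T.X δ)
          ((⟨0, w⟩, 0), 0) := congrArg (fun S : Op T.X => (S δ) ((⟨0, w⟩, 0), 0)) hd
    rw [hdef] at hval
    have hc1 : ¬ 0 ≤ ((0 : ℕ) : ℤ) - e k (⟨0, w⟩ : Pt T.X).1 := by
      show ¬ 0 ≤ ((0 : ℕ) : ℤ) - (if (0 : ℕ) = 0 then k else 0)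
      rw [if_pos rfl]
      push_cast
      omega
    have hc2 : ((0 : ℕ) : ℤ) - (e k (⟨0, w⟩ : Pt T.X).1 + e (-k) (⟨0, w⟩ : Pt T.X).1) = 0 := by
      show ((0 : ℕ) : ℤ) - ((if (0 : ℕ) = 0 then k else 0) + (if (0 : ℕ) = 0 then -k else 0)) = 0
      rw [if_pos rfl, if_pos rfl]
      push_cast
      omega
    rw [if_neg hc1, hc2, if_pos le_rfl] at hval
    have hl : (0 : Op T.X) δ ((⟨0, w⟩, 0), 0) = 0 := rfl
    have hr : Pav T.X δ ((⟨0, w⟩, Int.toNat 0), 0) = (T.X.N 0 : ℂ)⁻¹ := by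
      rw [(h1 T.X).2, if_pos rfl]
      show (T.X.N 0 : ℂ)⁻¹ * ∑ z : Fin (T.X.N 0), δ ((⟨0, z⟩, 0), 0) = _
      have e2 : ∑ z : Fin (T.X.N 0), δ ((⟨0, z⟩, 0), 0) = 1 := by
        rw [Finset.sum_eq_single w]
        · rw [hδ, if_pos rfl]
        · intro z _ hz
          rw [hδ, if_neg]
          intro he
          apply hz
          have h5 : (⟨0, z⟩ : Pt T.X) = ⟨0, w⟩ := congrArg (fun p : Ix T.X => p.1.1) he
          exact eq_of_heq (Sigma.mk.inj h5).2
        · intro hn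
          exact absurd (Finset.mem_univ w) hn
      rw [e2, mul_one]
    rw [hl, hr] at hval
    have hN : (T.X.N 0 : ℂ) ≠ 0 := by
      have : 0 < T.X.N 0 := lt_of_le_of_lt (Nat.zero_le _) w.isLt
      exact_mod_cast this.ne'
    exact inv_ne_zero hN (neg_eq_zero.1 hval.symm)
  · rw [hv, hv, ← neg_e]
    refine IConv.cw h1 h2 h3 T.X (e k) k.toNat 1 ?_ ?_ (u_zero h3 T.X)
    · intro i
      show abs (if i = 0 then k else 0) ≤ (k.toNat : ℤ)
      split_ifs
      · rw [abs_of_pos hk]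
        exact Int.self_le_toNat k
      · rw [abs_zero]
        exact Int.natCast_nonneg _
    · intro i hi
      show (if i = 0 then k else 0) = 0
      rw [if_neg (by omega)]

end

end Pool.Agent.Work.MP_1ddc88_an.TL
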