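import Pool.Agent.Work.MP_1ddc88_an.TL.Stmts

/-!
# MP_1ddc88_an, block TL, item TWR (helper37)
-/

set_option autoImplicit false

open Filter Topology
open scoped ENNReal Classical

namespace Pool.Agent.Work.MP_1ddc88_an.TL

noncomputable section

namespace ITWR

theorem one_prop (T : Tower) : FinProp T 0 (1 : Op T.X) := by
  intro ξ p hp
  refine ⟨p, hp, ?_⟩
  unfold dT
  rw [SimpleGraph.dist_self, Nat.sub_self]

end ITWR

theorem pr_TWR (h1 : St_TFL) (h2 : St_TPR) : St_TWR := by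
  intro T
  obtain ⟨ha, hb⟩ := h1 T
  refine ⟨h2 T 1 _ ha, h2 T 1 _ hb, ?_⟩
  have h := h2 T 0 1 (ITWR.one_prop T)
  rwa [one_mul] at h

end

end Pool.Agent.Work.MP_1ddc88_an.TL
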