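import Pool.Agent.Work.MP_1ddc88_an.TL.Stmts

/-!
# MP_1ddc88_an, block TL, item XCay (helper96)
-/

set_option autoImplicit false

open Filter Topology
open scoped RealInnerProductSpace Classical

namespace Pool.Agent.Work.MP_1ddc88_an.TL

namespace IXCay

/-- The Cayley graph of `x`. -/
def cay {G : Type} [Group G] (x : Fin 3 → G) (hx : ∀ i, x i ^ 5 = 1) :
    SimpleGraph G where
  Adj v w := v ≠ w ∧ ∃ i : Fin 3, ∃ k : Fin 5, w = v * x i ^ (k : ℕ)
  symm := by
    constructor
    rintro v w ⟨hne, i, k, hk⟩
    refine ⟨hne.symm, i, ?_⟩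
    have hk0 : (k : ℕ) ≠ 0 := by
      intro h0
      rw [h0, pow_zero, mul_one] at hk
      exact hne hk.symm
    have hk5 : (k : ℕ) < 5 := k.isLt
    refine ⟨⟨5 - (k : ℕ), by omega⟩, ?_⟩
    rw [hk, mul_assoc, ← pow_add]
    have : (k : ℕ) + (5 - (k : ℕ)) = 5 := by omega
    simp only [this, hx, mul_one]
  loopless := ⟨fun v hv => hv.1 rfl⟩

end IXCay

theorem pr_XCay (h1 : St_ESpec) : St_XCay := by
  intro G _ _ x hx
  have key : ∀ (g : G) (i : Fin 3) (k : ℕ), k < 5 → g * x i ^ k ≠ g →
      (IXCay.cay x hx.pow).Adj g (g * x i ^ k) := by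
    intro g i k hk hne
    exact ⟨fun h => hne h.symm, i, ⟨k, hk⟩, rfl⟩
  refine ⟨IXCay.cay x hx.pow, ?_, ?_, ?_⟩
  · have : Nonempty G := ⟨1⟩
    refine SimpleGraph.Connected.mk ?_
    let H : Subgroup G :=
      { carrier := {h | ∀ g, (IXCay.cay x hx.pow).Reachable g (g * h)}
        one_mem' := by
          intro g
          rw [mul_one]
        mul_mem' := by
          intro a b ha hb g
          have := (ha g).trans (hb (g * a))
          rwa [mul_assoc] at this
        inv_mem' := by
          intro a ha g
          have := ha (g * a⁻¹)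
          rw [inv_mul_cancel_right] at this
          exact this.symm }
    have hH : Subgroup.closure (Set.range x) ≤ H := by
      rw [Subgroup.closure_le]
      rintro _ ⟨i, rfl⟩ g
      by_cases hgi : g * x i = g
      · rw [hgi]
      · have := key g i 1 (by norm_num) (by rw [pow_one]; exact hgi)
        rw [pow_one] at this
        exact this.reachable
    rw [hx.gen] at hH
    intro v w
    have h3 : v⁻¹ * w ∈ H := hH (Subgroup.mem_top _)
    have h4 := h3 v
    rwa [mul_inv_cancel_left] at h4
  · intro v
    have hsub : {w | (IXCay.cay x hx.pow).Adj v w} ⊆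
        (((Finset.univ : Finset (Fin 3 × Fin 5)).image
          (fun p => v * x p.1 ^ (p.2 : ℕ)) : Finset G) : Set G) := by
      rintro w ⟨_, i, k, hk⟩
      simp only [Finset.coe_image, Finset.coe_univ, Set.image_univ, Set.mem_range]
      exact ⟨(i, k), hk.symm⟩
    calc {w | (IXCay.cay x hx.pow).Adj v w}.ncard
        ≤ Set.ncard (((Finset.univ : Finset (Fin 3 × Fin 5)).image
          (fun p => v * x p.1 ^ (p.2 : ℕ)) : Finset G) : Set G) :=
          Set.ncard_le_ncard hsub (Finset.finite_toSet _)
      _ = ((Finset.univ : Finset (Fin 3 × Fin 5)).image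
          (fun p => v * x p.1 ^ (p.2 : ℕ))).card := Set.ncard_coe_finset _
      _ ≤ (Finset.univ : Finset (Fin 3 × Fin 5)).card := Finset.card_image_le
      _ = 15 := by simp
  · intro f hf
    have h3 := h1 G x hx f hf
    obtain ⟨D, hD⟩ : ∃ D : G → ℝ, ∀ v, D v =
        ∑ w, if (IXCay.cay x hx.pow).Adj v w then (f v - f w) ^ 2 else 0 := ⟨_, fun v => rfl⟩
    have hD0 : ∀ v, 0 ≤ D v := by
      intro v
      rw [hD]
      apply Finset.sum_nonneg
      intro w _
      split_ifs
      · positivity
      · exact le_rfl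
    have h4 : ∀ (i : Fin 3) (k : ℕ), k < 5 → ∀ g, (f g - f (g * x i ^ k)) ^ 2 ≤ D g := by
      intro i k hk g
      by_cases hgi : g * x i ^ k = g
      · rw [hgi, sub_self]
        simpa using hD0 g
      · have h5 := key g i k hk hgi
        rw [hD]
        have h6 := Finset.single_le_sum (f := fun w =>
          if (IXCay.cay x hx.pow).Adj g w then (f g - f w) ^ 2 else 0)
          (s := Finset.univ) (fun w _ => by
            split_ifs
            · positivity
            · exact le_rfl) (Finset.mem_univ (g * x i ^ k))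
        rwa [if_pos h5] at h6
    have h5 : ∑ i : Fin 3, ∑ k ∈ Finset.range 5, ∑ g, (f g - f (g * x i ^ k)) ^ 2 ≤
        ∑ i : Fin 3, ∑ k ∈ Finset.range 5, ∑ g, D g := by
      apply Finset.sum_le_sum
      intro i _
      apply Finset.sum_le_sum
      intro k hk
      apply Finset.sum_le_sum
      intro g _
      exact h4 i k (Finset.mem_range.1 hk) g
    have h7 : ∑ v, ∑ w, (if (IXCay.cay x hx.pow).Adj v w then (f v - f w) ^ 2 else 0) =
        ∑ v, D v := Finset.sum_congr rfl (fun v _ => (hD v).symm)
    rw [h7]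
    simp only [Finset.sum_const, Finset.card_univ, Finset.card_range, Fintype.card_fin,
      nsmul_eq_mul] at h5
    push_cast at h5
    have h8 := h3.trans h5
    linarith

end Pool.Agent.Work.MP_1ddc88_an.TL
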