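import Pool.Agent.Work.MP_1ddc88_an.TL.Stmts

/-!
# MP_1ddc88_an, block TL, item XGrp: congruence subgroups

The lemmas on elementary matrices are those of item EGrp of block BC, over a commutative ring.
-/

set_option autoImplicit false

open Filter Topology
open scoped ENNReal Classical commutatorElement

namespace Pool.Agent.Work.MP_1ddc88_an.TL

noncomputable section

namespace IXGrp

theorem ring_comm {A : Type} [Ring A] (u v : A) (huu : u * u = 0) (hvv : v * v = 0)
    (hvu : v * u = 0) : (1 + u) * (1 + v) * (1 - u) * (1 - v) = 1 + u * v := by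
  have h1 : (1 + u) * (1 + v) * (1 - u) = 1 + v + u * v - u * u - v * u - u * (v * u) := by
    noncomm_ring
  have h2 : (1 + v + u * v) * (1 - v) = 1 + u * v - v * v - u * (v * v) := by noncomm_ring
  rw [h1, huu, hvu, mul_zero, sub_zero, sub_zero, sub_zero, h2, hvv, mul_zero, sub_zero, sub_zero]

theorem ring_commute {A : Type} [Ring A] (u v : A) (huv : u * v = 0) (hvu : v * u = 0) :
    (1 + u) * (1 + v) = (1 + v) * (1 + u) := by
  have h1 : (1 + u) * (1 + v) = 1 + u + v + u * v := by noncomm_ring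
  have h2 : (1 + v) * (1 + u) = 1 + u + v + v * u := by noncomm_ring
  rw [h1, h2, huv, hvu]

variable {K : Type} [CommRing K]

/-- the elementary matrix `1 + a e_ij` -/
def E (i j : Fin 3) (h : i ≠ j) (a : K) : (Matrix (Fin 3) (Fin 3) K)ˣ where
  val := 1 + Matrix.single i j a
  inv := 1 - Matrix.single i j a
  val_inv := by
    have h0 : Matrix.single i j a * Matrix.single i j a = 0 :=
      Matrix.single_mul_single_of_ne a i j i h.symm a
    have h1 : (1 + Matrix.single i j a) * (1 - Matrix.single i j a) =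
        1 - Matrix.single i j a * Matrix.single i j a := by noncomm_ring
    rw [h1, h0, sub_zero]
  inv_val := by
    have h0 : Matrix.single i j a * Matrix.single i j a = 0 :=
      Matrix.single_mul_single_of_ne a i j i h.symm a
    have h1 : (1 - Matrix.single i j a) * (1 + Matrix.single i j a) =
        1 - Matrix.single i j a * Matrix.single i j a := by noncomm_ring
    rw [h1, h0, sub_zero]

theorem E_val (i j : Fin 3) (h : i ≠ j) (a : K) :
    (E i j h a : Matrix (Fin 3) (Fin 3) K) = 1 + Matrix.single i j a := rfl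

theorem E_inv_val (i j : Fin 3) (h : i ≠ j) (a : K) :
    ((E i j h a)⁻¹ : (Matrix (Fin 3) (Fin 3) K)ˣ).val = 1 - Matrix.single i j a := rfl

theorem E_mul (i j : Fin 3) (h : i ≠ j) (a b : K) : E i j h a * E i j h b = E i j h (a + b) := by
  apply Units.ext
  rw [Units.val_mul, E_val, E_val, E_val]
  have h0 : Matrix.single i j a * Matrix.single i j b = 0 :=
    Matrix.single_mul_single_of_ne a i j i h.symm b
  have h1 : (1 + Matrix.single i j a) * (1 + Matrix.single i j b) =
      1 + (Matrix.single i j a + Matrix.single i j b) +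
        Matrix.single i j a * Matrix.single i j b := by noncomm_ring
  rw [h1, h0, add_zero, Matrix.single_add]

theorem E_zero (i j : Fin 3) (h : i ≠ j) : E i j h (0 : K) = 1 := by
  apply Units.ext
  rw [E_val, Matrix.single_zero, add_zero, Units.val_one]

theorem E_pow (i j : Fin 3) (h : i ≠ j) (a : K) (n : ℕ) :
    E i j h a ^ n = E i j h ((n : K) * a) := by
  induction n with
  | zero => rw [pow_zero, Nat.cast_zero, zero_mul, E_zero]
  | succ n ih => rw [pow_succ, ih, E_mul]; congr 1; push_cast; ring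

theorem E_comm (i j k : Fin 3) (hij : i ≠ j) (hjk : j ≠ k) (hik : i ≠ k) (a b : K) :
    ⁅E i j hij a, E j k hjk b⁆ = E i k hik (a * b) := by
  rw [commutatorElement_def]
  apply Units.ext
  rw [Units.val_mul, Units.val_mul, Units.val_mul, E_inv_val, E_inv_val, E_val, E_val, E_val,
    ring_comm _ _ (Matrix.single_mul_single_of_ne a i j i hij.symm a)
      (Matrix.single_mul_single_of_ne b j k j hjk.symm b)
      (Matrix.single_mul_single_of_ne b j k i hik.symm a),
    Matrix.single_mul_single_same]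

theorem E_commute (i j k l : Fin 3) (hij : i ≠ j) (hkl : k ≠ l) (hjk : j ≠ k) (hli : l ≠ i)
    (a b : K) : Commute (E i j hij a) (E k l hkl b) := by
  apply Units.ext
  rw [Units.val_mul, Units.val_mul, E_val, E_val]
  exact ring_commute _ _ (Matrix.single_mul_single_of_ne a i j k hjk b)
    (Matrix.single_mul_single_of_ne b k l i hli a)

theorem E_inj (i j : Fin 3) (h : i ≠ j) (a b : K) (hab : E i j h a = E i j h b) : a = b := by
  have h1 : (E i j h a : Matrix (Fin 3) (Fin 3) K) i j =
      (E i j h b : Matrix (Fin 3) (Fin 3) K) i j := by rw [hab]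
  rw [E_val, E_val, Matrix.add_apply, Matrix.add_apply, Matrix.single_apply_same,
    Matrix.single_apply_same] at h1
  exact add_left_cancel h1

/-- the three generators -/
def Xg (t : K) : Fin 3 → (Matrix (Fin 3) (Fin 3) K)ˣ
  | 0 => E 0 1 (by decide) 1
  | 1 => E 1 2 (by decide) 1
  | 2 => E 2 0 (by decide) t

/-- the commutator condition for a pair -/
def CC {G : Type} [Group G] (x y : G) : Prop := Commute ⁅x, y⁆ x ∧ Commute ⁅x, y⁆ y

theorem CC.symm {G : Type} [Group G] {x y : G} (h : CC x y) : CC y x := by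
  unfold CC
  rw [← commutatorElement_inv]
  exact ⟨h.2.inv_left, h.1.inv_left⟩

theorem CC_E (i j k : Fin 3) (hij : i ≠ j) (hjk : j ≠ k) (hik : i ≠ k) (a b : K) :
    CC (E i j hij a) (E j k hjk b) := by
  unfold CC
  rw [E_comm i j k hij hjk hik]
  exact ⟨E_commute i k i j hik hij hik.symm hij.symm _ _,
    E_commute i k j k hik hjk hjk.symm hik.symm _ _⟩

theorem CC_X (t : K) : ∀ i j, i ≠ j → CC (Xg t i) (Xg t j) := by
  have h01 : CC (Xg t 0) (Xg t 1) := CC_E 0 1 2 (by decide) (by decide) (by decide) 1 1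
  have h12 : CC (Xg t 1) (Xg t 2) := CC_E 1 2 0 (by decide) (by decide) (by decide) 1 t
  have h20 : CC (Xg t 2) (Xg t 0) := CC_E 2 0 1 (by decide) (by decide) (by decide) t 1
  intro i j hij
  fin_cases i <;> fin_cases j
  · exact absurd rfl hij
  · exact h01
  · exact h20.symm
  · exact h01.symm
  · exact absurd rfl hij
  · exact h12
  · exact h20
  · exact h12.symm
  · exact absurd rfl hij

theorem X_pow [CharP K 5] (t : K) (i : Fin 3) : Xg t i ^ 5 = 1 := by
  have h5 : ((5 : ℕ) : K) = 0 := CharP.cast_eq_zero K 5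
  fin_cases i
  · show E 0 1 (by decide) 1 ^ 5 = 1
    rw [E_pow, h5, zero_mul, E_zero]
  · show E 1 2 (by decide) 1 ^ 5 = 1
    rw [E_pow, h5, zero_mul, E_zero]
  · show E 2 0 (by decide) t ^ 5 = 1
    rw [E_pow, h5, zero_mul, E_zero]

theorem comm_mem {G : Type} [Group G] (H : Subgroup G) {x y : G} (hx : x ∈ H) (hy : y ∈ H) :
    ⁅x, y⁆ ∈ H := by
  rw [commutatorElement_def]
  exact H.mul_mem (H.mul_mem (H.mul_mem hx hy) (H.inv_mem hx)) (H.inv_mem hy)

/-- the powers of `t` -/
theorem pow_mem (t : K) (k : ℕ) :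
    E 0 1 (by decide) (t ^ k) ∈ Subgroup.closure (Set.range (Xg t)) := by
  have hx : ∀ i, Xg t i ∈ Subgroup.closure (Set.range (Xg t)) := fun i =>
    Subgroup.subset_closure ⟨i, rfl⟩
  have h0 : E 0 1 (by decide) 1 ∈ Subgroup.closure (Set.range (Xg t)) := hx 0
  have h1 : E 1 2 (by decide) 1 ∈ Subgroup.closure (Set.range (Xg t)) := hx 1
  have h2 : E 2 0 (by decide) t ∈ Subgroup.closure (Set.range (Xg t)) := hx 2
  have h21 : E 2 1 (by decide) t ∈ Subgroup.closure (Set.range (Xg t)) := by
    have h := comm_mem _ h2 h0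
    rw [E_comm 2 0 1 (by decide) (by decide) (by decide), mul_one] at h
    exact h
  induction k with
  | zero => rw [pow_zero]; exact h0
  | succ k ih =>
    have h02 := comm_mem _ ih h1
    rw [E_comm 0 1 2 (by decide) (by decide) (by decide), mul_one] at h02
    have h01 := comm_mem _ h02 h21
    rw [E_comm 0 2 1 (by decide) (by decide) (by decide), ← pow_succ] at h01
    exact h01


/-! ## The polynomial ring -/

/-- the ring of polynomials over the field with five elements -/
abbrev R : Type := Polynomial (ZMod 5)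

/-- the group -/
abbrev Gam : Subgroup (Matrix (Fin 3) (Fin 3) R)ˣ :=
  Subgroup.closure (Set.range (Xg (Polynomial.X : R)))

/-- the reduction modulo `X ^ i` -/
def red (i : ℕ) : Gam →* (Matrix (Fin 3) (Fin 3) (R ⧸ Ideal.span {(Polynomial.X : R) ^ i}))ˣ :=
  (Units.map ((Ideal.Quotient.mk (Ideal.span {(Polynomial.X : R) ^ i})).mapMatrix :
    Matrix (Fin 3) (Fin 3) R →+* Matrix (Fin 3) (Fin 3) (R ⧸ Ideal.span {(Polynomial.X : R) ^ i})
    ).toMonoidHom).comp Gam.subtype

/-- the congruence subgroups -/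
def Ns (i : ℕ) : Subgroup Gam := (red i).ker

theorem mem_Ns (i : ℕ) (g : Gam) : g ∈ Ns i ↔ ∀ a b,
    (Polynomial.X : R) ^ i ∣ (g.1.val - 1) a b := by
  rw [Ns, MonoidHom.mem_ker]
  constructor
  · intro h a b
    have h1 : (red i g).val a b = (1 : Matrix (Fin 3) (Fin 3)
        (R ⧸ Ideal.span {(Polynomial.X : R) ^ i})) a b := by
      rw [h, Units.val_one]
    have h2 : (red i g).val a b =
        Ideal.Quotient.mk (Ideal.span {(Polynomial.X : R) ^ i}) (g.1.val a b) := rfl
    have h3 : (1 : Matrix (Fin 3) (Fin 3) (R ⧸ Ideal.span {(Polynomial.X : R) ^ i})) a b =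
        Ideal.Quotient.mk (Ideal.span {(Polynomial.X : R) ^ i})
          ((1 : Matrix (Fin 3) (Fin 3) R) a b) := by
      rw [Matrix.one_apply, Matrix.one_apply]
      split_ifs
      · rw [map_one]
      · rw [map_zero]
    rw [h2, h3, Ideal.Quotient.eq, Ideal.mem_span_singleton] at h1
    exact h1
  · intro h
    apply Units.ext
    ext a b
    have h2 : (red i g).val a b =
        Ideal.Quotient.mk (Ideal.span {(Polynomial.X : R) ^ i}) (g.1.val a b) := rfl
    have h3 : (1 : Matrix (Fin 3) (Fin 3) (R ⧸ Ideal.span {(Polynomial.X : R) ^ i})) a b =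
        Ideal.Quotient.mk (Ideal.span {(Polynomial.X : R) ^ i})
          ((1 : Matrix (Fin 3) (Fin 3) R) a b) := by
      rw [Matrix.one_apply, Matrix.one_apply]
      split_ifs
      · rw [map_one]
      · rw [map_zero]
    rw [Units.val_one, h2, h3, Ideal.Quotient.eq, Ideal.mem_span_singleton]
    exact h a b

theorem Ns_zero : Ns 0 = ⊤ := by
  rw [eq_top_iff]
  intro g _
  rw [mem_Ns]
  intro a b
  rw [pow_zero]
  exact one_dvd _

theorem Ns_le (i : ℕ) : Ns (i + 1) ≤ Ns i := by
  intro g hg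
  rw [mem_Ns] at hg ⊢
  exact fun a b => (pow_dvd_pow _ (Nat.le_succ i)).trans (hg a b)

/-- two elements with the same leading coefficients -/
theorem lead (i : ℕ) (g h : Gam) (hg : g ∈ Ns i) (hh : h ∈ Ns i)
    (he : ∀ a b, ((g.1.val - 1) a b).coeff i = ((h.1.val - 1) a b).coeff i) :
    g⁻¹ * h ∈ Ns (i + 1) := by
  rw [mem_Ns] at hg hh ⊢
  have h1 : ∀ a b, (Polynomial.X : R) ^ (i + 1) ∣ (h.1.val - g.1.val) a b := by
    intro a b
    rw [Polynomial.X_pow_dvd_iff]
    intro d hd
    have e : (h.1.val - g.1.val) a b = (h.1.val - 1) a b - (g.1.val - 1) a b := by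
      simp only [Matrix.sub_apply]
      ring
    rw [e, Polynomial.coeff_sub]
    rcases Nat.lt_succ_iff_lt_or_eq.1 hd with hd' | hd'
    · rw [(Polynomial.X_pow_dvd_iff.1 (hg a b)) d hd', (Polynomial.X_pow_dvd_iff.1 (hh a b)) d hd',
        sub_zero]
    · rw [hd', he a b, sub_self]
  intro a b
  have e : (g⁻¹ * h).1.val - 1 = (g⁻¹).1.val * (h.1.val - g.1.val) := by
    have e1 : (g⁻¹).1.val * g.1.val = 1 := by
      have : (g⁻¹ * g).1.val = 1 := by rw [inv_mul_cancel]; rfl
      exact this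
    have e2 : (g⁻¹ * h).1.val = (g⁻¹).1.val * h.1.val := rfl
    rw [e2, Matrix.mul_sub, e1]
  rw [e, Matrix.mul_apply]
  exact Finset.dvd_sum fun c _ => (h1 c b).mul_left _

/-- the leading coefficients -/
def lc (i : ℕ) (g : Ns i) : Fin 3 → Fin 3 → ZMod 5 := fun a b => ((g.1.1.val - 1) a b).coeff i

theorem lc_inj (i : ℕ) : Function.Injective
    (fun q : (Ns i) ⧸ (Ns (i + 1)).subgroupOf (Ns i) => lc i q.out) := by
  intro q q' hqq
  have h1 : (q.out)⁻¹ * q'.out ∈ (Ns (i + 1)).subgroupOf (Ns i) := by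
    rw [Subgroup.mem_subgroupOf]
    exact lead i q.out.1 q'.out.1 q.out.2 q'.out.2 fun a b => congrFun (congrFun hqq a) b
  have h2 := QuotientGroup.eq.2 h1
  rw [QuotientGroup.out_eq', QuotientGroup.out_eq'] at h2
  exact h2

theorem fin_rel (i : ℕ) : Finite ((Ns i) ⧸ (Ns (i + 1)).subgroupOf (Ns i)) :=
  Finite.of_injective _ (lc_inj i)

theorem rel_le (i : ℕ) : (Ns (i + 1)).relIndex (Ns i) ≤ 5 ^ 9 := by
  have h1 : (Ns (i + 1)).relIndex (Ns i) = Nat.card ((Ns i) ⧸ (Ns (i + 1)).subgroupOf (Ns i)) := rfl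
  rw [h1]
  refine (Nat.card_le_card_of_injective _ (lc_inj i)).trans (le_of_eq ?_)
  rw [Nat.card_eq_fintype_card]
  simp

theorem rel_ne (i : ℕ) : (Ns (i + 1)).relIndex (Ns i) ≠ 0 := by
  have h := fin_rel i
  have h1 : (Ns (i + 1)).relIndex (Ns i) = Nat.card ((Ns i) ⧸ (Ns (i + 1)).subgroupOf (Ns i)) := rfl
  rw [h1]
  exact Nat.card_pos.ne'

theorem index_ne (i : ℕ) : (Ns i).index ≠ 0 := by
  induction i with
  | zero =>
    rw [Ns_zero, Subgroup.index_top]
    exact one_ne_zero
  | succ i ih =>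
    rw [← Subgroup.relIndex_mul_index (Ns_le i)]
    exact mul_ne_zero (rel_ne i) ih

theorem index_ge (i : ℕ) : i ≤ (Ns i).index := by
  have hfin : Finite (Gam ⧸ Ns i) := by
    have h := index_ne i
    rw [Subgroup.index] at h
    exact Nat.finite_of_card_ne_zero h
  have hinj : Function.Injective (fun l : Fin i =>
      ((⟨E 0 1 (by decide) ((Polynomial.X : R) ^ (l : ℕ)), pow_mem _ l⟩ : Gam) : Gam ⧸ Ns i)) := by
    intro l m hlm
    have h1 := QuotientGroup.eq.1 hlm
    rw [mem_Ns] at h1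
    have h2 := h1 0 1
    have e : (((⟨E 0 1 (by decide) ((Polynomial.X : R) ^ (l : ℕ)), pow_mem _ l⟩ : Gam)⁻¹ *
        (⟨E 0 1 (by decide) ((Polynomial.X : R) ^ (m : ℕ)), pow_mem _ m⟩ : Gam)).1.val - 1) 0 1 =
        (Polynomial.X : R) ^ (m : ℕ) - (Polynomial.X : R) ^ (l : ℕ) := by
      have e1 : ((⟨E 0 1 (by decide) ((Polynomial.X : R) ^ (l : ℕ)), pow_mem _ l⟩ : Gam)⁻¹ *
        (⟨E 0 1 (by decide) ((Polynomial.X : R) ^ (m : ℕ)), pow_mem _ m⟩ : Gam)).1.val =
        (1 - Matrix.single 0 1 ((Polynomial.X : R) ^ (l : ℕ))) *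
          (1 + Matrix.single 0 1 ((Polynomial.X : R) ^ (m : ℕ))) := rfl
      have e2 : (1 - Matrix.single 0 1 ((Polynomial.X : R) ^ (l : ℕ))) *
          (1 + Matrix.single 0 1 ((Polynomial.X : R) ^ (m : ℕ))) - 1 =
          Matrix.single (0 : Fin 3) (1 : Fin 3) ((Polynomial.X : R) ^ (m : ℕ)) -
            Matrix.single 0 1 ((Polynomial.X : R) ^ (l : ℕ)) -
            Matrix.single 0 1 ((Polynomial.X : R) ^ (l : ℕ)) *
              Matrix.single 0 1 ((Polynomial.X : R) ^ (m : ℕ)) := by
        noncomm_ring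
      rw [e1, e2, Matrix.single_mul_single_of_ne _ _ _ _ (by decide), sub_zero, Matrix.sub_apply,
        Matrix.single_apply_same, Matrix.single_apply_same]
    rw [e] at h2
    have h3 := Polynomial.X_pow_dvd_iff.1 h2 m m.2
    rw [Polynomial.coeff_sub, Polynomial.coeff_X_pow_self, Polynomial.coeff_X_pow] at h3
    by_contra hne
    have hne' : (m : ℕ) ≠ (l : ℕ) := fun h => hne (Fin.ext h.symm)
    rw [if_neg hne', sub_zero] at h3
    exact (by decide : (1 : ZMod 5) ≠ 0) h3
  have h := Nat.card_le_card_of_injective _ hinj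
  rw [Nat.card_eq_fintype_card, Fintype.card_fin] at h
  exact h

end IXGrp

open IXGrp in
theorem pr_XGrp : St_XGrp := by
  have hx : ∀ i, Xg (Polynomial.X : R) i ∈ Gam := fun i => Subgroup.subset_closure ⟨i, rfl⟩
  refine ⟨Gam, inferInstance, fun i => ⟨Xg (Polynomial.X : R) i, hx i⟩, Ns, ⟨?_, ?_, ?_⟩,
    Ns_zero, fun i => ?_, Ns_le, index_ne, rel_le,
    tendsto_atTop_mono index_ge tendsto_id⟩
  · intro i
    apply Subtype.ext
    exact X_pow (Polynomial.X : R) i
  · intro i j hij
    have h := CC_X (Polynomial.X : R) i j hij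
    constructor
    · apply Commute.of_map (f := (Gam).subtype) Subtype.val_injective
      rw [map_commutatorElement]
      exact h.1
    · apply Commute.of_map (f := (Gam).subtype) Subtype.val_injective
      rw [map_commutatorElement]
      exact h.2
  · have h1 : Set.range (fun i => (⟨Xg (Polynomial.X : R) i, hx i⟩ : Gam)) =
        ((↑) : Gam → (Matrix (Fin 3) (Fin 3) R)ˣ) ⁻¹' Set.range (Xg (Polynomial.X : R)) := by
      ext y
      constructor
      · rintro ⟨i, rfl⟩
        exact ⟨i, rfl⟩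
      · rintro ⟨i, hi⟩
        exact ⟨i, Subtype.ext hi⟩
    rw [h1]
    exact Subgroup.closure_closure_coe_preimage
  · exact (red i).normal_ker

end

end Pool.Agent.Work.MP_1ddc88_an.TL
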