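import Pool.Agent.Work.MP_1ddc88_an.TL.Stmts

/-!
# MP_1ddc88_an, block TL, item XTow (helper96)
-/

set_option autoImplicit false

open Filter Topology
open scoped RealInnerProductSpace Classical commutatorElement

namespace Pool.Agent.Work.MP_1ddc88_an.TL

namespace IXTow

/-- the graph on `Fin m` -/
theorem graph (h2 : St_XCay) (G : Type) [Group G] [Finite G] (x : Fin 3 → G) (hx : Heis3 x)
    {m : ℕ} (e : G ≃ Fin m) : ∃ H : SimpleGraph (Fin m), H.Connected ∧
      (∀ v, {w | H.Adj v w}.ncard ≤ 15) ∧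
      ∀ f : Fin m → ℝ, ∑ v, f v = 0 →
        (1 / 30) * ∑ v, f v ^ 2 ≤ ∑ v, ∑ w, if H.Adj v w then (f v - f w) ^ 2 else 0 := by
  have : Fintype G := Fintype.ofFinite G
  obtain ⟨H, hc, hd, hg⟩ := h2 G x hx
  refine ⟨H.comap e.symm, ?_, ?_, ?_⟩
  · exact (SimpleGraph.Iso.connected_iff (SimpleGraph.Iso.comap e.symm H)).2 hc
  · intro v
    have h1 : {w | (H.comap e.symm).Adj v w} = e '' {w | H.Adj (e.symm v) w} := by
      ext w
      constructor
      · intro hw
        exact ⟨e.symm w, hw, by simp⟩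
      · rintro ⟨w', hw', rfl⟩
        show H.Adj (e.symm v) (e.symm (e w'))
        rw [Equiv.symm_apply_apply]
        exact hw'
    rw [h1, Set.ncard_image_of_injective _ e.injective]
    exact hd _
  · intro f hf
    have h1 : ∑ g, f (e g) = 0 := by
      rw [← hf]
      exact Equiv.sum_comp e f
    have h3 := hg (fun g => f (e g)) h1
    have h4 : ∑ g, f (e g) ^ 2 = ∑ v, f v ^ 2 := Equiv.sum_comp e (fun v => f v ^ 2)
    have h5 : ∑ g, ∑ g', (if H.Adj g g' then (f (e g) - f (e g')) ^ 2 else 0) =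
        ∑ v, ∑ w, if (H.comap e.symm).Adj v w then (f v - f w) ^ 2 else 0 := by
      rw [← Equiv.sum_comp e]
      refine Finset.sum_congr rfl fun g _ => ?_
      rw [← Equiv.sum_comp e]
      refine Finset.sum_congr rfl fun g' _ => ?_
      have h6 : (H.comap e.symm).Adj (e g) (e g') ↔ H.Adj g g' := by
        show H.Adj (e.symm (e g)) (e.symm (e g')) ↔ H.Adj g g'
        rw [Equiv.symm_apply_apply, Equiv.symm_apply_apply]
      by_cases h7 : H.Adj g g'
      · rw [if_pos h7, if_pos (h6.2 h7)]
      · rw [if_neg h7, if_neg (fun h => h7 (h6.1 h))]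
    rw [h4, h5] at h3
    exact h3

/-- relations pass to quotients -/
theorem heis {Γ G : Type} [Group Γ] [Group G] (φ : Γ →* G) (hφ : Function.Surjective φ)
    (x : Fin 3 → Γ) (hx : Heis3 x) : Heis3 (fun j => φ (x j)) where
  pow i := by rw [← map_pow, hx.pow, map_one]
  com i j hij := by
    have h := hx.com i j hij
    have h1 : ⁅φ (x i), φ (x j)⁆ = φ ⁅x i, x j⁆ := (map_commutatorElement φ _ _).symm
    rw [h1]
    exact ⟨h.1.map φ, h.2.map φ⟩
  gen := by
    have h1 : Set.range (fun j => φ (x j)) = φ '' Set.range x := by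
      rw [← Set.range_comp]
      rfl
    rw [h1, ← MonoidHom.map_closure, hx.gen, ← MonoidHom.range_eq_map,
      MonoidHom.range_eq_top]
    exact hφ

/-- the fibres of a surjective homomorphism -/
theorem fib {G G' : Type} [Group G] [Group G'] (φ : G →* G') (hφ : Function.Surjective φ)
    (v : G') : {w | φ w = v}.ncard = Nat.card φ.ker := by
  obtain ⟨a, rfl⟩ := hφ v
  have h1 : {w | φ w = φ a} = (fun b => a * b) '' (φ.ker : Set G) := by
    ext w
    constructor
    · intro hw
      refine ⟨a⁻¹ * w, ?_, by simp⟩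
      show a⁻¹ * w ∈ φ.ker
      rw [MonoidHom.mem_ker, map_mul, map_inv, show φ w = φ a from hw, inv_mul_cancel]
    · rintro ⟨b, hb, rfl⟩
      show φ (a * b) = φ a
      rw [map_mul, show φ b = 1 from hb, mul_one]
  rw [h1, Set.ncard_image_of_injective _ (mul_right_injective a)]
  rfl

theorem card_ker {G G' : Type} [Group G] [Group G'] (φ : G →* G')
    (hφ : Function.Surjective φ) : Nat.card φ.ker * Nat.card G' = Nat.card G := by
  have h1 := Subgroup.card_mul_index φ.ker
  rw [Subgroup.index_ker, MonoidHom.range_eq_top.2 hφ] at h1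
  rw [← h1]
  congr 1
  exact (Nat.card_congr (Equiv.Set.univ G')).symm

end IXTow

open IXTow in
theorem pr_XTow (h1 : St_XGrp) (h2 : St_XCay) : St_XTow := by
  obtain ⟨Γ, _, x, N, hx, h0, hnorm, hle, hidx, hrel, hlim⟩ := h1
  have hfin : ∀ i, Finite (Γ ⧸ N i) := fun i => by
    have : (N i).FiniteIndex := ⟨hidx i⟩
    infer_instance
  have e : ∀ i, (Γ ⧸ N i) ≃ Fin ((N i).index) := fun i => by
    have := hfin i
    exact Finite.equivFinOfCardEq rfl
  have hG : ∀ i, ∃ H : SimpleGraph (Fin ((N i).index)), H.Connected ∧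
      (∀ v, {w | H.Adj v w}.ncard ≤ 15) ∧
      ∀ f : Fin ((N i).index) → ℝ, ∑ v, f v = 0 →
        (1 / 30) * ∑ v, f v ^ 2 ≤ ∑ v, ∑ w, if H.Adj v w then (f v - f w) ^ 2 else 0 := by
    intro i
    have := hnorm i
    have := hfin i
    exact graph h2 (Γ ⧸ N i) (fun j => QuotientGroup.mk' (N i) (x j))
      (heis (QuotientGroup.mk' (N i)) (QuotientGroup.mk'_surjective (N i)) x hx) (e i)
  choose H hc hd hg using hG
  let q : ∀ i, (Γ ⧸ N (i + 1)) → (Γ ⧸ N i) := fun i => Subgroup.quotientMapOfLE (hle i)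
  have hq : ∀ i v, {w | q i w = v}.ncard = (N (i + 1)).relIndex (N i) := by
    intro i v
    have := hnorm i
    have := hnorm (i + 1)
    let φ : (Γ ⧸ N (i + 1)) →* (Γ ⧸ N i) :=
      QuotientGroup.map (N (i + 1)) (N i) (MonoidHom.id Γ) (hle i)
    have hφq : ∀ w, φ w = q i w := by
      intro w
      obtain ⟨g, rfl⟩ := QuotientGroup.mk_surjective w
      rfl
    have hφ : Function.Surjective φ := by
      intro w
      obtain ⟨g, rfl⟩ := QuotientGroup.mk_surjective w
      exact ⟨(g : Γ ⧸ N (i + 1)), rfl⟩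
    have h3 : {w | q i w = v} = {w | φ w = v} := by
      ext w
      show q i w = v ↔ φ w = v
      rw [hφq]
    rw [h3, fib φ hφ]
    have h4 : Nat.card φ.ker * (N i).index = (N (i + 1)).index := card_ker φ hφ
    have h5 := Subgroup.relIndex_mul_index (hle i)
    rw [← h5] at h4
    exact Nat.eq_of_mul_eq_mul_right (Nat.pos_of_ne_zero (hidx i)) h4
  let X : Expander :=
    { N := fun i => (N i).index
      G := H
      D := 15
      c := 1 / 30
      conn := hc
      deg := hd
      big := hlim
      c_pos := by norm_num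
      gap := hg }
  refine ⟨{ X := X, K := 5 ^ 9, N_zero := ?_, π := fun i v => e i (q i ((e (i + 1)).symm v)),
            d := fun i => (N (i + 1)).relIndex (N i), d_le := hrel, fibre := ?_ }⟩
  · show (N 0).index = 1
    rw [h0, Subgroup.index_top]
  · intro i v
    show {w : Fin ((N (i + 1)).index) | e i (q i ((e (i + 1)).symm w)) = v}.ncard =
      (N (i + 1)).relIndex (N i)
    have h3 : {w : Fin ((N (i + 1)).index) | e i (q i ((e (i + 1)).symm w)) = v} =
        e (i + 1) '' {w | q i w = (e i).symm v} := by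
      ext w
      constructor
      · intro hw
        refine ⟨(e (i + 1)).symm w, ?_, by simp⟩
        show q i ((e (i + 1)).symm w) = (e i).symm v
        rw [← show e i (q i ((e (i + 1)).symm w)) = v from hw, Equiv.symm_apply_apply]
      · rintro ⟨w', hw', rfl⟩
        show e i (q i ((e (i + 1)).symm (e (i + 1) w'))) = v
        rw [Equiv.symm_apply_apply, show q i w' = (e i).symm v from hw', Equiv.apply_symm_apply]
    rw [h3, Set.ncard_image_of_injective _ (e (i + 1)).injective]
    exact hq i _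

end Pool.Agent.Work.MP_1ddc88_an.TL
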