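import Pool.Agent.Work.MP_1ddc88_an.AllA
import Pool.Agent.Work.MP_1ddc88_an.TL.I_TAG
import Pool.Agent.Work.MP_1ddc88_an.TL.I_TAK
import Pool.Agent.Work.MP_1ddc88_an.TL.I_TAR
import Pool.Agent.Work.MP_1ddc88_an.TL.I_TComm
import Pool.Agent.Work.MP_1ddc88_an.TL.I_TFA
import Pool.Agent.Work.MP_1ddc88_an.TL.I_TFL
import Pool.Agent.Work.MP_1ddc88_an.TL.I_TFPC
import Pool.Agent.Work.MP_1ddc88_an.TL.I_TFS
import Pool.Agent.Work.MP_1ddc88_an.TL.I_TGeo
import Pool.Agent.Work.MP_1ddc88_an.TL.I_THM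
import Pool.Agent.Work.MP_1ddc88_an.TL.I_THom
import Pool.Agent.Work.MP_1ddc88_an.TL.I_TIndex
import Pool.Agent.Work.MP_1ddc88_an.TL.I_TInvM
import Pool.Agent.Work.MP_1ddc88_an.TL.I_TKill
import Pool.Agent.Work.MP_1ddc88_an.TL.I_TLA
import Pool.Agent.Work.MP_1ddc88_an.TL.I_TLC
import Pool.Agent.Work.MP_1ddc88_an.TL.I_TLF
import Pool.Agent.Work.MP_1ddc88_an.TL.I_TMet
import Pool.Agent.Work.MP_1ddc88_an.TL.I_TPR
import Pool.Agent.Work.MP_1ddc88_an.TL.I_TPath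
import Pool.Agent.Work.MP_1ddc88_an.TL.I_TPert
import Pool.Agent.Work.MP_1ddc88_an.TL.I_TRot
import Pool.Agent.Work.MP_1ddc88_an.TL.I_TU1
import Pool.Agent.Work.MP_1ddc88_an.TL.I_TUG
import Pool.Agent.Work.MP_1ddc88_an.TL.I_TV
import Pool.Agent.Work.MP_1ddc88_an.TL.I_TWR
import Pool.Agent.Work.MP_1ddc88_an.TL.I_XCay
import Pool.Agent.Work.MP_1ddc88_an.TL.I_XGrp
import Pool.Agent.Work.MP_1ddc88_an.TL.I_XTow

/-!
# MP_1ddc88_an, block TL: all items without hypotheses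
-/

set_option autoImplicit false

namespace Pool.Agent.Work.MP_1ddc88_an.TL

theorem all_TGeo : St_TGeo := pr_TGeo pr_TMet
theorem all_TFPC : St_TFPC := pr_TFPC pr_TMet
theorem all_TFS : St_TFS := pr_TFS pr_TMet pr_ShF
theorem all_TFA : St_TFA := pr_TFA pr_AF
theorem all_TFL : St_TFL := pr_TFL pr_TLF
theorem all_TLC : St_TLC := pr_TLC all_TGeo
theorem all_TPR : St_TPR := pr_TPR all_ShP all_TFPC all_TLC all_AP all_AN all_TFA
theorem all_TLA : St_TLA := pr_TLA pr_PavF pr_ShF pr_TLF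
theorem all_TU1 : St_TU1 := pr_TU1 pr_ShF all_TLA
theorem all_TAR : St_TAR := pr_TAR all_TFPC all_TLC
theorem all_TAG : St_TAG := pr_TAG pr_TMet all_TGeo all_TAR
theorem all_TUG : St_TUG := pr_TUG pr_PavF pr_ShF all_ShP all_TFPC all_TFS all_TPR
theorem all_TWR : St_TWR := pr_TWR all_TFL all_TPR
theorem all_THM : St_THM := pr_THM all_TLA all_TU1
theorem all_TPert : St_TPert := pr_TPert all_TAG
theorem all_TInvM : St_TInvM := pr_TInvM all_TAG
theorem all_TComm : St_TComm := pr_TComm all_TAG pr_THom all_TPert all_TInvM pr_TRot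
theorem all_TKill : St_TKill :=
  pr_TKill all_ShP all_TAG all_TUG all_TWR all_THM pr_THom all_TPert pr_TRot all_TComm
theorem all_TPath : St_TPath := pr_TPath pr_Unit pr_PUa
theorem all_TV : St_TV := pr_TV pr_PavF pr_ShF all_ShP
theorem all_TIndex : St_TIndex := pr_TIndex all_TUG all_TAG pr_THom all_TPath all_TV all_PUo
theorem all_XCay : St_XCay := pr_XCay all_ESpec
theorem all_XTow : St_XTow := pr_XTow pr_XGrp all_XCay

end Pool.Agent.Work.MP_1ddc88_an.TL
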