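import Pool.Agent.Work.MP_1ddc88_an.Exp

/-!
# MP_1ddc88_an, block TL: towers of expander graphs, their telescopes, the space `Z = T × ℕ`
-/

set_option autoImplicit false

open Filter Topology
open scoped Classical

namespace Pool.Agent.Work.MP_1ddc88_an.TL

noncomputable section

/-- A tower: an expander `X` with `N 0 = 1` and maps `π i` from the vertices of `G (i+1)` to those of
`G i`, all of whose fibres have the same number `d i ≤ K` of elements. -/
structure Tower where
  X : Expander
  K : ℕ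
  N_zero : X.N 0 = 1
  π : (i : ℕ) → Fin (X.N (i + 1)) → Fin (X.N i)
  d : ℕ → ℕ
  d_le : ∀ i, d i ≤ K
  fibre : ∀ i v, {w | π i w = v}.ncard = d i

variable (T : Tower)

/-- The telescope: the edges of the graphs `G i`, and an edge from every vertex `v` of `G (i+1)` to
`π i v`. -/
def tele : SimpleGraph (Pt T.X) :=
  SimpleGraph.fromRel (fun p q =>
    (∃ (i : ℕ) (v w : Fin (T.X.N i)), (T.X.G i).Adj v w ∧ p = ⟨i, v⟩ ∧ q = ⟨i, w⟩) ∨
    (∃ (i : ℕ) (v : Fin (T.X.N (i + 1))), p = ⟨i + 1, v⟩ ∧ q = ⟨i, T.π i v⟩))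

/-- The metric of `Z = T × ℕ`: graph metric of the telescope plus `|m - n|`. -/
def dT (z w : Z T.X) : ℕ := (tele T).dist z.1 w.1 + ((z.2 - w.2) + (w.2 - z.2))

end

end Pool.Agent.Work.MP_1ddc88_an.TL
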