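import Pool.Agent.Work.MP_1ddc88_an.Basic
import Pool.Agent.Work.MP_1ddc88_an.TL.Tow

/-!
# MP_1ddc88_an, block TL: definitions for telescopes of expander towers

`Z = T × ℕ` with `T` the telescope of a tower of expander graphs; the Hilbert space
`ℓ²(Z) ⊗ ℓ²(ℕ)` and the operators `Pav`, `Sh a`, `u a` are those of `Defs.lean`.
-/

set_option autoImplicit false

open Filter Topology
open scoped ENNReal Classical

namespace Pool.Agent.Work.MP_1ddc88_an.TL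

noncomputable section

variable (T : Tower)

/-- Propagation at most `R`: the support of `S ξ` is in the `R`-neighbourhood of that of `ξ`. -/
def FinProp (R : ℕ) (S : Op T.X) : Prop :=
  ∀ (ξ : Hs T.X) (p : Ix T.X), S ξ p ≠ 0 → ∃ q, ξ q ≠ 0 ∧ dT T p.1 q.1 ≤ R

/-- The Roe algebra `C*(Z)`: norm closure of the locally compact operators of finite propagation. -/
def Roe : Set (Op T.X) := closure {S | (∃ R, FinProp T R S) ∧ LocComp T.X S}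

/-- `C*(Z) + ℂ`. -/
def RoePlus : Set (Op T.X) := {S | ∃ c : ℂ, S - c • (1 : Op T.X) ∈ Roe T}

/-- The ghost operators of `C*(Z)`: the blocks `S_(z,w)` tend to zero in norm at infinity. -/
def Ghost : Set (Op T.X) :=
  {S | S ∈ Roe T ∧ ∀ ε > (0 : ℝ), ∃ F : Finset (Z T.X), ∀ z w, z ∉ F ∨ w ∉ F →
    ‖proj (cell T.X z) ∘L S ∘L proj (cell T.X w)‖ ≤ ε}

/-- The matrix `x` over `C*(Z) + ℂ` is invertible modulo the set `I` of operators. -/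
def InvMod (I : Set (Op T.X)) {n : ℕ} (x : Mat T.X n) : Prop :=
  (∀ a b, x a b ∈ RoePlus T) ∧
  ∃ g : Mat T.X n, (∀ a b, g a b ∈ RoePlus T) ∧
    (∀ a b, (x * g - 1) a b ∈ I) ∧ (∀ a b, (g * x - 1) a b ∈ I)

/-- `x` and `y` are joined by a norm continuous path of matrices over `C*(Z) + ℂ` which are
invertible modulo `I`. -/
def Homot (I : Set (Op T.X)) {n : ℕ} (x y : Mat T.X n) : Prop :=
  ∃ f : ℝ → Mat T.X n, ContinuousOn f (Set.Icc 0 1) ∧ f 0 = x ∧ f 1 = y ∧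
    ∀ t ∈ Set.Icc (0 : ℝ) 1, InvMod T I (f t)

/-- The `k`-th power of the unilateral shift along the ray `{x₀} × ℕ` (`x₀` the point of `G 0`; the
`|k|`-th power of its adjoint for `k < 0`), tensored with `q`, and the identity elsewhere. -/
def v (k : ℤ) : Op T.X := u T.X (fun i => if i = 0 then k else 0)

/-- Normalized pull back: `(Lp ξ)(⟨i+1, v⟩, m, k) = (d i)^(-1/2) ξ(⟨i, π v⟩, m, k)`, and `0` on the
level 0. -/
def Lp : Op T.X := ((T.K : ℂ) + 1) • kerOp (fun p q : Ix T.X =>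
  if p.1.2 = q.1.2 ∧ p.2 = q.2 ∧
    ∃ (i : ℕ) (v : Fin (T.X.N (i + 1))), p.1.1 = ⟨i + 1, v⟩ ∧ q.1.1 = ⟨i, T.π i v⟩
  then ((T.K : ℂ) + 1)⁻¹ * ((Real.sqrt (T.d q.1.1.1) : ℝ) : ℂ)⁻¹ else 0)

/-- Its adjoint: `(Lm ξ)(⟨i, v⟩, m, k) = (d i)^(-1/2) ∑_(π w = v) ξ(⟨i+1, w⟩, m, k)`. -/
def Lm : Op T.X := ((T.K : ℂ) + 1) • kerOp (fun p q : Ix T.X =>
  if p.1.2 = q.1.2 ∧ p.2 = q.2 ∧
    ∃ (i : ℕ) (v : Fin (T.X.N (i + 1))), q.1.1 = ⟨i + 1, v⟩ ∧ p.1.1 = ⟨i, T.π i v⟩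
  then ((T.K : ℂ) + 1)⁻¹ * ((Real.sqrt (T.d p.1.1.1) : ℝ) : ℂ)⁻¹ else 0)

/-- `W = Lp (P ⊗ 1 ⊗ q)`. -/
def W : Op T.X := Lp T * Pav T.X

/-- `W* = Lm (P ⊗ 1 ⊗ q)`. -/
def W' : Op T.X := Lm T * Pav T.X

/-- `u_k`: all levels shifted by `k`. -/
def uu (k : ℤ) : Op T.X := u T.X (fun _ => k)

/-- levels `≥ 1` shifted by `k`. -/
def u1 (k : ℤ) : Op T.X := u T.X (fun i => if i = 0 then 0 else k)

end

end Pool.Agent.Work.MP_1ddc88_an.TL
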