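import Pool.Agent.Work.MP_1ddc88_an.TL.AllB
import Pool.Agent.Work.MP_1ddc88_an.Tr

/-!
# MP_1ddc88_an: the facts of block TL for the definitions of `SDefs.lean`
-/

set_option autoImplicit false

open Filter Topology
open scoped ENNReal Classical

namespace Pool.Agent.Work.MP_1ddc88_an.TL

noncomputable section

variable (T : Tower)

theorem tRoe_eq : (S.Roe (dT T) : Set (Op T.X)) = Roe T := sRoe_eq' T.X (dT T)

theorem tRoePlus_eq : (S.RoePlus (dT T) : Set (Op T.X)) = RoePlus T := by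
  unfold RoePlus
  rw [← tRoe_eq T]
  rfl

theorem tGhost_eq : (S.Ghost (dT T) : Set (Op T.X)) = Ghost T := by
  rw [sGhost_eq', tRoe_eq]
  rfl

theorem tInvMod_iff (I : Set (Op T.X)) {n : ℕ} (x : Mat T.X n) :
    S.InvMod (dT T) I x ↔ InvMod T I x := by
  show ((∀ a b, x a b ∈ (S.RoePlus (dT T) : Set (Op T.X))) ∧
    ∃ g : Mat T.X n, (∀ a b, g a b ∈ (S.RoePlus (dT T) : Set (Op T.X))) ∧
      (∀ a b, (x * g - 1) a b ∈ I) ∧ (∀ a b, (g * x - 1) a b ∈ I)) ↔ InvMod T I x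
  rw [tRoePlus_eq]
  rfl

theorem tHomot_iff (I : Set (Op T.X)) {n : ℕ} (x y : Mat T.X n) :
    S.Homot (dT T) I x y ↔ Homot T I x y := by
  constructor
  · rintro ⟨f, h1, h2, h3, h4⟩
    exact ⟨f, h1, h2, h3, fun t ht => (tInvMod_iff T I (f t)).mp (h4 t ht)⟩
  · rintro ⟨f, h1, h2, h3, h4⟩
    exact ⟨f, h1, h2, h3, fun t ht => (tInvMod_iff T I (f t)).mpr (h4 t ht)⟩

theorem finT_bddGeo : S.BddGeo (dT T) := ⟨fun x y z => (pr_TMet T).2 x y z, all_TGeo T⟩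

theorem finT_ideals : S.Ideals (dT T) := by
  refine ⟨?_, ?_, ?_⟩
  · show ∀ S₁ T₁ : Op T.X, S₁ ∈ (S.Roe (dT T) : Set (Op T.X)) →
      T₁ ∈ (S.Roe (dT T) : Set (Op T.X)) →
      S₁ + T₁ ∈ (S.Roe (dT T) : Set (Op T.X)) ∧ S₁ * T₁ ∈ (S.Roe (dT T) : Set (Op T.X)) ∧
      ∀ c : ℂ, c • S₁ ∈ (S.Roe (dT T) : Set (Op T.X))
    rw [tRoe_eq]
    exact fun S₁ T₁ h1 h2 => all_TAR T S₁ T₁ h1 h2
  · show ∀ S₁ G G' : Op T.X, S₁ ∈ (S.RoePlus (dT T) : Set (Op T.X)) →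
      G ∈ (S.Ghost (dT T) : Set (Op T.X)) → G' ∈ (S.Ghost (dT T) : Set (Op T.X)) →
      G + G' ∈ (S.Ghost (dT T) : Set (Op T.X)) ∧ S₁ * G ∈ (S.Ghost (dT T) : Set (Op T.X)) ∧
      G * S₁ ∈ (S.Ghost (dT T) : Set (Op T.X))
    rw [tRoePlus_eq, tGhost_eq]
    intro S₁ G G' h1 h2 h3
    obtain ⟨h4, -, h5, h6, -⟩ := (all_TAG T S₁ S₁ G G' h1 h1 h2 h3).2
    exact ⟨h4, h5, h6⟩
  · show (Cpt T.X : Set (Op T.X)) ⊆ (S.Ghost (dT T) : Set (Op T.X))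
    rw [tGhost_eq]
    exact pr_TAK T

theorem tv_eq (k : ℤ) : (S.u T.X (fun i => if i = 0 then k else 0) : Op T.X) = v T k :=
  su_eq T.X pr_PavF pr_ShF _

theorem tstab_eq (n : ℕ) (k : ℤ) :
    (S.stab (Y := Z T.X) n (S.u T.X (fun i => if i = 0 then k else 0)) : Mat T.X (n + 1)) =
      stab T.X n (v T k) := by
  rw [← tv_eq]
  rfl

theorem finT_kill (k : ℤ) : S.Homot (dT T) (S.Ghost (dT T))
    (S.stab 3 (S.u T.X (fun i => if i = 0 then k else 0))) 1 := by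
  refine (tHomot_iff T (S.Ghost (dT T)) _ 1).mpr ?_
  show Homot T (S.Ghost (dT T) : Set (Op T.X))
    (S.stab (Y := Z T.X) 3 (S.u T.X (fun i => if i = 0 then k else 0)) : Mat T.X (3 + 1)) 1
  rw [tstab_eq, tGhost_eq]
  exact all_TKill T k

theorem finT_inv (n : ℕ) (k : ℤ) (hk : k ≠ 0) : S.InvMod (dT T) (S.Cpt (Z T.X))
    (S.stab n (S.u T.X (fun i => if i = 0 then k else 0))) := by
  refine (tInvMod_iff T (Cpt T.X) _).mpr ?_
  show InvMod T (Cpt T.X)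
    (S.stab (Y := Z T.X) n (S.u T.X (fun i => if i = 0 then k else 0)) : Mat T.X (n + 1))
  rw [tstab_eq]
  exact (all_TIndex T n k hk).1

theorem finT_index (n : ℕ) (k : ℤ) (hk : k ≠ 0) : ¬ S.Homot (dT T) (S.Cpt (Z T.X))
    (S.stab n (S.u T.X (fun i => if i = 0 then k else 0))) 1 := by
  intro h
  have h1 := (tHomot_iff T (Cpt T.X)
    (S.stab n (S.u T.X (fun i => if i = 0 then k else 0))) 1).mp h
  have h2 : Homot T (Cpt T.X) (S.stab (Y := Z T.X) n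
    (S.u T.X (fun i => if i = 0 then k else 0)) : Mat T.X (n + 1)) 1 := h1
  rw [tstab_eq] at h2
  exact (all_TIndex T n k hk).2 h2

end

end Pool.Agent.Work.MP_1ddc88_an.TL
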