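import Pool.Agent.Work.MP_1ddc88_an.TL.Stmts

/-!
# MP_1ddc88_an, block TL, item THM (helper96)
-/

set_option autoImplicit false

open Filter Topology
open scoped ENNReal Classical

namespace Pool.Agent.Work.MP_1ddc88_an.TL

noncomputable section

namespace ITHM

variable {R : Type*} [Ring R]

theorem idem {a : R} (h : a * a = a) : (1 - a) * (1 - a) = 1 - a := by
  rw [mul_sub, mul_one, sub_mul, one_mul, h, sub_self, sub_zero]

theorem mat1 {S S' p : R} (h1 : S' * S = p) (h3 : S * p = S) (h4 : p * S' = S') :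
    !![S, 1 - S * S'; 1 - p, S'] * !![S', 1 - p; 1 - S * S', S] = 1 ∧
    !![S', 1 - p; 1 - S * S', S] * !![S, 1 - S * S'; 1 - p, S'] = 1 := by
  have hpp : p * p = p := by
    calc p * p = S' * (S * p) := by rw [← mul_assoc, h1]
      _ = p := by rw [h3, h1]
  have hqq : (S * S') * (S * S') = S * S' := by
    rw [mul_assoc, ← mul_assoc S' S S', h1, h4]
  have e1 : (1 - S * S') * S = 0 := by
    rw [sub_mul, one_mul, mul_assoc, h1, h3, sub_self]
  have e2 : S' * (1 - S * S') = 0 := by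
    rw [mul_sub, mul_one, ← mul_assoc, h1, h4, sub_self]
  have e3 : S * (1 - p) = 0 := by rw [mul_sub, mul_one, h3, sub_self]
  have e4 : (1 - p) * S' = 0 := by rw [sub_mul, one_mul, h4, sub_self]
  rw [Matrix.mul_fin_two, Matrix.mul_fin_two, Matrix.one_fin_two, idem hpp, idem hqq, e1, e2, e3,
    e4, h1]
  simp

theorem mat2 {S S' p V : R} (h1 : S' * S = p) (h3 : S * p = S)
    (h4 : p * S' = S') (h6 : V * S = S * V) (h7 : V * S' = S' * V) :
    !![S, 1 - S * S'; 1 - p, S'] * !![1 - p + V * p, 0; 0, 1] * !![S', 1 - p; 1 - S * S', S] =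
      !![1 - S * S' + V * (S * S'), 0; 0, 1] := by
  have hpp : p * p = p := by
    calc p * p = S' * (S * p) := by rw [← mul_assoc, h1]
      _ = p := by rw [h3, h1]
  have hqq : (S * S') * (S * S') = S * S' := by
    rw [mul_assoc, ← mul_assoc S' S S', h1, h4]
  have e1 : (1 - S * S') * S = 0 := by
    rw [sub_mul, one_mul, mul_assoc, h1, h3, sub_self]
  have e2 : S' * (1 - S * S') = 0 := by
    rw [mul_sub, mul_one, ← mul_assoc, h1, h4, sub_self]
  have e3 : S * (1 - p) = 0 := by rw [mul_sub, mul_one, h3, sub_self]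
  have e4 : (1 - p) * S' = 0 := by rw [sub_mul, one_mul, h4, sub_self]
  have e5 : p * (1 - p) = 0 := by rw [mul_sub, mul_one, hpp, sub_self]
  have f1 : S * (1 - p + V * p) * S' = V * (S * S') := by
    rw [mul_add, e3, zero_add, mul_assoc, mul_assoc, h4, ← mul_assoc, ← h6, mul_assoc]
  have f2 : S * (1 - p + V * p) * (1 - p) = 0 := by
    rw [mul_add, e3, zero_add, mul_assoc, mul_assoc, e5, mul_zero, mul_zero]
  have f3 : (1 - p) * (1 - p + V * p) * S' = 0 := by
    rw [mul_assoc, add_mul, e4, zero_add, mul_assoc, h4, h7, ← mul_assoc, e4, zero_mul]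
  have f4 : (1 - p) * (1 - p + V * p) * (1 - p) = 1 - p := by
    rw [mul_assoc, add_mul, mul_assoc, e5, mul_zero, add_zero, idem hpp, idem hpp]
  rw [Matrix.mul_fin_two, Matrix.mul_fin_two]
  simp only [mul_zero, add_zero, zero_add, mul_one]
  rw [f1, f2, f3, f4, e1, e2, idem hqq, h1, sub_add_cancel, add_comm]
  simp

end ITHM

open ITHM

theorem pr_THM (h1 : St_TLA) (h2 : St_TU1) : St_THM := by
  intro T k
  obtain ⟨a1, _, _, a4, a5, _, a7⟩ := h1 T
  obtain ⟨a8, a9⟩ := a7 k
  have hst : ∀ x : Op T.X, stab T.X 1 x = !![x, 0; 0, 1] := by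
    intro x
    unfold stab
    ext i j
    fin_cases i <;> fin_cases j <;> rfl
  have hm := mat1 a1 a4 a5
  refine ⟨hm.1, hm.2, ?_⟩
  rw [hst, hst, h2 T k]
  exact mat2 a1 a4 a5 a8 a9

end

end Pool.Agent.Work.MP_1ddc88_an.TL
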