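import Pool.Agent.Work.MP_1ddc88_an.TL.Stmts

/-!
# MP_1ddc88_an, block TL, item TPath
-/

set_option autoImplicit false

open Filter Topology
open scoped ENNReal Classical

namespace Pool.Agent.Work.MP_1ddc88_an.TL

theorem pr_TPath (h1 : St_Unit) (h2 : St_PUa) : St_TPath := by
  intro T n x y hxy hx
  obtain ⟨f, hf, hf0, hf1, hinv⟩ := hxy
  have key : PU T.X (f 0) ↔ PU T.X (f 1) := by
    refine isPreconnected_Icc.induction₂ (s := Set.Icc (0 : ℝ) 1)
      (fun s t => PU T.X (f s) ↔ PU T.X (f t))
      ?_ ?_ ?_ (Set.left_mem_Icc.2 zero_le_one) (Set.right_mem_Icc.2 zero_le_one)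
    · intro t ht
      obtain ⟨-, g, -, hfg, -⟩ := hinv t ht
      obtain ⟨δ, hδ, hU⟩ := h1 T.X n
      have hN : ∀ z : Mat T.X n, (∀ a b, ‖((z - f t) * g) a b‖ ≤ δ) → PU T.X (z * g) := by
        intro z hz
        refine ⟨1 + (z - f t) * g, hU _ ?_, ?_⟩
        · intro a b
          rw [add_sub_cancel_left]
          exact hz a b
        · intro a b
          have h3 : z * g - (1 + (z - f t) * g) = f t * g - 1 := by
            rw [sub_mul]
            abel
          rw [h3]
          exact hfg a b
      have hc : ∀ᶠ t' in 𝓝[Set.Icc (0 : ℝ) 1] t, ∀ a b, ‖((f t' - f t) * g) a b‖ ≤ δ := by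
        rw [Filter.eventually_all]
        intro a
        rw [Filter.eventually_all]
        intro b
        have hc2 : Tendsto (fun t' => ‖((f t' - f t) * g) a b‖) (𝓝[Set.Icc (0 : ℝ) 1] t)
            (𝓝 0) := by
          have hc3 : Tendsto (fun t' => ∑ c, (f t' a c - f t a c) * g c b)
              (𝓝[Set.Icc (0 : ℝ) 1] t) (𝓝 (∑ c, (f t a c - f t a c) * g c b)) := by
            refine tendsto_finsetSum _ fun c _ => ?_
            have hc1 : ContinuousOn (fun t => f t a c) (Set.Icc (0 : ℝ) 1) :=
              continuousOn_pi.1 (continuousOn_pi.1 hf a) c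
            exact ((hc1 t ht).sub tendsto_const_nhds).mul tendsto_const_nhds
          have hc4 : ∑ c, (f t a c - f t a c) * g c b = 0 := by
            refine Finset.sum_eq_zero fun c _ => ?_
            rw [sub_self, zero_mul]
          rw [hc4] at hc3
          have hc5 := hc3.norm
          rw [norm_zero] at hc5
          exact hc5
        filter_upwards [hc2.eventually (gt_mem_nhds hδ)] with t' h
        exact h.le
      filter_upwards [hc] with t' ht'
      have N1 := hN (f t') ht'
      have N0 := hN (f t) (fun a b => by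
        rw [sub_self, zero_mul]
        simpa using hδ.le)
      constructor
      · intro hP
        exact h2 T.X n _ _ _ hP N0 N1
      · intro hP
        exact h2 T.X n _ _ _ hP N1 N0
    · intro r s t _ _ _ hrs hst
      exact hrs.trans hst
    · intro s t _ _ hst
      exact hst.symm
  rw [hf0, hf1] at key
  exact key.1 hx

end Pool.Agent.Work.MP_1ddc88_an.TL
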