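import Pool.Agent.Work.MP_1ddc88_an.TL.Defs
import Pool.Agent.Work.MP_1ddc88_an.Stmts
import Pool.Agent.Work.MP_1ddc88_an.StmtsE

/-!
# MP_1ddc88_an, block TL: statements of the items

Every docstring is the complete proof.  Item `K`: statement `St_K`, file `TL/I_K.lean`, theorem
`pr_K`, with the statements named after USES as hypotheses in the given order; namespace
`Pool.Agent.Work.MP_1ddc88_an.TL`, auxiliary lemmas in the sub-namespace `IK`.  Statements without
the letter `T` in front (`St_PavF`, `St_ShF`, `St_ShP`, `St_AF`, `St_AP`, `St_AN`, `St_UB`, `St_PUa`,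
`St_PUo`, `St_Unit`) are those of block BC (`Stmts.lean`, one folder up), where many similar items are
proved (`I_Met`, `I_Geo`, `I_FPC`, `I_LC`, `I_PavRoe`, `I_UG`, `I_AlgR`, `I_AlgG`, `I_AlgK`, `I_Conv`: they can
be adapted, only the metric is a different one).
-/

set_option autoImplicit false

open Filter Topology
open scoped ENNReal Classical

namespace Pool.Agent.Work.MP_1ddc88_an.TL

noncomputable section

/-- TMet (EASY-MEDIUM).  The telescope is connected: each level is (`T.X.conn`), and every level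
`i + 1` has a vertex (connected graphs are nonempty), joined to level `i`; induction.  So
`SimpleGraph.dist` is a metric (`SimpleGraph.Connected.dist_triangle` ..), and `|m - n|` too. -/
def St_TMet : Prop := ∀ (T : Tower), (tele T).Connected ∧ ∀ x y z : Z T.X, dT T x x = 0 ∧
  (dT T x y = 0 → x = y) ∧ dT T x y = dT T y x ∧ dT T x z ≤ dT T x y + dT T y z

/-- TGeo (MEDIUM).  Every vertex of the telescope has at most `D + K + 1` neighbours (in its level at
most `D`, in the next level at most `K`, in the level before at most one).  So the balls of radius `r`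
of the telescope have at most `(D + K + 2)^r` points (induction), and `B = (2R+1) (D + K + 2)^R`.
USES TMet. -/
def St_TGeo : Prop := ∀ (T : Tower) (R : ℕ), ∃ B : ℕ, ∀ z : Z T.X,
  {w | dT T z w ≤ R}.Finite ∧ {w | dT T z w ≤ R}.ncard ≤ B

/-- TFPC (EASY).  As FPC of block BC.  USES TMet. -/
def St_TFPC : Prop := ∀ (T : Tower) (R R' : ℕ) (S S' : Op T.X), FinProp T R S →
  FinProp T R' S' → FinProp T (R + R') (S * S') ∧ FinProp T (max R R') (S + S') ∧
  FinProp T (max R R') (S - S') ∧ ∀ c : ℂ, FinProp T R (c • S)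

/-- TFS (EASY).  By the formulas (`ShF`, `proj_apply`): `Sh a ξ ((x, m), k) ≠ 0` gives the point
`((x, m - a), k)` at distance `|a| ≤ C`; `1` and `proj S` are diagonal.  USES TMet ShF. -/
def St_TFS : Prop := ∀ (T : Tower), (∀ (a : ℕ → ℤ) (C : ℕ), (∀ i, |a i| ≤ (C : ℤ)) →
  FinProp T C (Sh T.X a)) ∧ FinProp T 0 (1 : Op T.X) ∧ ∀ S : Set (Ix T.X), FinProp T 0 (proj S)

/-- TFA (EASY).  `kerOp (kA X)` has propagation at most 1: formula of `AF`; vertices adjacent in a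
level are adjacent in the telescope.  USES AF. -/
def St_TFA : Prop := ∀ (T : Tower), FinProp T 1 (kerOp (kA T.X))

/-- TLF (MEDIUM).  Both kernels are `IsMarkov`: in the kernel of `Lp` a row has at most one entry, of
absolute value `≤ 1`; a column (of a point of level `i`) has `d i` entries
`(K+1)⁻¹ (d i)^(-1/2)`, of sum `(K+1)⁻¹ √(d i) ≤ 1` (`d i ≤ K`; `d i ≥ 1`, because `π i` has a non empty
domain).  The kernel of `Lm` is the transpose.  Then `kerOp_apply`; the factor `K + 1` cancels. -/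
def St_TLF : Prop := ∀ (T : Tower) (ξ : Hs T.X), (∀ i, 1 ≤ T.d i) ∧
  (∀ (i : ℕ) (w : Fin (T.X.N (i + 1))) (m k : ℕ), Lp T ξ ((⟨i + 1, w⟩, m), k) =
    ((Real.sqrt (T.d i) : ℝ) : ℂ)⁻¹ * ξ ((⟨i, T.π i w⟩, m), k)) ∧
  (∀ (w : Fin (T.X.N 0)) (m k : ℕ), Lp T ξ ((⟨0, w⟩, m), k) = 0) ∧
  (∀ (i : ℕ) (w : Fin (T.X.N i)) (m k : ℕ), Lm T ξ ((⟨i, w⟩, m), k) =
    ((Real.sqrt (T.d i) : ℝ) : ℂ)⁻¹ * ∑ w' : Fin (T.X.N (i + 1)),
      if T.π i w' = w then ξ ((⟨i + 1, w'⟩, m), k) else 0)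

/-- TFL (EASY).  By the formulas: `v` and `π v` are adjacent in the telescope.  USES TLF. -/
def St_TFL : Prop := ∀ (T : Tower), FinProp T 1 (Lp T) ∧ FinProp T 1 (Lm T)

/-- TLC (MEDIUM).  As LC of block BC.  USES TGeo. -/
def St_TLC : Prop := ∀ (T : Tower) (R : ℕ) (S S' : Op T.X), FinProp T R S → LocComp T.X S' →
  LocComp T.X (S * S')

/-- TPR (EASY-MEDIUM).  As PavRoe of block BC: `A = kerOp (kA X)`, `S A^(k+1) → S Pav`.
USES ShP TFPC TLC AP AN TFA. -/
def St_TPR : Prop := ∀ (T : Tower) (R : ℕ) (S : Op T.X), FinProp T R S → S * Pav T.X ∈ Roe T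

/-- TLA (MEDIUM).  From the formulas.  `N (i+1) = d i * N i` (fibres).  With
`avg_i = (1/N i) ∑_v ξ((⟨i,v⟩,m),0)`: `W ξ` is `(d i)^(-1/2) avg_i` at level `i + 1`, `k = 0`, and `0` at level 0;
`W' ξ` is `(d i)^(1/2) avg_(i+1)` at level `i`, `k = 0`; both are 0 for `k ≠ 0`.  `W' W = Pav`,
`W W' = Pav - Q 0 Pav`, the values of `W`, `W'` are constant on the levels, and `W`, `W'` depend only on
`Pav ξ`.  The shift by a constant `k` acts on the coordinate `m` only and commutes with everything.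
USES PavF ShF TLF. -/
def St_TLA : Prop := ∀ (T : Tower), W' T * W T = Pav T.X ∧
  W T * W' T = Pav T.X - Q T.X 0 * Pav T.X ∧ Pav T.X * W T = W T ∧ W T * Pav T.X = W T ∧
  Pav T.X * W' T = W' T ∧ W' T * Pav T.X = W' T ∧
  ∀ k : ℤ, Sh T.X (fun _ => k) * W T = W T * Sh T.X (fun _ => k) ∧
    Sh T.X (fun _ => k) * W' T = W' T * Sh T.X (fun _ => k)

/-- TU1 (EASY-MEDIUM).  `a = (0, k, k, ...)`: `Sh a = Q 0 + (1 - Q 0) Sh k`, `W W' = (1 - Q 0) Pav`
(`Q 0` commutes with `Pav`), so `u1 k = 1 - W W' + Sh k W W'`.  USES PavF ShF ShP TLA. -/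
def St_TU1 : Prop := ∀ (T : Tower) (k : ℤ),
  u1 T k = 1 - W T * W' T + Sh T.X (fun _ => k) * (W T * W' T)

/-- TAR (MEDIUM).  As AlgR of block BC (without adjoints): the locally compact operators of finite
propagation are closed under sums, products and scalars; take closures.  USES TFPC TLC. -/
def St_TAR : Prop := ∀ (T : Tower) (S S' : Op T.X), S ∈ Roe T → S' ∈ Roe T →
  S + S' ∈ Roe T ∧ S * S' ∈ Roe T ∧ ∀ c : ℂ, c • S ∈ Roe T

/-- TAG (MEDIUM).  `RoePlus` is closed under sums, products, scalars and contains `1`; `Ghost` is closed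
under sums and scalars and under products with elements of `RoePlus` (as AlgG of block BC).
USES TMet TGeo TAR. -/
def St_TAG : Prop := ∀ (T : Tower) (S S' G G' : Op T.X), S ∈ RoePlus T → S' ∈ RoePlus T →
  G ∈ Ghost T → G' ∈ Ghost T →
  (S + S' ∈ RoePlus T ∧ S * S' ∈ RoePlus T ∧ (∀ c : ℂ, c • S ∈ RoePlus T) ∧
    (1 : Op T.X) ∈ RoePlus T ∧ (0 : Op T.X) ∈ RoePlus T ∧ G ∈ RoePlus T) ∧
  (G + G' ∈ Ghost T ∧ (∀ c : ℂ, c • G ∈ Ghost T) ∧ S * G ∈ Ghost T ∧ G * S ∈ Ghost T ∧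
    (0 : Op T.X) ∈ Ghost T)

/-- TAK (MEDIUM).  As AlgK of block BC. -/
def St_TAK : Prop := ∀ (T : Tower), Cpt T.X ⊆ Ghost T

/-- TUG (MEDIUM).  `u a - 1 = (Sh a - 1) Pav` is in `Roe` by TPR.  `u a u b - u (a+b) =
(Sh a Sh b - Sh (a+b)) Pav` is a ghost, exactly as in UG of block BC (`I_UG.lean`): the entries vanish
unless both points are in the same level `i` and on `m < 3 C`, and are `≤ 1/N i`; `N i → ∞`.
USES PavF ShF ShP TFPC TFS TPR. -/
def St_TUG : Prop := ∀ (T : Tower) (a b : ℕ → ℤ) (C : ℕ), (∀ i, |a i| ≤ (C : ℤ)) →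
  (∀ i, |b i| ≤ (C : ℤ)) → u T.X a ∈ RoePlus T ∧
  u T.X a * u T.X b - u T.X (fun i => a i + b i) ∈ Ghost T

/-- TWR (EASY).  `Lp`, `Lm` have propagation 1, TPR.  USES TFL TPR. -/
def St_TWR : Prop := ∀ (T : Tower), W T ∈ Roe T ∧ W' T ∈ Roe T ∧ Pav T.X ∈ Roe T

/-- `W ⊕ ..` of size 2: the invertible matrix which conjugates `diag(u_k, 1)` to `diag(u1_k, 1)`. -/
def hM (T : Tower) : Mat T.X 2 := !![W T, 1 - W T * W' T; 1 - Pav T.X, W' T]

/-- Its inverse. -/
def hM' (T : Tower) : Mat T.X 2 := !![W' T, 1 - Pav T.X; 1 - W T * W' T, W T]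

/-- THM (EASY-MEDIUM).  With `S = W`, `S' = W'`, `S' S = p = Pav`, `p' = S S'`, `S p = S = p' S`,
`p S' = S' = S' p'`: `hM hM' = 1 = hM' hM` entry by entry, and `hM diag(u,1) hM' = diag(u1, 1)` for
`u = 1 - p + V p`, `V = Sh k` commuting with `S`, `S'`: the entry (0,0) is
`S u S' + (1 - p') = S V p S' + 1 - p' = V p' + 1 - p'` (TU1), (0,1): `S V p (1-p) + (1-p') S = 0`,
(1,0): `(1-p) u S' + S' (1-p') = 0`, (1,1): `(1-p) u (1-p) + S' S = 1`.  USES TLA TU1. -/
def St_THM : Prop := ∀ (T : Tower) (k : ℤ), hM T * hM' T = 1 ∧ hM' T * hM T = 1 ∧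
  hM T * stab T.X 1 (uu T k) * hM' T = stab T.X 1 (u1 T k)

/-- THom (EASY-MEDIUM).  Constant, reversed and concatenated paths. -/
def St_THom : Prop := ∀ (T : Tower) (I : Set (Op T.X)) (n : ℕ) (x y z : Mat T.X n),
  (InvMod T I x → Homot T I x x) ∧ (Homot T I x y → Homot T I y x) ∧
  (Homot T I x y → Homot T I y z → Homot T I x z)

/-- TPert (EASY-MEDIUM).  The path `x + t (y - x)`; the inverse `g` modulo `Ghost` of `x` is one for all
its points (`(x + t(y-x)) g - 1 = (x g - 1) + t (y - x) g`).  USES TAG. -/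
def St_TPert : Prop := ∀ (T : Tower) (n : ℕ) (x y : Mat T.X n), InvMod T (Ghost T) x →
  (∀ a b, (y - x) a b ∈ Ghost T) → Homot T (Ghost T) x y

/-- TInvM (EASY-MEDIUM).  If `g`, `h` are inverses of `x`, `y` modulo `Ghost`, then `h g` is one of `x y`:
`x y h g - 1 = x (y h - 1) g + (x g - 1)`.  USES TAG. -/
def St_TInvM : Prop := ∀ (T : Tower) (n : ℕ) (x y : Mat T.X n), InvMod T (Ghost T) x →
  InvMod T (Ghost T) y → InvMod T (Ghost T) (x * y)

/-- The block matrix `diag(x, y)` of size 4. -/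
def blk {T : Tower} (x y : Mat T.X 2) : Mat T.X 4 :=
  Matrix.reindex finSumFinEquiv finSumFinEquiv (Matrix.fromBlocks x 0 0 y)

/-- The rotation by the angle `t` in `M_2(M_2)`. -/
def rot (T : Tower) (t : ℝ) : Mat T.X 4 :=
  Matrix.reindex finSumFinEquiv finSumFinEquiv
    (Matrix.fromBlocks (((Real.cos t : ℝ) : ℂ) • (1 : Mat T.X 2))
      (-(((Real.sin t : ℝ) : ℂ) • (1 : Mat T.X 2))) (((Real.sin t : ℝ) : ℂ) • (1 : Mat T.X 2))
      (((Real.cos t : ℝ) : ℂ) • (1 : Mat T.X 2)))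

/-- TRot (EASY-MEDIUM).  Block computations: `blk x y * blk x' y' = blk (x x') (y y')`, `blk 1 1 = 1`,
`rot t * rot (-t) = 1`, `rot (π/2) * blk x 1 * rot (-π/2) = blk 1 x`, `rot 0 = 1`, `rot` is continuous, and
`stab 3 x = blk (stab 1 x) 1`. -/
def St_TRot : Prop := ∀ (T : Tower), (∀ x y x' y' : Mat T.X 2,
    blk x y * blk x' y' = blk (x * x') (y * y')) ∧ blk (1 : Mat T.X 2) 1 = 1 ∧
  (∀ t, rot T t * rot T (-t) = 1) ∧ rot T 0 = 1 ∧
  (∀ x : Mat T.X 2, rot T (Real.pi / 2) * blk x 1 * rot T (-(Real.pi / 2)) = blk 1 x) ∧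
  Continuous (rot T) ∧ ∀ x : Op T.X, stab T.X 3 x = blk (stab T.X 1 x) 1

/-- TComm (MEDIUM).  `F t = blk g 1 * rot t * blk h 1 * rot (-t) * blk g' 1 * rot t * blk h' 1 * rot (-t)`,
`t ∈ [0, π/2]` (reparametrize by `t = (π/2) s`).  All factors are invertible modulo `Ghost` (`blk g 1` with
inverse `blk g' 1`, `rot t` with inverse `rot (-t)`, entries in `RoePlus` by TAG), so `F t` is, by TInvM.
`F 0 = blk (g h g' h') 1`, `F (π/2) = blk g 1 * blk 1 h * blk g' 1 * blk 1 h' = blk (g g') (h h')`, which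
differs from `1` by a matrix of ghosts: TPert (and THom).  USES TAG THom TPert TInvM TRot. -/
def St_TComm : Prop := ∀ (T : Tower) (g g' h h' : Mat T.X 2), (∀ a b, g a b ∈ RoePlus T) →
  (∀ a b, g' a b ∈ RoePlus T) → (∀ a b, h a b ∈ RoePlus T) → (∀ a b, h' a b ∈ RoePlus T) →
  (∀ a b, (g * g' - 1) a b ∈ Ghost T) → (∀ a b, (g' * g - 1) a b ∈ Ghost T) →
  (∀ a b, (h * h' - 1) a b ∈ Ghost T) → (∀ a b, (h' * h - 1) a b ∈ Ghost T) →
  Homot T (Ghost T) (blk (g * h * g' * h') 1) 1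

/-- TKill (MEDIUM).  TComm with `g = stab 1 (uu k)`, `g' = stab 1 (uu (-k))`, `h = hM`, `h' = hM'`:
`h g' h' = stab 1 (u1 (-k))` (THM), `g h g' h' = stab 1 (uu k * u1 (-k))`, and
`uu k * u1 (-k) - v k ∈ Ghost` by TUG (`a = k`, `b = (0, -k, -k, ...)`, `a + b = (k, 0, 0, ...)`), as are
`uu k uu (-k) - 1`, `uu (-k) uu k - 1` (`u 0 = 1`).  The entries of `hM`, `hM'` are in `RoePlus` by TWR, TAG.
`stab 3 (v k) = blk (stab 1 (v k)) 1` (TRot); it is invertible modulo `Ghost` (TUG, `v (-k)`), TPert and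
THom.  USES ShP TAG TUG TWR THM THom TPert TRot TComm. -/
def St_TKill : Prop := ∀ (T : Tower) (k : ℤ), Homot T (Ghost T) (stab T.X 3 (v T k)) 1

/-- TPath (EASY-MEDIUM).  Let `f` be the path; `A = {t ∈ [0,1] | PU (f t)}`.  For `t ∈ [0,1]` let `g` with
`f t * g - 1` compact entries; by Unit and continuity of `f`, for `t'` near `t` `f t' * g = 1 + e + compact`
with `1 + e` a unit, so `PU (f t' * g)`, `PU (f t * g)`, and by PUa `PU (f t) ↔ PU (f t')`.  So `A` is open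
and closed in `[0,1]`.  USES Unit PUa. -/
def St_TPath : Prop := ∀ (T : Tower) (n : ℕ) (x y : Mat T.X n), Homot T (Cpt T.X) x y →
  PU T.X x → PU T.X y

/-- TV (EASY-MEDIUM).  `v k` for `k > 0`: by the formulas, `v (-k) * v k = 1` and `v k * v (-k) ≠ 1` (apply
it to `δ_((⟨0, v⟩, 0), 0)`: `N 0 = 1`, so `v (-k)` kills it), and `v k * v (-k) - 1` is minus the projection
onto the finitely many `((⟨0, v⟩, m), 0)`, `m < k`, so compact.  (Or use UB for `i = 0` and
`Q 0 u Q 0 + 1 - Q 0 = u` for `a` supported in `0`.)  USES PavF ShF ShP. -/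
def St_TV : Prop := ∀ (T : Tower) (k : ℤ), 0 < k → v T (-k) * v T k = 1 ∧
  v T k * v T (-k) ≠ 1 ∧ IsCompactOperator ((v T k * v T (-k) - 1 : Op T.X))

/-- TIndex (EASY-MEDIUM).  `k > 0`: `stab n (v (-k)) * stab n (v k) = 1`,
`stab n (v k) * stab n (v (-k)) ≠ 1`, with PUo: `¬ PU (stab n (v k))`; `k < 0` the same with exchanged
roles.  `1` is `PU`.  If `Homot Cpt (stab n (v k)) 1` then by THom `Homot Cpt 1 (stab n (v k))` and
by TPath `PU (stab n (v k))`.  `InvMod Cpt`: inverse `stab n (v (-k))` by TV; entries by TUG and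
TAG.  USES TUG TAG THom TPath TV PUo. -/
def St_TIndex : Prop := ∀ (T : Tower) (n : ℕ) (k : ℤ), k ≠ 0 →
  InvMod T (Cpt T.X) (stab T.X n (v T k)) ∧ ¬ Homot T (Cpt T.X) (stab T.X n (v T k)) 1

/-! ## Existence of towers -/

/-- XGrp (MEDIUM-HARD).  `Γ` = the subgroup generated by `x 0 = E 0 1 1`, `x 1 = E 1 2 1`, `x 2 = E 2 0 X` in
the units of `Matrix (Fin 3) (Fin 3) (ZMod 5)[X]` (or in `SL_3`), `E i j a = 1 + a e_ij`; relations as in
item EGrp of block BC (`StmtsE.lean`, `I_EGrp.lean`).  `N i = {g ∈ Γ | g ≡ 1 mod X^i}` (all entries of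
`g - 1` divisible by `X^i`): normal (kernel of the reduction), `N 0 = Γ`.  Finite index: `Γ / N i` embeds
into the finite ring of matrices over `(ZMod 5)[X]/(X^i)` (entries = the first `i` coefficients).
`relIndex ≤ 5^9`: for `g, h ∈ N i` with the same coefficients of `X^i` in `g - 1` and `h - 1` (9 entries),
`g⁻¹ h ∈ N (i+1)` (`h - g ≡ 0 mod X^(i+1)`, multiply by `g⁻¹`).  Index `→ ∞`: `E 0 1 (X^k) ∈ Γ` (as in EGrp) and
for `k < l < i` `E 0 1 (X^k)`, `E 0 1 (X^l)` are different modulo `N i`, so the index is at least `i`. -/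
def St_XGrp : Prop := ∃ (Γ : Type) (_ : Group Γ) (x : Fin 3 → Γ) (N : ℕ → Subgroup Γ),
  Heis3 x ∧ N 0 = ⊤ ∧ (∀ i, (N i).Normal) ∧ (∀ i, N (i + 1) ≤ N i) ∧ (∀ i, (N i).index ≠ 0) ∧
  (∀ i, (N (i + 1)).relIndex (N i) ≤ 5 ^ 9) ∧ Tendsto (fun i => (N i).index) atTop atTop

/-- XCay (MEDIUM).  The Cayley graph: `g ~ h` if `g ≠ h` and `h = g (x i)^k` for some `i`, `k < 5`; the same
proof as item EGr of block BC (`I_EGr.lean`), without the transport to `Fin N`.  USES ESpec. -/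
def St_XCay : Prop := ∀ (G : Type) [Group G] [Fintype G] (x : Fin 3 → G), Heis3 x →
  ∃ H : SimpleGraph G, H.Connected ∧ (∀ v, {w | H.Adj v w}.ncard ≤ 15) ∧
    ∀ f : G → ℝ, ∑ v, f v = 0 →
      (1 / 30) * ∑ v, f v ^ 2 ≤ ∑ v, ∑ w, if H.Adj v w then (f v - f w) ^ 2 else 0

/-- XTow (MEDIUM).  `G_i = Γ ⧸ N i` (finite), with the images of the `x j` (`Heis3` passes to quotients),
transported to `Fin (N i)` by an equivalence; `N 0 = ⊤`: one point.  `π i` is the natural map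
`Γ ⧸ N (i+1) → Γ ⧸ N i` (`QuotientGroup.map` or `Subgroup.quotientMapOfLE`), a surjective homomorphism, all
fibres have `relIndex ≤ 5^9` elements (cosets of the kernel; or: all fibres have the same number of
elements by translation, and there are `index (i+1) / index i = relIndex` of them).
USES XGrp XCay. -/
def St_XTow : Prop := Nonempty Tower

end

end Pool.Agent.Work.MP_1ddc88_an.TL
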